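import Pool.Agent.FX.Expo

/-! # The Burke property of one cell -/

open MeasureTheory ProbabilityTheory

namespace Pool.Agent.FX

/-- Density of the exponential measure. -/
private noncomputable def burkeP (r : ℝ) : ℝ → ENNReal :=
  (Set.Ioi (0 : ℝ)).indicator fun x => ENNReal.ofReal (r * Real.exp (-(r * x)))

private lemma burkeP_meas (r : ℝ) : Measurable (burkeP r) := by
  unfold burkeP
  refine Measurable.indicator ?_ measurableSet_Ioi
  fun_prop

private lemma burkeP_pos {r x : ℝ} (hx : 0 < x) :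
    burkeP r x = ENNReal.ofReal (r * Real.exp (-(r * x))) :=
  Set.indicator_of_mem (Set.mem_Ioi.2 hx) _

private lemma burkeP_neg {r x : ℝ} (hx : x ≤ 0) : burkeP r x = 0 :=
  Set.indicator_of_notMem (fun h => absurd (Set.mem_Ioi.1 h) (not_lt.2 hx)) _

private lemma burkeP_int {r : ℝ} (hr : 0 < r) {f : ℝ → ENNReal} (hf : Measurable f) :
    ∫⁻ x, f x ∂(expMeasure r) = ∫⁻ x, burkeP r x * f x := by
  rw [E_int hr hf, ← lintegral_indicator measurableSet_Ioi]
  refine lintegral_congr fun x => ?_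
  rcases lt_or_ge 0 x with hx | hx
  · rw [Set.indicator_of_mem (Set.mem_Ioi.2 hx), burkeP_pos hx]
  · rw [Set.indicator_of_notMem (fun h => absurd (Set.mem_Ioi.1 h) (not_lt.2 hx)), burkeP_neg hx,
      zero_mul]

private lemma burke_m3 (Ψ : ℝ → ℝ → ℝ → ENNReal)
    (h : Measurable fun p : ℝ × ℝ × ℝ => Ψ p.1 p.2.1 p.2.2) :
    Measurable fun q : ℝ × ℝ => ∫⁻ z, Ψ q.1 q.2 z := by
  have h1 : Measurable fun r : (ℝ × ℝ) × ℝ => Ψ r.1.1 r.1.2 r.2 :=
    h.comp (g := fun p : ℝ × ℝ × ℝ => Ψ p.1 p.2.1 p.2.2)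
      (f := fun r : (ℝ × ℝ) × ℝ => (r.1.1, r.1.2, r.2)) (by fun_prop)
  exact h1.lintegral_prod_right'

private lemma burke_swap12 (Ψ : ℝ → ℝ → ℝ → ENNReal)
    (h : Measurable fun p : ℝ × ℝ × ℝ => Ψ p.1 p.2.1 p.2.2) :
    ∫⁻ x, ∫⁻ y, ∫⁻ z, Ψ x y z = ∫⁻ y, ∫⁻ x, ∫⁻ z, Ψ x y z :=
  lintegral_lintegral_swap (burke_m3 Ψ h).aemeasurable

private lemma burke_swap23 (Ψ : ℝ → ℝ → ℝ → ENNReal)
    (h : Measurable fun p : ℝ × ℝ × ℝ => Ψ p.1 p.2.1 p.2.2) :
    ∫⁻ x, ∫⁻ y, ∫⁻ z, Ψ x y z = ∫⁻ x, ∫⁻ z, ∫⁻ y, Ψ x y z := by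
  refine lintegral_congr fun x => ?_
  refine lintegral_lintegral_swap (Measurable.aemeasurable ?_)
  exact h.comp (g := fun p : ℝ × ℝ × ℝ => Ψ p.1 p.2.1 p.2.2)
      (f := fun r : ℝ × ℝ => (x, r.1, r.2)) (by fun_prop)

private lemma burke_density {a b : ℝ} (ha : 0 < a) (hb : 0 < b) (Φ : ℝ → ℝ → ℝ → ENNReal)
    (h : Measurable fun p : ℝ × ℝ × ℝ => Φ p.1 p.2.1 p.2.2) :
    ∫⁻ I, ∫⁻ J, ∫⁻ w, Φ I J w ∂(expMeasure 1) ∂(expMeasure a) ∂(expMeasure b) =
      ∫⁻ I, ∫⁻ J, ∫⁻ w, burkeP b I * (burkeP a J * (burkeP 1 w * Φ I J w)) := by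
  have hP := burkeP_meas
  have h3 : Measurable fun p : ℝ × ℝ × ℝ => burkeP 1 p.2.2 * Φ p.1 p.2.1 p.2.2 :=
    ((hP 1).comp (by fun_prop)).mul h
  have h4 : Measurable fun p : ℝ × ℝ × ℝ =>
      burkeP a p.2.1 * (burkeP 1 p.2.2 * Φ p.1 p.2.1 p.2.2) :=
    ((hP a).comp (by fun_prop)).mul h3
  have e1 : ∀ I J : ℝ, ∫⁻ w, Φ I J w ∂(expMeasure 1) = ∫⁻ w, burkeP 1 w * Φ I J w := by
    intro I J
    refine burkeP_int one_pos ?_
    exact h.comp (g := fun p : ℝ × ℝ × ℝ => Φ p.1 p.2.1 p.2.2)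
      (f := fun w : ℝ => (I, J, w)) (by fun_prop)
  have m2 := burke_m3 (fun I J w => burkeP 1 w * Φ I J w) h3
  have e2 : ∀ I : ℝ, ∫⁻ J, (∫⁻ w, burkeP 1 w * Φ I J w) ∂(expMeasure a) =
      ∫⁻ J, ∫⁻ w, burkeP a J * (burkeP 1 w * Φ I J w) := by
    intro I
    rw [burkeP_int ha (f := fun J => ∫⁻ w, burkeP 1 w * Φ I J w)
      (m2.comp (g := fun q : ℝ × ℝ => ∫⁻ w, burkeP 1 w * Φ q.1 q.2 w)
        (f := fun J : ℝ => (I, J)) (by fun_prop))]
    refine lintegral_congr fun J => ?_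
    rw [← lintegral_const_mul]
    exact h3.comp (g := fun p : ℝ × ℝ × ℝ => burkeP 1 p.2.2 * Φ p.1 p.2.1 p.2.2)
      (f := fun w : ℝ => (I, J, w)) (by fun_prop)
  have m3 := burke_m3 (fun I J w => burkeP a J * (burkeP 1 w * Φ I J w)) h4
  have m4 : Measurable fun I : ℝ => ∫⁻ J, ∫⁻ w, burkeP a J * (burkeP 1 w * Φ I J w) :=
    m3.lintegral_prod_right'
  simp_rw [e1, e2]
  rw [burkeP_int hb m4]
  refine lintegral_congr fun I => ?_
  have m5 : Measurable fun J : ℝ => ∫⁻ w, burkeP a J * (burkeP 1 w * Φ I J w) :=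
    m3.comp (g := fun q : ℝ × ℝ => ∫⁻ w, burkeP a q.2 * (burkeP 1 w * Φ q.1 q.2 w))
        (f := fun J : ℝ => (I, J)) (by fun_prop)
  rw [← lintegral_const_mul _ m5]
  refine lintegral_congr fun J => ?_
  rw [← lintegral_const_mul]
  exact h4.comp (g := fun p : ℝ × ℝ × ℝ => burkeP a p.2.1 * (burkeP 1 p.2.2 * Φ p.1 p.2.1 p.2.2))
      (f := fun w : ℝ => (I, J, w)) (by fun_prop)

/-- The off-diagonal split of a triple integral. -/
private lemma burke_split (Ψ : ℝ → ℝ → ℝ → ENNReal)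
    (h : Measurable fun p : ℝ × ℝ × ℝ => Ψ p.1 p.2.1 p.2.2) :
    ∫⁻ x, ∫⁻ y, ∫⁻ z, Ψ x y z =
      (∫⁻ x, ∫⁻ y, ∫⁻ z, if y < x then Ψ x y z else 0) +
        ∫⁻ x, ∫⁻ y, ∫⁻ z, if x < y then Ψ x y z else 0 := by
  have hA : Measurable fun p : ℝ × ℝ × ℝ => if p.2.1 < p.1 then Ψ p.1 p.2.1 p.2.2 else 0 :=
    Measurable.ite (measurableSet_lt (by fun_prop) (by fun_prop)) h measurable_const
  have hB : Measurable fun p : ℝ × ℝ × ℝ => if p.1 < p.2.1 then Ψ p.1 p.2.1 p.2.2 else 0 :=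
    Measurable.ite (measurableSet_lt (by fun_prop) (by fun_prop)) h measurable_const
  have mA := burke_m3 (fun x y z => if y < x then Ψ x y z else 0) hA
  have mA' : Measurable fun x : ℝ => ∫⁻ y, ∫⁻ z, if y < x then Ψ x y z else 0 :=
    mA.lintegral_prod_right'
  rw [← lintegral_add_left mA']
  refine lintegral_congr fun x => ?_
  have mA2 : Measurable fun y : ℝ => ∫⁻ z, if y < x then Ψ x y z else 0 :=
    mA.comp (g := fun q : ℝ × ℝ => ∫⁻ z, if q.2 < q.1 then Ψ q.1 q.2 z else 0)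
    (f := fun y : ℝ => (x, y)) (by fun_prop)
  rw [← lintegral_add_left mA2]
  have hne : ∀ᵐ y : ℝ, y ≠ x := by
    rw [ae_iff]
    simp
  refine lintegral_congr_ae (hne.mono fun y hy => ?_)
  show ∫⁻ z, Ψ x y z = (∫⁻ z, if y < x then Ψ x y z else 0) + ∫⁻ z, if x < y then Ψ x y z else 0
  rcases lt_or_gt_of_ne hy with h1 | h1
  · have h2 : ¬ x < y := not_lt.2 h1.le
    simp [h1, h2]
  · have h2 : ¬ y < x := not_lt.2 (le_of_lt h1)
    have h3 : x < y := h1
    simp [h3, h2]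

/-- If `I ~ Exp(b)`, `J ~ Exp(a)`, `w ~ Exp(1)` are independent and `a + b = 1`, then
`(w + (I - J)⁺, w + (J - I)⁺, min I J)` has the same law as `(I, J, w)`. -/
lemma burke3 {a b : ℝ} (ha : 0 < a) (hb : 0 < b) (hab : a + b = 1)
    (F : ℝ × ℝ × ℝ → ENNReal) (hF : Measurable F) :
    ∫⁻ I, ∫⁻ J, ∫⁻ w, F (w + max (I - J) 0, w + max (J - I) 0, min I J)
        ∂(expMeasure 1) ∂(expMeasure a) ∂(expMeasure b)
      = ∫⁻ I, ∫⁻ J, ∫⁻ w, F (I, J, w) ∂(expMeasure 1) ∂(expMeasure a) ∂(expMeasure b) := by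
  have hP := burkeP_meas
  have mF1 : Measurable fun p : ℝ × ℝ × ℝ =>
      F (p.2.2 + max (p.1 - p.2.1) 0, p.2.2 + max (p.2.1 - p.1) 0, min p.1 p.2.1) :=
    hF.comp (by fun_prop)
  have mF2 : Measurable fun p : ℝ × ℝ × ℝ => F (p.1, p.2.1, p.2.2) := hF.comp (by fun_prop)
  rw [burke_density ha hb
    (fun I J w => F (w + max (I - J) 0, w + max (J - I) 0, min I J)) mF1,
    burke_density ha hb (fun I J w => F (I, J, w)) mF2]
  have hPb : Measurable fun p : ℝ × ℝ × ℝ => burkeP b p.1 := (hP b).comp (by fun_prop)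
  have hPa : Measurable fun p : ℝ × ℝ × ℝ => burkeP a p.2.1 := (hP a).comp (by fun_prop)
  have hP1 : Measurable fun p : ℝ × ℝ × ℝ => burkeP 1 p.2.2 := (hP 1).comp (by fun_prop)
  have mK : Measurable fun p : ℝ × ℝ × ℝ => burkeP b p.1 * (burkeP a p.2.1 * (burkeP 1 p.2.2 *
      F (p.2.2 + max (p.1 - p.2.1) 0, p.2.2 + max (p.2.1 - p.1) 0, min p.1 p.2.1))) :=
    hPb.mul (hPa.mul (hP1.mul mF1))
  have mH : Measurable fun p : ℝ × ℝ × ℝ => burkeP b p.1 * (burkeP a p.2.1 * (burkeP 1 p.2.2 *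
      F (p.1, p.2.1, p.2.2))) := hPb.mul (hPa.mul (hP1.mul mF2))
  rw [burke_split (fun I J w => burkeP b I * (burkeP a J * (burkeP 1 w *
      F (w + max (I - J) 0, w + max (J - I) 0, min I J)))) mK,
    burke_split (fun I J w => burkeP b I * (burkeP a J * (burkeP 1 w * F (I, J, w)))) mH]
  -- densities
  have dens : ∀ {x y z : ℝ}, y < x → 0 < y → 0 < z → ∀ (A B : ℝ), 0 < A → 0 < B → A + B = 1 →
      ∀ c : ENNReal, burkeP B (x - y + z) * (burkeP A z * (burkeP 1 y * c)) =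
        burkeP B x * (burkeP A y * (burkeP 1 z * c)) := by
    intro x y z hxy hy hz A B hA hB hAB c
    have hx : 0 < x := hy.trans hxy
    have hxyz : 0 < x - y + z := by linarith
    rw [burkeP_pos hxyz, burkeP_pos hz, burkeP_pos hy, burkeP_pos hx, burkeP_pos hy,
      burkeP_pos hz]
    rw [← mul_assoc, ← mul_assoc, ← mul_assoc, ← mul_assoc, ← ENNReal.ofReal_mul (by positivity),
      ← ENNReal.ofReal_mul (by positivity), ← ENNReal.ofReal_mul (by positivity),
      ← ENNReal.ofReal_mul (by positivity)]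
    congr 2
    have e1 : B * Real.exp (-(B * (x - y + z))) * (A * Real.exp (-(A * z))) *
        (1 * Real.exp (-(1 * y))) = A * B * Real.exp (-(B * (x - y + z)) + -(A * z) + -(1 * y)) := by
      rw [Real.exp_add, Real.exp_add]
      ring
    have e2 : B * Real.exp (-(B * x)) * (A * Real.exp (-(A * y))) *
        (1 * Real.exp (-(1 * z))) = A * B * Real.exp (-(B * x) + -(A * y) + -(1 * z)) := by
      rw [Real.exp_add, Real.exp_add]
      ring
    rw [e1, e2]
    congr 2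
    have hA' : A = 1 - B := by linarith
    rw [hA']
    ring
  congr 1
  · -- `J < I`
    have mk : Measurable fun p : ℝ × ℝ × ℝ => if p.2.1 < p.1 then burkeP b p.1 *
        (burkeP a p.2.1 * (burkeP 1 p.2.2 *
        F (p.2.2 + max (p.1 - p.2.1) 0, p.2.2 + max (p.2.1 - p.1) 0, min p.1 p.2.1))) else 0 :=
      Measurable.ite (measurableSet_lt (by fun_prop) (by fun_prop)) mK measurable_const
    have mh : Measurable fun p : ℝ × ℝ × ℝ => if p.2.1 < p.1 then burkeP b p.1 *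
        (burkeP a p.2.1 * (burkeP 1 p.2.2 * F (p.1, p.2.1, p.2.2))) else 0 :=
      Measurable.ite (measurableSet_lt (by fun_prop) (by fun_prop)) mH measurable_const
    obtain ⟨k, hk⟩ : ∃ k : ℝ → ℝ → ℝ → ENNReal, ∀ I J w, k I J w = if J < I then burkeP b I *
      (burkeP a J * (burkeP 1 w *
        F (w + max (I - J) 0, w + max (J - I) 0, min I J))) else 0 := ⟨_, fun _ _ _ => rfl⟩
    obtain ⟨g, hg⟩ : ∃ g : ℝ → ℝ → ℝ → ENNReal, ∀ I J w, g I J w = if J < I then burkeP b I *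
      (burkeP a J * (burkeP 1 w * F (I, J, w))) else 0 := ⟨_, fun _ _ _ => rfl⟩
    simp_rw [← hk] at mk ⊢
    simp_rw [← hg] at mh ⊢
    have point : ∀ x y z : ℝ, k (x - y + z) z y = g x y z := by
      intro x y z
      rw [hk, hg]
      by_cases hxy : y < x
      · rw [if_pos (by linarith : z < x - y + z), if_pos hxy]
        have e1 : y + max (x - y + z - z) 0 = x := by
          rw [add_sub_cancel_right, max_eq_left (by linarith)]
          ring
        have e2 : y + max (z - (x - y + z)) 0 = y := by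
          rw [max_eq_right (by linarith), add_zero]
        have e3 : min (x - y + z) z = z := min_eq_right (by linarith)
        rw [e1, e2, e3]
        rcases lt_or_ge 0 y with hy | hy
        · rcases lt_or_ge 0 z with hz | hz
          · exact dens hxy hy hz a b ha hb hab _
          · rw [burkeP_neg hz, burkeP_neg hz]
            simp
        · rw [burkeP_neg hy, burkeP_neg hy]
          simp
      · rw [if_neg (by linarith : ¬ z < x - y + z), if_neg hxy]
    calc ∫⁻ x, ∫⁻ y, ∫⁻ z, k x y z = ∫⁻ y, ∫⁻ x, ∫⁻ z, k x y z := burke_swap12 k mk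
      _ = ∫⁻ y, ∫⁻ x, ∫⁻ z, k (x + y) y z := by
          refine lintegral_congr fun y => ?_
          exact (lintegral_add_right_eq_self (fun x => ∫⁻ z, k x y z) y).symm
      _ = ∫⁻ y, ∫⁻ z, ∫⁻ x, k (x + y) y z :=
          burke_swap23 (fun y x z => k (x + y) y z)
            (mk.comp (g := fun p : ℝ × ℝ × ℝ => k p.1 p.2.1 p.2.2)
              (f := fun p : ℝ × ℝ × ℝ => (p.2.1 + p.1, p.1, p.2.2)) (by fun_prop))
      _ = ∫⁻ y, ∫⁻ z, ∫⁻ x, k (x - z + y) y z := by
          refine lintegral_congr fun y => lintegral_congr fun z => ?_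
          have := lintegral_add_right_eq_self (μ := (volume : Measure ℝ))
            (fun x : ℝ => k (x + y) y z) (-z)
          simpa only [← sub_eq_add_neg] using this.symm
      _ = ∫⁻ y, ∫⁻ z, ∫⁻ x, g x z y := by
          refine lintegral_congr fun y => lintegral_congr fun z => lintegral_congr fun x => ?_
          exact point x z y
      _ = ∫⁻ y, ∫⁻ x, ∫⁻ z, g x z y :=
          burke_swap23 (fun y z x => g x z y)
            (mh.comp (g := fun p : ℝ × ℝ × ℝ => g p.1 p.2.1 p.2.2)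
              (f := fun p : ℝ × ℝ × ℝ => (p.2.2, p.2.1, p.1)) (by fun_prop))
      _ = ∫⁻ x, ∫⁻ y, ∫⁻ z, g x z y :=
          burke_swap12 (fun y x z => g x z y)
            (mh.comp (g := fun p : ℝ × ℝ × ℝ => g p.1 p.2.1 p.2.2)
              (f := fun p : ℝ × ℝ × ℝ => (p.2.1, p.2.2, p.1)) (by fun_prop))
      _ = ∫⁻ x, ∫⁻ y, ∫⁻ z, g x y z :=
          burke_swap23 (fun x y z => g x z y)
            (mh.comp (g := fun p : ℝ × ℝ × ℝ => g p.1 p.2.1 p.2.2)
              (f := fun p : ℝ × ℝ × ℝ => (p.1, p.2.2, p.2.1)) (by fun_prop))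
  · -- `I < J`
    have mk : Measurable fun p : ℝ × ℝ × ℝ => if p.1 < p.2.1 then burkeP b p.1 *
        (burkeP a p.2.1 * (burkeP 1 p.2.2 *
        F (p.2.2 + max (p.1 - p.2.1) 0, p.2.2 + max (p.2.1 - p.1) 0, min p.1 p.2.1))) else 0 :=
      Measurable.ite (measurableSet_lt (by fun_prop) (by fun_prop)) mK measurable_const
    have mh : Measurable fun p : ℝ × ℝ × ℝ => if p.1 < p.2.1 then burkeP b p.1 *
        (burkeP a p.2.1 * (burkeP 1 p.2.2 * F (p.1, p.2.1, p.2.2))) else 0 :=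
      Measurable.ite (measurableSet_lt (by fun_prop) (by fun_prop)) mH measurable_const
    obtain ⟨k, hk⟩ : ∃ k : ℝ → ℝ → ℝ → ENNReal, ∀ I J w, k I J w = if I < J then burkeP b I *
      (burkeP a J * (burkeP 1 w *
        F (w + max (I - J) 0, w + max (J - I) 0, min I J))) else 0 := ⟨_, fun _ _ _ => rfl⟩
    obtain ⟨g, hg⟩ : ∃ g : ℝ → ℝ → ℝ → ENNReal, ∀ I J w, g I J w = if I < J then burkeP b I *
      (burkeP a J * (burkeP 1 w * F (I, J, w))) else 0 := ⟨_, fun _ _ _ => rfl⟩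
    simp_rw [← hk] at mk ⊢
    simp_rw [← hg] at mh ⊢
    have point : ∀ x y z : ℝ, k z (y - x + z) x = g x y z := by
      intro x y z
      rw [hk, hg]
      by_cases hxy : x < y
      · rw [if_pos (by linarith : z < y - x + z), if_pos hxy]
        have e1 : x + max (z - (y - x + z)) 0 = x := by
          rw [max_eq_right (by linarith), add_zero]
        have e2 : x + max (y - x + z - z) 0 = y := by
          rw [add_sub_cancel_right, max_eq_left (by linarith)]
          ring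
        have e3 : min z (y - x + z) = z := min_eq_left (by linarith)
        rw [e1, e2, e3]
        rcases lt_or_ge 0 x with hx | hx
        · rcases lt_or_ge 0 z with hz | hz
          · have h1 := dens hxy hx hz b a hb ha (by linarith) (F (x, y, z))
            rw [← mul_left_comm (burkeP a (y - x + z)) (burkeP b z)]
            rw [h1]
            rw [← mul_left_comm (burkeP b x) (burkeP a y)]
          · rw [burkeP_neg hz, burkeP_neg hz]
            simp
        · rw [burkeP_neg hx, burkeP_neg hx]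
          simp
      · rw [if_neg (by linarith : ¬ z < y - x + z), if_neg hxy]
    calc ∫⁻ x, ∫⁻ y, ∫⁻ z, k x y z = ∫⁻ x, ∫⁻ y, ∫⁻ z, k x (y + x) z := by
          refine lintegral_congr fun x => ?_
          exact (lintegral_add_right_eq_self (fun y => ∫⁻ z, k x y z) x).symm
      _ = ∫⁻ x, ∫⁻ z, ∫⁻ y, k x (y + x) z :=
          burke_swap23 (fun x y z => k x (y + x) z)
            (mk.comp (g := fun p : ℝ × ℝ × ℝ => k p.1 p.2.1 p.2.2)
              (f := fun p : ℝ × ℝ × ℝ => (p.1, p.2.1 + p.1, p.2.2)) (by fun_prop))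
      _ = ∫⁻ x, ∫⁻ z, ∫⁻ y, k x (y - z + x) z := by
          refine lintegral_congr fun x => lintegral_congr fun z => ?_
          have := lintegral_add_right_eq_self (μ := (volume : Measure ℝ))
            (fun y : ℝ => k x (y + x) z) (-z)
          simpa only [← sub_eq_add_neg] using this.symm
      _ = ∫⁻ x, ∫⁻ z, ∫⁻ y, g z y x := by
          refine lintegral_congr fun x => lintegral_congr fun z => lintegral_congr fun y => ?_
          exact point z y x
      _ = ∫⁻ z, ∫⁻ x, ∫⁻ y, g z y x :=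
          burke_swap12 (fun x z y => g z y x)
            (mh.comp (g := fun p : ℝ × ℝ × ℝ => g p.1 p.2.1 p.2.2)
              (f := fun p : ℝ × ℝ × ℝ => (p.2.1, p.2.2, p.1)) (by fun_prop))
      _ = ∫⁻ z, ∫⁻ y, ∫⁻ x, g z y x :=
          burke_swap23 (fun z x y => g z y x)
            (mh.comp (g := fun p : ℝ × ℝ × ℝ => g p.1 p.2.1 p.2.2)
              (f := fun p : ℝ × ℝ × ℝ => (p.1, p.2.2, p.2.1)) (by fun_prop))

end Pool.Agent.FX
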