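import Pool.Agent.FX.Fam

/-! # Chernoff bounds -/

open MeasureTheory ProbabilityTheory

namespace Pool.Agent.FX

lemma ch_up {l η : ℝ} (hl : 0 < l) (hη : 0 < η) :
    ∃ θ : ℝ, 0 < θ ∧ θ < l ∧ Real.exp (-(θ * (1 / l + η))) * (l / (l - θ)) < 1 := by
  have hlη : 0 < l * η := mul_pos hl hη
  obtain ⟨t, ht0, ht1, ht2⟩ : ∃ t : ℝ, 0 < t ∧ t ≤ 1 / 2 ∧ t ≤ l * η / 2 :=
    ⟨min (1 / 2) (l * η / 2), lt_min (by norm_num) (by linarith), min_le_left _ _,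
      min_le_right _ _⟩
  refine ⟨t * l, mul_pos ht0 hl, by nlinarith, ?_⟩
  have hx : t * l * (1 / l + η) = t + t * (l * η) := by
    field_simp
  have hx0 : t + t * (l * η) ≠ 0 := by
    have := mul_pos ht0 hlη
    linarith
  have h1t : 0 < 1 - t := by linarith
  have he : l / (l - t * l) = (1 - t)⁻¹ := by
    have h1 : l - t * l = l * (1 - t) := by ring
    rw [h1, div_mul_eq_div_div, div_self hl.ne', one_div]
  have h2 : 1 + (t + t * (l * η)) < Real.exp (t + t * (l * η)) := by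
    have := Real.add_one_lt_exp hx0
    linarith
  have h3 : (1 - t)⁻¹ ≤ 1 + (t + t * (l * η)) := by
    rw [inv_le_iff_one_le_mul₀ h1t]
    nlinarith [mul_pos ht0 hlη, mul_nonneg ht0.le (by linarith : (0 : ℝ) ≤ l * η / 2 - t),
      mul_nonneg (mul_pos ht0 hlη).le (by linarith : (0 : ℝ) ≤ 1 / 2 - t)]
  rw [hx, he, Real.exp_neg, ← mul_inv]
  have h4 : 0 < Real.exp (t + t * (l * η)) := Real.exp_pos _
  rw [mul_inv, inv_mul_lt_iff₀ h4, mul_one]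
  linarith

lemma ch_dn {l η : ℝ} (hl : 0 < l) (hη : 0 < η) :
    ∃ θ : ℝ, 0 < θ ∧ Real.exp (θ * (1 / l - η)) * (l / (l + θ)) < 1 := by
  have hlη : 0 < l * η := mul_pos hl hη
  obtain ⟨t, ht0, ht1, ht2⟩ : ∃ t : ℝ, 0 < t ∧ t ≤ 1 / 2 ∧ t ≤ l * η / 2 :=
    ⟨min (1 / 2) (l * η / 2), lt_min (by norm_num) (by linarith), min_le_left _ _,
      min_le_right _ _⟩
  refine ⟨t * l, mul_pos ht0 hl, ?_⟩
  have hx : t * l * (1 / l - η) = t - t * (l * η) := by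
    field_simp
  have htl : 0 < t * (l * η) := mul_pos ht0 hlη
  have h1t : 0 < 1 + t := by linarith
  have he : l / (l + t * l) = (1 + t)⁻¹ := by
    have h1 : l + t * l = l * (1 + t) := by ring
    rw [h1, div_mul_eq_div_div, div_self hl.ne', one_div]
  have hy : 0 < 1 - (t - t * (l * η)) := by linarith
  have h2 : 1 - (t - t * (l * η)) ≤ Real.exp (-(t - t * (l * η))) := by
    have := Real.add_one_le_exp (-(t - t * (l * η)))
    linarith
  have h4 : 0 < Real.exp (t - t * (l * η)) := Real.exp_pos _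
  rw [hx, he, mul_inv_lt_iff₀ h1t, one_mul]
  rw [Real.exp_neg] at h2
  have h5 : (1 - (t - t * (l * η))) * Real.exp (t - t * (l * η)) ≤ 1 := by
    have := mul_le_mul_of_nonneg_right h2 h4.le
    rwa [inv_mul_cancel₀ h4.ne'] at this
  have h6 : 1 < (1 - (t - t * (l * η))) * (1 + t) := by
    nlinarith [mul_pos ht0 htl, mul_nonneg ht0.le (by linarith : (0 : ℝ) ≤ l * η / 2 - t)]
  by_contra hcon
  rw [not_lt] at hcon
  have h7 := mul_le_mul_of_nonneg_left hcon hy.le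
  linarith

private lemma cher_geo {q C p : ℝ} (hq0 : 0 ≤ q) (hq : q < 1) (hp : 0 < p) :
    ∃ m₀ : ℕ, ∀ m ≥ m₀, q ^ m * C ≤ p := by
  have h1 : Filter.Tendsto (fun m : ℕ => q ^ m * C) Filter.atTop (nhds (0 * C)) :=
    (tendsto_pow_atTop_nhds_zero_of_lt_one hq0 hq).mul_const C
  rw [zero_mul] at h1
  have h2 := h1.eventually (ge_mem_nhds hp)
  exact Filter.eventually_atTop.1 h2

/-- Upper tail (the hypothesis allows for up to `m + 2` terms). -/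
lemma tail_up {l η p : ℝ} (hl : 0 < l) (hη : 0 < η) (hp : 0 < p) : ∃ m₀ : ℕ, ∀ m ≥ m₀,
    ∀ (Ω : Type) [MeasurableSpace Ω] (μ : Measure Ω) (f : Ω → ℝ), Measurable f →
      (∀ θ : ℝ, 0 < θ → θ < l → ∫⁻ ω, ENNReal.ofReal (Real.exp (θ * f ω)) ∂μ ≤
        ENNReal.ofReal ((l / (l - θ)) ^ (m + 2))) →
      μ {ω | (1 / l + η) * m ≤ f ω} ≤ ENNReal.ofReal p := by
  obtain ⟨θ, h0, h1, h2⟩ := ch_up hl hη
  have hc : 0 < l / (l - θ) := div_pos hl (by linarith)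
  obtain ⟨m₀, hm₀⟩ := cher_geo (q := Real.exp (-(θ * (1 / l + η))) * (l / (l - θ)))
    (C := (l / (l - θ)) ^ 2) (mul_nonneg (Real.exp_pos _).le hc.le) h2 hp
  refine ⟨m₀, fun m hm Ω _ μ f hf h => ?_⟩
  refine (chernoff hf h0.le).trans ((mul_le_mul_right (h θ h0 h1) _).trans ?_)
  rw [← ENNReal.ofReal_mul (Real.exp_pos _).le]
  refine ENNReal.ofReal_le_ofReal ?_
  refine le_trans (le_of_eq ?_) (hm₀ m hm)
  rw [mul_pow, ← Real.exp_nat_mul, pow_add]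
  have e : (m : ℝ) * -(θ * (1 / l + η)) = -(θ * ((1 / l + η) * m)) := by ring
  rw [e]
  ring

/-- Lower tail. -/
lemma tail_dn {l η p : ℝ} (hl : 0 < l) (hη : 0 < η) (hp : 0 < p) : ∃ m₀ : ℕ, ∀ m ≥ m₀,
    ∀ (Ω : Type) [MeasurableSpace Ω] (μ : Measure Ω) (f : Ω → ℝ), Measurable f →
      (∀ θ : ℝ, 0 < θ → ∫⁻ ω, ENNReal.ofReal (Real.exp (-(θ * f ω))) ∂μ ≤
        ENNReal.ofReal ((l / (l + θ)) ^ m)) →
      μ {ω | f ω ≤ (1 / l - η) * m} ≤ ENNReal.ofReal p := by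
  obtain ⟨θ, h0, h2⟩ := ch_dn hl hη
  have hc : 0 < l / (l + θ) := div_pos hl (by linarith)
  obtain ⟨m₀, hm₀⟩ := cher_geo (q := Real.exp (θ * (1 / l - η)) * (l / (l + θ)))
    (C := 1) (mul_nonneg (Real.exp_pos _).le hc.le) h2 hp
  refine ⟨m₀, fun m hm Ω _ μ f hf h => ?_⟩
  have h3 : {ω | f ω ≤ (1 / l - η) * m} = {ω | -((1 / l - η) * m) ≤ -f ω} := by
    ext ω
    show f ω ≤ (1 / l - η) * m ↔ -((1 / l - η) * m) ≤ -f ω
    rw [neg_le_neg_iff]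
  have h4 : ∫⁻ ω, ENNReal.ofReal (Real.exp (θ * -f ω)) ∂μ ≤ ENNReal.ofReal ((l / (l + θ)) ^ m) := by
    simp only [mul_neg]
    exact h θ h0
  rw [h3]
  refine (chernoff (f := fun ω => -f ω) hf.neg h0.le).trans ((mul_le_mul_right h4 _).trans ?_)
  rw [← ENNReal.ofReal_mul (Real.exp_pos _).le]
  refine ENNReal.ofReal_le_ofReal ?_
  refine le_trans (le_of_eq ?_) (hm₀ m hm)
  rw [mul_pow, ← Real.exp_nat_mul, mul_one]
  have e : (m : ℝ) * (θ * (1 / l - η)) = -(θ * -((1 / l - η) * m)) := by ring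
  rw [e]

end Pool.Agent.FX
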