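import Pool.Agent.FX.Defs

/-! # Counting paths with few turns -/

open Finset

namespace Pool.Agent.FX

variable {N : ℕ}

open Classical in
/-- The turn indices. -/
private noncomputable def tix (N : ℕ) (v : ℕ → Fin (N + 1) × Fin (N + 1)) : Finset ℕ :=
  (Finset.Ico 1 (2 * N)).filter (fun k => IsTurn N v k)

private lemma tix_card (v : ℕ → Fin (N + 1) × Fin (N + 1)) : (tix N v).card = turns N v := by
  classical
  unfold turns
  rw [← Set.ncard_coe_finset]
  congr 1
  ext k
  simp [tix, and_assoc]

/-- Two steps of the same kind from the same vertex lead to the same vertex. -/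
private lemma step_eq {v v' : ℕ → Fin (N + 1) × Fin (N + 1)} (h : IsPath N v) (h' : IsPath N v')
    {k : ℕ} (hk : k < 2 * N) (e : v k = v' k)
    (hs : (v (k + 1)).1 = (v k).1 ↔ (v' (k + 1)).1 = (v' k).1) : v (k + 1) = v' (k + 1) := by
  have a := h.step k hk
  have a' := h'.step k hk
  rcases a with ⟨a1, a2⟩ | ⟨a1, a2⟩
  · have hne : ¬ (v (k + 1)).1 = (v k).1 := fun hc => by rw [hc] at a1; omega
    rcases a' with ⟨b1, b2⟩ | ⟨b1, b2⟩
    · ext
      · rw [a1, b1, e]
      · rw [a2, b2, e]
    · exact absurd (hs.2 b1) hne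
  · rcases a' with ⟨b1, b2⟩ | ⟨b1, b2⟩
    · have hne : ¬ (v' (k + 1)).1 = (v' k).1 := fun hc => by rw [hc] at b1; omega
      exact absurd (hs.1 a1) hne
    · ext
      · rw [a1, b1, e]
      · rw [a2, b2, e]

private lemma determined {v v' : ℕ → Fin (N + 1) × Fin (N + 1)} (h : IsPath N v)
    (h' : IsPath N v') (h0 : (v 1).1 = (v 0).1 ↔ (v' 1).1 = (v' 0).1)
    (ht : tix N v = tix N v') : ∀ k ≤ 2 * N, v k = v' k := by
  classical
  have key : ∀ k, k < 2 * N → (v k = v' k ∧ ((v (k + 1)).1 = (v k).1 ↔ (v' (k + 1)).1 = (v' k).1)) := by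
    intro k
    induction k with
    | zero =>
      intro _
      exact ⟨by rw [h.start, h'.start], h0⟩
    | succ k ih =>
      intro hk
      obtain ⟨i1, i2⟩ := ih (by omega)
      have e : v (k + 1) = v' (k + 1) := step_eq h h' (by omega) i1 i2
      refine ⟨e, ?_⟩
      have hm : (k + 1) ∈ tix N v ↔ (k + 1) ∈ tix N v' := by rw [ht]
      simp only [tix, Finset.mem_filter, Finset.mem_Ico, IsTurn, Nat.add_sub_cancel] at hm
      have hr : 1 ≤ k + 1 ∧ k + 1 < 2 * N := ⟨by omega, hk⟩
      tauto
  intro k hk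
  rcases Nat.lt_or_ge k (2 * N) with hlt | hge
  · exact (key k hlt).1
  · have : k = 2 * N := le_antisymm hk hge
    rw [this, h.stop, h'.stop]

private lemma sum_choose_le (M m : ℕ) {x : ℝ} (hx : 0 < x) (hx1 : x ≤ 1) :
    (∑ k ∈ Finset.range (m + 1), (M.choose k : ℝ)) ≤ (1 + x) ^ M / x ^ m := by
  rw [le_div_iff₀ (by positivity), Finset.sum_mul]
  have h1 : ∀ k ∈ Finset.range (m + 1), (M.choose k : ℝ) * x ^ m ≤ (M.choose k : ℝ) * x ^ k := by
    intro k hk
    apply mul_le_mul_of_nonneg_left _ (by positivity)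
    exact pow_le_pow_of_le_one hx.le hx1 (by simpa [Nat.lt_succ_iff] using hk)
  refine (Finset.sum_le_sum h1).trans ?_
  have h2 : (1 + x) ^ M = ∑ k ∈ Finset.range (M + 1), (M.choose k : ℝ) * x ^ k := by
    rw [add_comm, add_pow]
    refine Finset.sum_congr rfl fun k _ => ?_
    simp [mul_comm]
  rw [h2]
  have h3 : ∀ n, (∑ k ∈ Finset.range n, (M.choose k : ℝ) * x ^ k) ≤
      ∑ k ∈ Finset.range (M + 1), (M.choose k : ℝ) * x ^ k := by
    intro n
    rcases le_total n (M + 1) with hn | hn
    · exact Finset.sum_le_sum_of_subset_of_nonneg (by simpa using hn) (fun k _ _ => by positivity)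
    · apply le_of_eq
      symm
      apply Finset.sum_subset (by simpa using hn)
      intro k _ hk
      have : M < k := by
        simp only [Finset.mem_range, not_lt] at hk
        omega
      rw [Nat.choose_eq_zero_of_lt this]; simp
  exact h3 _

private lemma powersetCard_count (s : Finset ℕ) (m : ℕ) :
    ((s.powerset.filter (fun t => t.card ≤ m)).card : ℝ) =
      ∑ k ∈ Finset.range (m + 1), (s.card.choose k : ℝ) := by
  classical
  have : s.powerset.filter (fun t => t.card ≤ m) =
      (Finset.range (m + 1)).biUnion (fun k => s.powersetCard k) := by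
    ext t
    simp only [Finset.mem_filter, Finset.mem_powerset, Finset.mem_biUnion, Finset.mem_range,
      Finset.mem_powersetCard]
    constructor
    · rintro ⟨a, b⟩; exact ⟨t.card, by omega, a, rfl⟩
    · rintro ⟨k, hk, a, b⟩; exact ⟨a, by omega⟩
  rw [this, Finset.card_biUnion]
  · push_cast
    refine Finset.sum_congr rfl fun k _ => ?_
    rw [Finset.card_powersetCard]
  · intro a _ b _ hab
    exact Finset.pairwise_disjoint_powersetCard s hab

/-- Number of paths with at most `m` turns. -/
lemma count_le (N m : ℕ) {x : ℝ} (hx : 0 < x) (hx1 : x ≤ 1) :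
    (Set.ncard {S | ∃ v, IsPath N v ∧ turns N v ≤ m ∧ S = trace N v} : ℝ) ≤
      2 * ((1 + x) ^ (2 * N) / x ^ m) := by
  classical
  set A : Set (Finset (Fin (N + 1) × Fin (N + 1))) :=
    {S | ∃ v, IsPath N v ∧ turns N v ≤ m ∧ S = trace N v} with hA
  have hch : ∀ S ∈ A, ∃ v, IsPath N v ∧ turns N v ≤ m ∧ S = trace N v := fun S hS => hS
  choose! f hf using hch
  let B : Finset (Bool × Finset ℕ) :=
    (Finset.univ : Finset Bool) ×ˢ ((Finset.Ico 1 (2 * N)).powerset.filter (fun t => t.card ≤ m))
  let g : Finset (Fin (N + 1) × Fin (N + 1)) → Bool × Finset ℕ := fun S =>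
    (decide ((f S 1).1 = (f S 0).1), tix N (f S))
  have hfin : A.Finite := Set.toFinite A
  have hmaps : ∀ S ∈ A, g S ∈ (B : Set (Bool × Finset ℕ)) := by
    intro S hS
    obtain ⟨h1, h2, h3⟩ := hf S hS
    simp only [B, g, Finset.coe_product, Finset.coe_univ, Set.mem_prod, Set.mem_univ, true_and,
      Finset.coe_filter, Finset.mem_powerset, Set.mem_ofPred_eq]
    refine ⟨Finset.filter_subset _ _, ?_⟩
    rw [tix_card]; exact h2
  have hinj : Set.InjOn g A := by
    intro S hS S' hS' e
    obtain ⟨h1, h2, h3⟩ := hf S hS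
    obtain ⟨h1', h2', h3'⟩ := hf S' hS'
    simp only [g, Prod.mk.injEq, decide_eq_decide] at e
    have hd := determined h1 h1' e.1 e.2
    rw [h3, h3']
    unfold trace
    apply Finset.image_congr
    intro k hk
    exact hd k (by simpa [Nat.lt_succ_iff] using hk)
  have hle : A.ncard ≤ B.card := by
    have := Set.ncard_le_ncard_of_injOn g hmaps hinj (Finset.finite_toSet B)
    rwa [Set.ncard_coe_finset] at this
  have hB : (B.card : ℝ) = 2 * ∑ k ∈ Finset.range (m + 1), ((2 * N - 1).choose k : ℝ) := by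
    rw [Finset.card_product]
    push_cast
    rw [powersetCard_count]
    simp
  calc (A.ncard : ℝ) ≤ B.card := by exact_mod_cast hle
    _ = 2 * ∑ k ∈ Finset.range (m + 1), ((2 * N - 1).choose k : ℝ) := hB
    _ ≤ 2 * ((1 + x) ^ (2 * N - 1) / x ^ m) :=
        mul_le_mul_of_nonneg_left (sum_choose_le _ _ hx hx1) (by norm_num)
    _ ≤ _ := by
        apply mul_le_mul_of_nonneg_left _ (by norm_num)
        apply div_le_div_of_nonneg_right _ (by positivity)
        exact pow_le_pow_right₀ (by linarith) (by omega)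

end Pool.Agent.FX
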