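import Mathlib

/-! # MP_f13560: exponential last passage percolation on a square, definitions -/

open MeasureTheory ProbabilityTheory

namespace Pool.Agent.FX

/-- Environments on the square `{0, …, N}²` (this is the problem's `[1,n]²` with `n = N + 1`,
coordinates shifted by one). -/
abbrev Env (N : ℕ) := Fin (N + 1) × Fin (N + 1) → ℝ

/-- The law under which the weights are independent exponential variables with mean one. -/
noncomputable def law (N : ℕ) : Measure (Env N) := Measure.pi fun _ => expMeasure 1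

/-- `v 0, v 1, …, v (2 N)` is an up-right path from `(0,0)` to `(N,N)`
(the values `v k`, `k > 2 N`, play no role). -/
structure IsPath (N : ℕ) (v : ℕ → Fin (N + 1) × Fin (N + 1)) : Prop where
  start : v 0 = (0, 0)
  stop : v (2 * N) = (Fin.last N, Fin.last N)
  step : ∀ k < 2 * N,
    ((v (k + 1)).1.val = (v k).1.val + 1 ∧ (v (k + 1)).2 = (v k).2) ∨
    ((v (k + 1)).1 = (v k).1 ∧ (v (k + 1)).2.val = (v k).2.val + 1)

/-- The length of the path `v` in the environment `ω`. -/
noncomputable def len (N : ℕ) (v : ℕ → Fin (N + 1) × Fin (N + 1)) (ω : Env N) : ℝ :=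
  ∑ k ∈ Finset.range (2 * N + 1), ω (v k)

/-- The set of nonnegative environments in which `v` is a longest path. -/
def cone (N : ℕ) (v : ℕ → Fin (N + 1) × Fin (N + 1)) : Set (Env N) :=
  {ω | (∀ c, 0 ≤ ω c) ∧ ∀ v', IsPath N v' → len N v' ω ≤ len N v ω}

/-- The corner path: first up along the left column, then across along the top row. -/
def corner (N : ℕ) (k : ℕ) : Fin (N + 1) × Fin (N + 1) :=
  (⟨min (k - N) N, by omega⟩, ⟨min k N, by omega⟩)

/-- `k` is a turn of the path `v`: exactly one of the two steps at `v k` is a step up. -/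
def IsTurn (N : ℕ) (v : ℕ → Fin (N + 1) × Fin (N + 1)) (k : ℕ) : Prop :=
  ¬ ((v k).1 = (v (k - 1)).1 ↔ (v (k + 1)).1 = (v k).1)

/-- The number of turns of the path `v`. -/
noncomputable def turns (N : ℕ) (v : ℕ → Fin (N + 1) × Fin (N + 1)) : ℕ :=
  Set.ncard {k | 1 ≤ k ∧ k < 2 * N ∧ IsTurn N v k}

/-- The set of vertices of the path `v`. -/
def trace (N : ℕ) (v : ℕ → Fin (N + 1) × Fin (N + 1)) : Finset (Fin (N + 1) × Fin (N + 1)) :=
  (Finset.range (2 * N + 1)).image v

/-! ### Tools -/

/-- Last passage time from `(0,0)` to `(i,j)`, by recursion. -/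
noncomputable def lpp (w : ℕ × ℕ → ℝ) : ℕ → ℕ → ℝ
  | 0, 0 => w (0, 0)
  | 0, j + 1 => lpp w 0 j + w (0, j + 1)
  | i + 1, 0 => lpp w i 0 + w (i + 1, 0)
  | i + 1, j + 1 => max (lpp w i (j + 1)) (lpp w (i + 1) j) + w (i + 1, j + 1)

/-- `X` is a family of independent exponential variables with rates `r`. -/
structure ExpFam {Ω : Type} [MeasurableSpace Ω] (μ : Measure Ω) (X : ℕ × ℕ → Ω → ℝ)
    (r : ℕ × ℕ → ℝ) : Prop where
  meas : ∀ c, Measurable (X c)
  indep : iIndepFun X μ
  law : ∀ c, μ.map (X c) = expMeasure (r c)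
  rate : ∀ c, 0 < r c

/-- Rates of the stationary model: `a` in column `0`, `b` in row `0`, one elsewhere. -/
noncomputable def statRate (a b : ℝ) : ℕ × ℕ → ℝ := fun c => if c.1 = 0 then a else if c.2 = 0 then b else 1

/-- An environment on the square, extended by zero to `ℕ × ℕ`. -/
noncomputable def ext {N : ℕ} (ω : Env N) : ℕ × ℕ → ℝ := fun c =>
  if h : c.1 < N + 1 ∧ c.2 < N + 1 then ω (⟨c.1, h.1⟩, ⟨c.2, h.2⟩) else 0

/-- Restriction of a field on `ℕ × ℕ` to the square. -/
def res (N : ℕ) (w : ℕ × ℕ → ℝ) : Env N := fun c => w (c.1.val, c.2.val)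

/-- The rate `κ = 2 - 2 log 2`. -/
noncomputable def kap : ℝ := 2 - 2 * Real.log 2

end Pool.Agent.FX
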