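import Pool.Agent.FX.Lpp

/-! # Deterministic comparison lemmas -/

namespace Pool.Agent.FX

private lemma det_aux {w w' : ℕ × ℕ → ℝ} (x y : ℕ) (h0 : ∀ j ≤ y, w (0, j) = w' (0, j))
    (h1 : ∀ i, 1 ≤ i → i ≤ x → w (i, 0) ≤ w' (i, 0))
    (h2 : ∀ i j, 1 ≤ i → 1 ≤ j → i ≤ x → j ≤ y → w (i, j) = w' (i, j)) :
    ∀ j ≤ y, ∀ i < x, lpp w (i + 1) j - lpp w i j ≤ lpp w' (i + 1) j - lpp w' i j := by
  intro j
  induction j with
  | zero =>
    intro _ i hi
    have := h1 (i + 1) (by omega) (by omega)
    simp only [lpp]
    linarith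
  | succ j ih =>
    intro hj
    have ih' := ih (by omega)
    have hJ : ∀ i ≤ x, lpp w' i (j + 1) - lpp w' i j ≤ lpp w i (j + 1) - lpp w i j := by
      intro i
      induction i with
      | zero =>
        intro _
        have := h0 (j + 1) hj
        simp only [lpp]
        linarith
      | succ i ihi =>
        intro hi
        have a1 := ihi (by omega)
        have a2 := ih' i (by omega)
        have a3 := h2 (i + 1) (j + 1) (by omega) (by omega) hi hj
        simp only [lpp]
        rcases max_cases (lpp w' i (j + 1)) (lpp w' (i + 1) j) with ⟨e, _⟩ | ⟨e, _⟩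
        · have b1 := le_max_left (lpp w i (j + 1)) (lpp w (i + 1) j)
          rw [e]
          linarith
        · have b1 := le_max_right (lpp w i (j + 1)) (lpp w (i + 1) j)
          rw [e]
          linarith
    intro i hi
    have a1 := hJ i (by omega)
    have a2 := ih' i hi
    have a3 := h2 (i + 1) (j + 1) (by omega) (by omega) (by omega) hj
    simp only [lpp]
    rcases max_cases (lpp w i (j + 1)) (lpp w (i + 1) j) with ⟨e, _⟩ | ⟨e, _⟩
    · have b1 := le_max_left (lpp w' i (j + 1)) (lpp w' (i + 1) j)
      rw [e]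
      linarith
    · have b1 := le_max_right (lpp w' i (j + 1)) (lpp w' (i + 1) j)
      rw [e]
      linarith

/-- Larger weights on the bottom row: larger horizontal increments. -/
lemma compare {w w' : ℕ × ℕ → ℝ} (x y : ℕ) (h0 : ∀ j ≤ y, w (0, j) = w' (0, j))
    (h1 : ∀ i, 1 ≤ i → i ≤ x → w (i, 0) ≤ w' (i, 0))
    (h2 : ∀ i j, 1 ≤ i → 1 ≤ j → i ≤ x → j ≤ y → w (i, j) = w' (i, j)) :
    lpp w x y - lpp w 0 y ≤ lpp w' x y - lpp w' 0 y := by
  have key := det_aux x y h0 h1 h2 y le_rfl
  have : ∀ i ≤ x, lpp w i y - lpp w 0 y ≤ lpp w' i y - lpp w' 0 y := by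
    intro i
    induction i with
    | zero => intro _; linarith
    | succ i ih =>
      intro hi
      have a1 := ih (by omega)
      have a2 := key i (by omega)
      linarith
  exact this x le_rfl

/-- Boundary weights scaled: row `0` by `1/(1-2s)`, column `0` by `1/(1+2s)`. -/
noncomputable def bdP (s : ℝ) : ℕ × ℕ → ℝ := fun c =>
  if c.1 = 0 then 1 / (1 + 2 * s) else if c.2 = 0 then 1 / (1 - 2 * s) else 1

/-- Boundary weights scaled: row `0` by `1/(1+2s)`, column `0` by `1/(1-2s)`. -/
noncomputable def bdM (s : ℝ) : ℕ × ℕ → ℝ := fun c =>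
  if c.1 = 0 then 1 / (1 - 2 * s) else if c.2 = 0 then 1 / (1 + 2 * s) else 1

/-- The interior passage time, zero on the boundary. -/
private noncomputable def detG (u : ℕ × ℕ → ℝ) : ℕ → ℕ → ℝ
  | 0, _ => 0
  | _ + 1, 0 => 0
  | i + 1, j + 1 => lpp u i j

private lemma detG_left {u : ℕ × ℕ → ℝ} (hu : ∀ c, 0 ≤ u c) (i j : ℕ) :
    detG u i (j + 1) + u (i, j) ≤ lpp u i j := by
  cases i with
  | zero =>
    cases j with
    | zero => simp [detG, lpp]
    | succ j =>
      have := lpp_nonneg hu 0 j
      simp only [detG, lpp]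
      linarith
  | succ i =>
    cases j with
    | zero => simp [detG, lpp]
    | succ j =>
      have := le_max_left (lpp u i (j + 1)) (lpp u (i + 1) j)
      simp only [detG, lpp]
      linarith

private lemma detG_right {u : ℕ × ℕ → ℝ} (hu : ∀ c, 0 ≤ u c) (i j : ℕ) :
    detG u (i + 1) j + u (i, j) ≤ lpp u i j := by
  cases j with
  | zero =>
    cases i with
    | zero => simp [detG, lpp]
    | succ i =>
      have := lpp_nonneg hu i 0
      simp only [detG, lpp]
      linarith
  | succ j =>
    cases i with
    | zero => simp [detG, lpp]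
    | succ i =>
      have := le_max_right (lpp u i (j + 1)) (lpp u (i + 1) j)
      simp only [detG, lpp]
      linarith

private lemma det_row (w : ℕ × ℕ → ℝ) (i : ℕ) :
    lpp w i 0 = w (0, 0) + ∑ a ∈ Finset.Icc 1 i, w (a, 0) := by
  induction i with
  | zero => simp [lpp]
  | succ i ih =>
    rw [Finset.sum_Icc_succ_top (by omega)]
    simp only [lpp]
    rw [ih]
    ring

private lemma det_col (w : ℕ × ℕ → ℝ) (j : ℕ) :
    lpp w 0 j = w (0, 0) + ∑ b ∈ Finset.Icc 1 j, w (0, b) := by
  induction j with
  | zero => simp [lpp]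
  | succ j ih =>
    rw [Finset.sum_Icc_succ_top (by omega)]
    simp only [lpp]
    rw [ih]
    ring

private lemma det_bd {f : ℕ → ℝ} (hf : ∀ a, 0 ≤ f a) {s : ℝ} (hs : 0 < s) (hs' : s < 1 / 2)
    {k i : ℕ} (hk : k < i) :
    ∑ a ∈ Finset.Icc 1 i, f a ≤
      ∑ a ∈ Finset.Icc 1 i, 1 / (1 - 2 * s) * f a
        - 2 * s / (1 - 2 * s) * ∑ a ∈ Finset.Icc 1 k, f a := by
  have h1 : ∑ a ∈ Finset.Icc 1 k, f a ≤ ∑ a ∈ Finset.Icc 1 i, f a :=
    Finset.sum_le_sum_of_subset_of_nonneg (Finset.Icc_subset_Icc_right hk.le)
      (fun a _ _ => hf a)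
  have h2 : (0 : ℝ) < 1 - 2 * s := by linarith
  rw [← Finset.mul_sum]
  set A := ∑ a ∈ Finset.Icc 1 i, f a
  set B := ∑ a ∈ Finset.Icc 1 k, f a
  have h3 : 1 / (1 - 2 * s) * A - 2 * s / (1 - 2 * s) * B - A
      = 2 * s / (1 - 2 * s) * (A - B) := by
    field_simp
    ring
  have h4 : 0 ≤ 2 * s / (1 - 2 * s) * (A - B) :=
    mul_nonneg (div_nonneg (by linarith) h2.le) (by linarith)
  linarith

/-- The exit point lemma. -/
lemma exit_le {w : ℕ × ℕ → ℝ} (h : ∀ c, 0 ≤ w c) {s : ℝ} (hs : 0 < s) (hs' : s < 1 / 2) (k m : ℕ) :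
    lpp w (m + 1) (m + 1) ≤ w (0, 0) +
      max (lpp (fun c => w (c.1 + 1, c.2 + 1)) m m +
            max (∑ i ∈ Finset.Icc 1 k, w (i, 0)) (∑ j ∈ Finset.Icc 1 k, w (0, j)))
        (max (lpp (fun c => bdP s c * w c) (m + 1) (m + 1)
              - 2 * s / (1 - 2 * s) * ∑ i ∈ Finset.Icc 1 k, w (i, 0))
            (lpp (fun c => bdM s c * w c) (m + 1) (m + 1)
              - 2 * s / (1 - 2 * s) * ∑ j ∈ Finset.Icc 1 k, w (0, j))) := by
  set SH := ∑ i ∈ Finset.Icc 1 k, w (i, 0) with hSH
  set SV := ∑ j ∈ Finset.Icc 1 k, w (0, j) with hSV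
  set u : ℕ × ℕ → ℝ := fun c => w (c.1 + 1, c.2 + 1) with hu
  set q := 2 * s / (1 - 2 * s) with hq
  have hun : ∀ c, 0 ≤ u c := fun c => h _
  have hSH0 : 0 ≤ SH := Finset.sum_nonneg fun i _ => h _
  have hSV0 : 0 ≤ SV := Finset.sum_nonneg fun i _ => h _
  have h12 : (0 : ℝ) < 1 - 2 * s := by linarith
  have key : ∀ i j, lpp w i j ≤ w (0, 0) + max (detG u i j + max SH SV)
      (max (lpp (fun c => bdP s c * w c) i j - q * SH)
        (lpp (fun c => bdM s c * w c) i j - q * SV)) := by
    intro i
    induction i with
    | zero =>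
      intro j
      rw [det_col w j]
      by_cases hj : j ≤ k
      · have a1 : ∑ b ∈ Finset.Icc 1 j, w (0, b) ≤ SV :=
          Finset.sum_le_sum_of_subset_of_nonneg (Finset.Icc_subset_Icc_right hj)
            (fun a _ _ => h _)
        have a2 : detG u 0 j = 0 := by simp [detG]
        have a3 := le_max_right SH SV
        have a4 := le_max_left (detG u 0 j + max SH SV)
          (max (lpp (fun c => bdP s c * w c) 0 j - q * SH)
            (lpp (fun c => bdM s c * w c) 0 j - q * SV))
        linarith
      · have hj' : k < j := not_le.mp hj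
        have b1 : lpp (fun c => bdM s c * w c) 0 j
            = 1 / (1 - 2 * s) * w (0, 0) + ∑ b ∈ Finset.Icc 1 j, 1 / (1 - 2 * s) * w (0, b) := by
          rw [det_col]
          simp [bdM]
        have b2 := det_bd (f := fun b => w (0, b)) (fun b => h _) hs hs' hj'
        have b3 : 0 ≤ 1 / (1 - 2 * s) * w (0, 0) :=
          mul_nonneg (one_div_nonneg.mpr h12.le) (h _)
        have b4 := le_max_right (detG u 0 j + max SH SV)
          (max (lpp (fun c => bdP s c * w c) 0 j - q * SH)
            (lpp (fun c => bdM s c * w c) 0 j - q * SV))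
        have b5 := le_max_right (lpp (fun c => bdP s c * w c) 0 j - q * SH)
            (lpp (fun c => bdM s c * w c) 0 j - q * SV)
        linarith
    | succ i ihi =>
      intro j
      induction j with
      | zero =>
        rw [det_row w (i + 1)]
        by_cases hi : i + 1 ≤ k
        · have a1 : ∑ b ∈ Finset.Icc 1 (i + 1), w (b, 0) ≤ SH :=
            Finset.sum_le_sum_of_subset_of_nonneg (Finset.Icc_subset_Icc_right hi)
              (fun a _ _ => h _)
          have a2 : detG u (i + 1) 0 = 0 := by simp [detG]
          have a3 := le_max_left SH SV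
          have a4 := le_max_left (detG u (i + 1) 0 + max SH SV)
            (max (lpp (fun c => bdP s c * w c) (i + 1) 0 - q * SH)
              (lpp (fun c => bdM s c * w c) (i + 1) 0 - q * SV))
          linarith
        · have hi' : k < i + 1 := not_le.mp hi
          have b1 : lpp (fun c => bdP s c * w c) (i + 1) 0
              = 1 / (1 + 2 * s) * w (0, 0)
                + ∑ b ∈ Finset.Icc 1 (i + 1), 1 / (1 - 2 * s) * w (b, 0) := by
            rw [det_row]
            congr 1
            refine Finset.sum_congr rfl fun b hb => ?_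
            have hb' : b ≠ 0 := by
              have := (Finset.mem_Icc.mp hb).1
              omega
            simp [bdP, hb']
          have b2 := det_bd (f := fun b => w (b, 0)) (fun b => h _) hs hs' hi'
          have b3 : 0 ≤ 1 / (1 + 2 * s) * w (0, 0) :=
            mul_nonneg (one_div_nonneg.mpr (by linarith)) (h _)
          have b4 := le_max_right (detG u (i + 1) 0 + max SH SV)
            (max (lpp (fun c => bdP s c * w c) (i + 1) 0 - q * SH)
              (lpp (fun c => bdM s c * w c) (i + 1) 0 - q * SV))
          have b5 := le_max_left (lpp (fun c => bdP s c * w c) (i + 1) 0 - q * SH)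
              (lpp (fun c => bdM s c * w c) (i + 1) 0 - q * SV)
          linarith
      | succ j ihj =>
        have p1 := ihi (j + 1)
        have p2 := ihj
        have eP : bdP s (i + 1, j + 1) = 1 := by simp [bdP]
        have eM : bdM s (i + 1, j + 1) = 1 := by simp [bdM]
        have wu : u (i, j) = w (i + 1, j + 1) := rfl
        have c1 := detG_left hun i j
        have c2 := detG_right hun i j
        have gG : detG u (i + 1) (j + 1) = lpp u i j := by simp [detG]
        have gP : lpp (fun c => bdP s c * w c) (i + 1) (j + 1)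
            = max (lpp (fun c => bdP s c * w c) i (j + 1))
                (lpp (fun c => bdP s c * w c) (i + 1) j) + w (i + 1, j + 1) := by
          rw [lpp]
          simp [eP]
        have gM : lpp (fun c => bdM s c * w c) (i + 1) (j + 1)
            = max (lpp (fun c => bdM s c * w c) i (j + 1))
                (lpp (fun c => bdM s c * w c) (i + 1) j) + w (i + 1, j + 1) := by
          rw [lpp]
          simp [eM]
        have gw : lpp w (i + 1) (j + 1)
            = max (lpp w i (j + 1)) (lpp w (i + 1) j) + w (i + 1, j + 1) := by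
          rw [lpp]
        have d1 : lpp w i (j + 1) + w (i + 1, j + 1) ≤ w (0, 0) +
            max (detG u (i + 1) (j + 1) + max SH SV)
              (max (lpp (fun c => bdP s c * w c) (i + 1) (j + 1) - q * SH)
                (lpp (fun c => bdM s c * w c) (i + 1) (j + 1) - q * SV)) := by
          refine (add_le_add_left p1 (w (i + 1, j + 1))).trans ?_
          rw [add_assoc, ← max_add_add_right, ← max_add_add_right]
          refine add_le_add_right (max_le_max ?_ (max_le_max ?_ ?_)) _
          · rw [gG]; linarith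
          · have := le_max_left (lpp (fun c => bdP s c * w c) i (j + 1))
                (lpp (fun c => bdP s c * w c) (i + 1) j)
            rw [gP]; linarith
          · have := le_max_left (lpp (fun c => bdM s c * w c) i (j + 1))
                (lpp (fun c => bdM s c * w c) (i + 1) j)
            rw [gM]; linarith
        have d2 : lpp w (i + 1) j + w (i + 1, j + 1) ≤ w (0, 0) +
            max (detG u (i + 1) (j + 1) + max SH SV)
              (max (lpp (fun c => bdP s c * w c) (i + 1) (j + 1) - q * SH)
                (lpp (fun c => bdM s c * w c) (i + 1) (j + 1) - q * SV)) := by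
          refine (add_le_add_left p2 (w (i + 1, j + 1))).trans ?_
          rw [add_assoc, ← max_add_add_right, ← max_add_add_right]
          refine add_le_add_right (max_le_max ?_ (max_le_max ?_ ?_)) _
          · rw [gG]; linarith
          · have := le_max_right (lpp (fun c => bdP s c * w c) i (j + 1))
                (lpp (fun c => bdP s c * w c) (i + 1) j)
            rw [gP]; linarith
          · have := le_max_right (lpp (fun c => bdM s c * w c) i (j + 1))
                (lpp (fun c => bdM s c * w c) (i + 1) j)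
            rw [gM]; linarith
        rw [gw, ← max_add_add_right]
        exact max_le d1 d2
  have := key (m + 1) (m + 1)
  simpa only [detG] using this

end Pool.Agent.FX
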