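import Pool.Agent.FX.Defs

/-! # Exponential measures -/

open MeasureTheory ProbabilityTheory

namespace Pool.Agent.FX

/-- Integration against an exponential measure. -/
lemma E_int {r : ℝ} (hr : 0 < r) {f : ℝ → ENNReal} (hf : Measurable f) :
    ∫⁻ x, f x ∂(expMeasure r) =
      ∫⁻ x in Set.Ioi (0 : ℝ), ENNReal.ofReal (r * Real.exp (-(r * x))) * f x := by
  have hm : Measurable (gammaPDF 1 r) := (measurable_gammaPDFReal 1 r).ennreal_ofReal
  unfold expMeasure gammaMeasure
  rw [lintegral_withDensity_eq_lintegral_mul _ hm hf]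
  have h1 : ∀ x, (gammaPDF 1 r * f) x =
      (Set.Ici (0 : ℝ)).indicator (fun x => ENNReal.ofReal (r * Real.exp (-(r * x))) * f x) x := by
    intro x
    rw [Pi.mul_apply]
    change exponentialPDF r x * f x = _
    rw [exponentialPDF_eq]
    by_cases hx : 0 ≤ x
    · rw [if_pos hx, Set.indicator_of_mem (show x ∈ Set.Ici (0 : ℝ) from hx)]
    · rw [if_neg hx, Set.indicator_of_notMem (show x ∉ Set.Ici (0 : ℝ) from hx)]
      simp
  rw [lintegral_congr h1, lintegral_indicator measurableSet_Ici]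
  exact (setLIntegral_congr Ioi_ae_eq_Ici).symm

/-- Moment generating function. -/
lemma E_mgf {r θ : ℝ} (hr : 0 < r) (h : θ < r) :
    ∫⁻ x, ENNReal.ofReal (Real.exp (θ * x)) ∂(expMeasure r) = ENNReal.ofReal (r / (r - θ)) := by
  rw [E_int hr (by fun_prop)]
  have h1 : ∀ x : ℝ, ENNReal.ofReal (r * Real.exp (-(r * x))) * ENNReal.ofReal (Real.exp (θ * x)) =
      ENNReal.ofReal (r * Real.exp ((θ - r) * x)) := by
    intro x
    rw [← ENNReal.ofReal_mul (by positivity), mul_assoc, ← Real.exp_add]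
    congr 3
    ring
  simp_rw [h1]
  have hne : θ - r < 0 := by linarith
  rw [← ofReal_integral_eq_lintegral_ofReal]
  · congr 1
    rw [integral_const_mul, integral_exp_mul_Ioi hne 0, mul_zero, Real.exp_zero]
    have h2 : θ - r ≠ 0 := hne.ne
    have h3 : r - θ ≠ 0 := by
      intro h4
      apply h2
      linarith
    rw [mul_div_assoc', div_eq_div_iff h2 h3]
    ring
  · exact (integrableOn_exp_mul_Ioi hne 0).const_mul r
  · exact ae_of_all _ fun x => by positivity

private lemma Expo_iic {r : ℝ} (hr : 0 < r) (x : ℝ) :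
    expMeasure r (Set.Iic x) = ENNReal.ofReal (if 0 ≤ x then 1 - Real.exp (-(r * x)) else 0) := by
  rw [← lintegral_exponentialPDF_eq_antiDeriv hr x]
  unfold expMeasure gammaMeasure
  rw [withDensity_apply _ measurableSet_Iic]
  rfl

/-- Scaling. -/
lemma E_scale {r c : ℝ} (hr : 0 < r) (hc : 0 < c) :
    (expMeasure r).map (fun x => c * x) = expMeasure (r / c) := by
  have hrc : 0 < r / c := div_pos hr hc
  haveI := isProbabilityMeasure_expMeasure hr
  haveI := isProbabilityMeasure_expMeasure hrc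
  haveI : IsProbabilityMeasure ((expMeasure r).map (fun x => c * x)) :=
    Measure.isProbabilityMeasure_map (by fun_prop)
  refine Measure.ext_of_Iic _ _ fun a => ?_
  rw [Measure.map_apply (by fun_prop) measurableSet_Iic, Expo_iic hrc]
  have h1 : (fun x => c * x) ⁻¹' Set.Iic a = Set.Iic (a / c) := by
    ext x
    simp only [Set.mem_preimage, Set.mem_Iic]
    rw [le_div_iff₀ hc, mul_comm]
  rw [h1, Expo_iic hr]
  have h2 : (0 ≤ a / c) ↔ (0 ≤ a) := by
    constructor
    · intro h
      have := mul_nonneg h hc.le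
      rwa [div_mul_cancel₀ _ hc.ne'] at this
    · intro h
      exact div_nonneg h hc.le
  have h3 : r * (a / c) = r / c * a := by ring
  simp only [h2, h3]

/-- Tail. -/
lemma E_tail {s : ℝ} (hs : 0 ≤ s) :
    expMeasure 1 {x | s ≤ x} = ENNReal.ofReal (Real.exp (-s)) := by
  have h0 : {x : ℝ | s ≤ x} = Set.Ici s := rfl
  rw [h0]
  unfold expMeasure gammaMeasure
  rw [withDensity_apply _ measurableSet_Ici]
  have h1 : ∫⁻ x in Set.Ici s, gammaPDF 1 1 x =
      ∫⁻ x in Set.Ici s, ENNReal.ofReal (Real.exp ((-1) * x)) := by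
    refine setLIntegral_congr_fun measurableSet_Ici fun x hx => ?_
    change exponentialPDF 1 x = _
    rw [exponentialPDF_of_nonneg (hs.trans hx)]
    congr 1
    rw [one_mul, one_mul]
    congr 1
    ring
  rw [h1, ← setLIntegral_congr Ioi_ae_eq_Ici, ← ofReal_integral_eq_lintegral_ofReal]
  · congr 1
    rw [integral_exp_mul_Ioi (by norm_num) s]
    norm_num
  · exact integrableOn_exp_mul_Ioi (by norm_num) s
  · exact ae_of_all _ fun x => by positivity

lemma E_pos {r : ℝ} (hr : 0 < r) : ∀ᵐ x ∂(expMeasure r), 0 < x := by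
  rw [ae_iff]
  have h0 : {x : ℝ | ¬ 0 < x} = Set.Iic 0 := by
    ext x
    simp
  rw [h0, Expo_iic hr]
  simp

end Pool.Agent.FX
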