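import Pool.Agent.FX.Expo

/-! # Exponential measures: two integrals -/

open MeasureTheory ProbabilityTheory

namespace Pool.Agent.FX

/-- the distribution function of `Exp(1)` -/
private lemma Expo2_cdf (x : ℝ) :
    expMeasure 1 (Set.Iic x) = ENNReal.ofReal (if 0 ≤ x then 1 - Real.exp (-x) else 0) := by
  haveI := isProbabilityMeasure_expMeasure (r := 1) one_pos
  rw [← ofReal_cdf, cdf_expMeasure_eq one_pos, one_mul]

/-- The price of a turn: `E[e^{x/2}; y ≤ x] = 4/3`. -/
lemma E_turn : ∫⁻ x, ∫⁻ y, (if y ≤ x then ENNReal.ofReal (Real.exp (x / 2)) else 0)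
    ∂(expMeasure 1) ∂(expMeasure 1) = ENNReal.ofReal (4 / 3) := by
  have h1 : ∀ x : ℝ, ∫⁻ y, (if y ≤ x then ENNReal.ofReal (Real.exp (x / 2)) else 0)
      ∂(expMeasure 1) = ENNReal.ofReal (Real.exp (1 / 2 * x)) -
        ENNReal.ofReal (Real.exp (-(1 / 2) * x)) := by
    intro x
    have h2 : (fun y => if y ≤ x then ENNReal.ofReal (Real.exp (x / 2)) else 0) =
        (Set.Iic x).indicator (fun _ => ENNReal.ofReal (Real.exp (x / 2))) := by
      funext y
      simp [Set.indicator_apply, Set.mem_Iic]
    rw [h2, lintegral_indicator measurableSet_Iic, setLIntegral_const, Expo2_cdf]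
    by_cases hx : 0 ≤ x
    · rw [if_pos hx, ← ENNReal.ofReal_mul (Real.exp_pos _).le,
        ← ENNReal.ofReal_sub _ (Real.exp_pos _).le]
      congr 1
      rw [mul_sub, mul_one, ← Real.exp_add]
      have e1 : x / 2 = 1 / 2 * x := by ring
      have e2 : x / 2 + -x = -(1 / 2) * x := by ring
      rw [e2, e1]
    · rw [if_neg hx, ENNReal.ofReal_zero, mul_zero, eq_comm, tsub_eq_zero_iff_le]
      apply ENNReal.ofReal_le_ofReal
      apply Real.exp_le_exp.mpr
      linarith
  simp_rw [h1]
  rw [lintegral_sub (by fun_prop) ?_ ?_, E_mgf one_pos (by norm_num), E_mgf one_pos (by norm_num),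
    ← ENNReal.ofReal_sub _ (by norm_num)]
  · norm_num
  · rw [E_mgf one_pos (by norm_num)]
    exact ENNReal.ofReal_ne_top
  · filter_upwards [E_pos one_pos] with x hx
    apply ENNReal.ofReal_le_ofReal
    apply Real.exp_le_exp.mpr
    linarith

/-- Density of `Exp(1)` with respect to `Exp(1/2)`. -/
lemma E_dens : expMeasure 1 =
    (expMeasure (1 / 2)).withDensity (fun x => ENNReal.ofReal (2 * Real.exp (-(x / 2)))) := by
  have h1 : ∀ r : ℝ, expMeasure r = volume.withDensity (exponentialPDF r) := fun r => rfl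
  have h2 : Measurable (exponentialPDF (1 / 2)) :=
    (measurable_exponentialPDFReal (1 / 2)).ennreal_ofReal
  rw [h1, h1, ← withDensity_mul _ h2 (by fun_prop)]
  congr 1
  funext x
  rw [Pi.mul_apply]
  by_cases hx : 0 ≤ x
  · rw [exponentialPDF_of_nonneg hx, exponentialPDF_of_nonneg hx,
      ← ENNReal.ofReal_mul (by positivity)]
    congr 1
    have e1 : 1 / 2 * Real.exp (-(1 / 2 * x)) * (2 * Real.exp (-(x / 2))) =
        Real.exp (-(1 / 2 * x)) * Real.exp (-(x / 2)) := by ring
    rw [e1, ← Real.exp_add, one_mul, one_mul]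
    congr 1
    ring
  · rw [exponentialPDF_of_neg (not_le.mp hx), exponentialPDF_of_neg (not_le.mp hx), zero_mul]

/-- Change of measure on a finite product: rates `1/2` on `S`, `1` elsewhere, against rates `1`. -/
lemma change {ι : Type} [Fintype ι] [DecidableEq ι] (S : Finset ι) (T : ℝ) (A : Set (ι → ℝ))
    (hA : MeasurableSet A) (hT : ∀ ω ∈ A, ∑ c ∈ S, ω c ≤ T) :
    ENNReal.ofReal (2 ^ S.card * Real.exp (-(T / 2))) *
        Measure.pi (fun c => expMeasure (if c ∈ S then 1 / 2 else 1)) A
      ≤ Measure.pi (fun _ : ι => expMeasure 1) A := by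
  classical
  set ν : ι → Measure ℝ := fun c => expMeasure (if c ∈ S then 1 / 2 else 1) with hν
  haveI : ∀ c, IsProbabilityMeasure (ν c) := fun c =>
    isProbabilityMeasure_expMeasure (by split_ifs <;> norm_num)
  haveI : IsProbabilityMeasure (expMeasure 1) := isProbabilityMeasure_expMeasure one_pos
  set f : ι → ℝ → ENNReal := fun c x =>
    if c ∈ S then ENNReal.ofReal (2 * Real.exp (-(x / 2))) else 1 with hf
  have hfm : ∀ c, Measurable (f c) := by
    intro c
    by_cases hc : c ∈ S
    · simp only [hf, if_pos hc]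
      fun_prop
    · simp only [hf, if_neg hc]
      exact measurable_const
  have hdens : ∀ c, expMeasure 1 = (ν c).withDensity (f c) := by
    intro c
    by_cases hc : c ∈ S
    · simp only [hν, hf, if_pos hc]
      exact E_dens
    · simp only [hν, hf, if_neg hc]
      exact withDensity_one.symm
  have hpi : Measure.pi (fun _ : ι => expMeasure 1) =
      (Measure.pi ν).withDensity (fun w => ∏ c, f c (w c)) := by
    refine Measure.pi_eq fun s hs => ?_
    rw [withDensity_apply _ (MeasurableSet.univ_pi hs),
      ← lintegral_indicator (MeasurableSet.univ_pi hs)]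
    have h1 : (Set.univ.pi s).indicator (fun w : ι → ℝ => ∏ c, f c (w c)) =
        fun w => ∏ c, (s c).indicator (f c) (w c) := by
      funext w
      by_cases hw : w ∈ Set.univ.pi s
      · rw [Set.indicator_of_mem hw]
        exact Finset.prod_congr rfl fun c _ => (Set.indicator_of_mem (hw c trivial) _).symm
      · rw [Set.indicator_of_notMem hw]
        have h2 : ∃ c, w c ∉ s c := by simpa [Set.mem_pi] using hw
        obtain ⟨c, hc⟩ := h2
        exact (Finset.prod_eq_zero (Finset.mem_univ c) (Set.indicator_of_notMem hc _)).symm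
    rw [h1]
    have hind : iIndepFun (fun c (w : ι → ℝ) => (s c).indicator (f c) (w c)) (Measure.pi ν) :=
      iIndepFun_pi (X := fun c => (s c).indicator (f c))
        fun c => ((hfm c).indicator (hs c)).aemeasurable
    rw [lintegral_prod_eq_prod_lintegral_of_indepFun Finset.univ _ hind
      (fun c => ((hfm c).indicator (hs c)).comp (measurable_pi_apply c))]
    refine Finset.prod_congr rfl fun c _ => ?_
    rw [hdens c, withDensity_apply _ (hs c), ← lintegral_indicator (hs c)]
    exact (measurePreserving_eval ν c).lintegral_comp ((hfm c).indicator (hs c))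
  rw [hpi, withDensity_apply _ hA, ← setLIntegral_const]
  refine setLIntegral_mono' hA fun w hw => ?_
  have h1 : ∏ c, f c (w c) = ENNReal.ofReal (2 ^ S.card * Real.exp (-((∑ c ∈ S, w c) / 2))) := by
    simp only [hf]
    rw [Finset.prod_ite_mem, Finset.univ_inter, ← ENNReal.ofReal_prod_of_nonneg
      (fun c _ => by positivity), Finset.prod_mul_distrib, Finset.prod_const, ← Real.exp_sum,
      Finset.sum_neg_distrib, Finset.sum_div]
  rw [h1]
  apply ENNReal.ofReal_le_ofReal
  have h2 := hT w hw
  have h3 : Real.exp (-(T / 2)) ≤ Real.exp (-((∑ c ∈ S, w c) / 2)) := by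
    apply Real.exp_le_exp.mpr
    linarith
  exact mul_le_mul_of_nonneg_left h3 (by positivity)

end Pool.Agent.FX
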