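import Pool.Agent.FX.Expo

/-! # Families of independent exponential variables -/

open MeasureTheory ProbabilityTheory

namespace Pool.Agent.FX

variable {Ω : Type} [MeasurableSpace Ω] {μ : Measure Ω} {X : ℕ × ℕ → Ω → ℝ} {r : ℕ × ℕ → ℝ}

lemma ExpFam.prob (h : ExpFam μ X r) : IsProbabilityMeasure μ := h.indep.isProbabilityMeasure

/-- Existence. -/
lemma exists_expFam (r : ℕ × ℕ → ℝ) (hr : ∀ c, 0 < r c) :
    ∃ μ : Measure (ℕ × ℕ → ℝ), ExpFam μ (fun c ω => ω c) r := by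
  haveI : ∀ c, IsProbabilityMeasure (expMeasure (r c)) := fun c =>
    isProbabilityMeasure_expMeasure (hr c)
  refine ⟨Measure.infinitePi (fun c => expMeasure (r c)), fun c => measurable_pi_apply c, ?_, ?_, hr⟩
  · exact iIndepFun_infinitePi (X := fun _ x => x) (fun _ => measurable_id)
  · intro c
    exact (measurePreserving_eval_infinitePi (fun c => expMeasure (r c)) c).map_eq

/-- The law of the whole family. -/
lemma ExpFam.map_eq (h : ExpFam μ X r) [∀ c, IsProbabilityMeasure (expMeasure (r c))] :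
    μ.map (fun ω c => X c ω) = Measure.infinitePi (fun c => expMeasure (r c)) := by
  rw [h.indep.map_fun_eq_infinitePi_map h.meas]
  congr 1
  funext c
  exact h.law c

/-- Probabilities depend only on the rates. -/
lemma ExpFam.law_eq (h : ExpFam μ X r) {Ω' : Type} [MeasurableSpace Ω'] {μ' : Measure Ω'}
    {X' : ℕ × ℕ → Ω' → ℝ} (h' : ExpFam μ' X' r) {A : Set (ℕ × ℕ → ℝ)} (hA : MeasurableSet A) :
    μ {ω | (fun c => X c ω) ∈ A} = μ' {ω | (fun c => X' c ω) ∈ A} := by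
  haveI : ∀ c, IsProbabilityMeasure (expMeasure (r c)) := fun c =>
    isProbabilityMeasure_expMeasure (h.rate c)
  have h1 : μ.map (fun ω c => X c ω) A = μ {ω | (fun c => X c ω) ∈ A} :=
    Measure.map_apply (measurable_pi_lambda _ h.meas) hA
  have h2 : μ'.map (fun ω c => X' c ω) A = μ' {ω | (fun c => X' c ω) ∈ A} :=
    Measure.map_apply (measurable_pi_lambda _ h'.meas) hA
  rw [← h1, ← h2, h.map_eq, h'.map_eq]

lemma ExpFam.scale (h : ExpFam μ X r) (k : ℕ × ℕ → ℝ) (hk : ∀ c, 0 < k c) :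
    ExpFam μ (fun c ω => k c * X c ω) (fun c => r c / k c) := by
  refine ⟨fun c => (h.meas c).const_mul (k c), ?_, fun c => ?_, fun c => div_pos (h.rate c) (hk c)⟩
  · exact h.indep.comp (fun c x => k c * x) (fun c => measurable_const_mul (k c))
  · have h1 : μ.map (fun ω => k c * X c ω) = (μ.map (X c)).map (fun x => k c * x) :=
      (Measure.map_map (measurable_const_mul (k c)) (h.meas c)).symm
    rw [h1, h.law, E_scale (h.rate c) (hk c)]

lemma ExpFam.precomp (h : ExpFam μ X r) (g : ℕ × ℕ → ℕ × ℕ) (hg : Function.Injective g) :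
    ExpFam μ (fun c => X (g c)) (fun c => r (g c)) :=
  ⟨fun c => h.meas (g c), h.indep.precomp hg, fun c => h.law (g c), fun c => h.rate (g c)⟩

lemma ExpFam.nonneg (h : ExpFam μ X r) : ∀ᵐ ω ∂μ, ∀ c, 0 ≤ X c ω := by
  refine ae_all_iff.2 fun c => ?_
  have h1 : ∀ᵐ x ∂(μ.map (X c)), 0 < x := by
    rw [h.law]
    exact E_pos (h.rate c)
  exact (ae_of_ae_map (h.meas c).aemeasurable h1).mono fun ω hω => le_of_lt hω

/-- The restriction to the square has the product law. -/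
lemma ExpFam.transfer {N : ℕ} (h : ExpFam μ X r) (A : Set (Env N)) (hA : MeasurableSet A) :
    Measure.pi (fun c : Fin (N + 1) × Fin (N + 1) => expMeasure (r (c.1.val, c.2.val))) A =
      μ {ω | res N (fun c => X c ω) ∈ A} := by
  have hg : Function.Injective (fun c : Fin (N + 1) × Fin (N + 1) => (c.1.val, c.2.val)) := by
    rintro ⟨a, b⟩ ⟨a', b'⟩ hab
    simp only [Prod.mk.injEq] at hab
    exact Prod.ext (Fin.ext hab.1) (Fin.ext hab.2)
  have h1 := (h.indep.precomp hg).map_fun_eq_pi_map (fun i => (h.meas _).aemeasurable)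
  have h2 : (fun i : Fin (N + 1) × Fin (N + 1) => μ.map (X (i.1.val, i.2.val))) =
      fun i => expMeasure (r (i.1.val, i.2.val)) := funext fun i => h.law _
  have h3 : μ.map (fun ω (i : Fin (N + 1) × Fin (N + 1)) => X (i.1.val, i.2.val) ω) A =
      μ {ω | res N (fun c => X c ω) ∈ A} :=
    Measure.map_apply (measurable_pi_lambda _ fun i => h.meas _) hA
  rw [← h2, ← h3]
  exact (congrArg (fun ν : Measure (Env N) => ν A) h1).symm

lemma ExpFam.sum_mgf (h : ExpFam μ X r) (S : Finset (ℕ × ℕ)) (θ : ℝ) (hθ : ∀ c ∈ S, θ < r c) :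
    ∫⁻ ω, ENNReal.ofReal (Real.exp (θ * ∑ c ∈ S, X c ω)) ∂μ
      = ∏ c ∈ S, ENNReal.ofReal (r c / (r c - θ)) := by
  have hm : Measurable fun x : ℝ => ENNReal.ofReal (Real.exp (θ * x)) := by fun_prop
  have h1 : ∀ ω, ENNReal.ofReal (Real.exp (θ * ∑ c ∈ S, X c ω)) =
      ∏ c ∈ S, ENNReal.ofReal (Real.exp (θ * X c ω)) := by
    intro ω
    rw [Finset.mul_sum, Real.exp_sum, ENNReal.ofReal_prod_of_nonneg fun c _ => (Real.exp_pos _).le]
  have h2 : iIndepFun (fun c ω => ENNReal.ofReal (Real.exp (θ * X c ω))) μ :=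
    h.indep.comp (fun _ x => ENNReal.ofReal (Real.exp (θ * x))) (fun _ => hm)
  simp_rw [h1]
  rw [lintegral_prod_eq_prod_lintegral_of_indepFun S _ h2 (fun c => hm.comp (h.meas c))]
  refine Finset.prod_congr rfl fun c hc => ?_
  have h3 : ∫⁻ ω, ENNReal.ofReal (Real.exp (θ * X c ω)) ∂μ =
      ∫⁻ x, ENNReal.ofReal (Real.exp (θ * x)) ∂(μ.map (X c)) := (lintegral_map hm (h.meas c)).symm
  rw [h3, h.law, E_mgf (h.rate c) (hθ c hc)]

open Classical in
/-- extension by zero -/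
private noncomputable def Fam_ext (S : Finset (ℕ × ℕ)) (u : S → ℝ) : ℕ × ℕ → ℝ := fun c =>
  if hc : c ∈ S then u ⟨c, hc⟩ else 0

private lemma Fam_ext_meas (S : Finset (ℕ × ℕ)) : Measurable (Fam_ext S) := by
  refine measurable_pi_lambda _ fun c => ?_
  unfold Fam_ext
  by_cases hc : c ∈ S
  · simp only [dif_pos hc]
    exact measurable_pi_apply _
  · simp only [dif_neg hc]
    exact measurable_const

private lemma Fam_ext_apply (S : Finset (ℕ × ℕ)) (w : ℕ × ℕ → ℝ) {c : ℕ × ℕ} (hc : c ∈ S) :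
    Fam_ext S (fun i : S => w i) c = w c := by
  unfold Fam_ext
  rw [dif_pos hc]

/-- Functions of disjoint finite sets of coordinates. -/
lemma ExpFam.indep2 (h : ExpFam μ X r) {S T : Finset (ℕ × ℕ)} (hST : Disjoint S T)
    {f g : (ℕ × ℕ → ℝ) → ENNReal} (hf : Measurable f) (hg : Measurable g)
    (hfS : ∀ w w', (∀ c ∈ S, w c = w' c) → f w = f w')
    (hgT : ∀ w w', (∀ c ∈ T, w c = w' c) → g w = g w') :
    ∫⁻ ω, f (fun c => X c ω) * g (fun c => X c ω) ∂μ =
      (∫⁻ ω, f (fun c => X c ω) ∂μ) * ∫⁻ ω, g (fun c => X c ω) ∂μ := by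
  have h1 := h.indep.indepFun_finset S T hST h.meas
  have h2 := h1.comp (hf.comp (Fam_ext_meas S)) (hg.comp (Fam_ext_meas T))
  have hfe : ∀ ω, f (fun c => X c ω) = f (Fam_ext S fun i : S => X i ω) := fun ω =>
    hfS _ _ fun c hc => (Fam_ext_apply S (fun c => X c ω) hc).symm
  have hge : ∀ ω, g (fun c => X c ω) = g (Fam_ext T fun i : T => X i ω) := fun ω =>
    hgT _ _ fun c hc => (Fam_ext_apply T (fun c => X c ω) hc).symm
  simp_rw [hfe, hge]
  exact lintegral_mul_eq_lintegral_mul_lintegral_of_indepFun''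
    ((hf.comp (Fam_ext_meas S)).comp (measurable_pi_lambda _ fun i => h.meas _)).aemeasurable
    ((hg.comp (Fam_ext_meas T)).comp (measurable_pi_lambda _ fun i => h.meas _)).aemeasurable h2

/-- Chernoff. -/
lemma chernoff {f : Ω → ℝ} (hf : Measurable f) {θ s : ℝ} (hθ : 0 ≤ θ) :
    μ {ω | s ≤ f ω} ≤ ENNReal.ofReal (Real.exp (-(θ * s))) *
      ∫⁻ ω, ENNReal.ofReal (Real.exp (θ * f ω)) ∂μ := by
  have hm : Measurable fun ω => ENNReal.ofReal (Real.exp (θ * f ω)) := by fun_prop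
  have h1 := mul_meas_ge_le_lintegral₀ (μ := μ) hm.aemeasurable (ENNReal.ofReal (Real.exp (θ * s)))
  have h2 : μ {ω | s ≤ f ω} ≤
      μ {ω | ENNReal.ofReal (Real.exp (θ * s)) ≤ ENNReal.ofReal (Real.exp (θ * f ω))} := by
    refine measure_mono fun ω hω => ?_
    exact ENNReal.ofReal_le_ofReal (Real.exp_le_exp.2 (mul_le_mul_of_nonneg_left hω hθ))
  have h3 : ENNReal.ofReal (Real.exp (-(θ * s))) * ENNReal.ofReal (Real.exp (θ * s)) = 1 := by
    rw [← ENNReal.ofReal_mul (Real.exp_pos _).le, ← Real.exp_add, neg_add_cancel, Real.exp_zero,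
      ENNReal.ofReal_one]
  calc μ {ω | s ≤ f ω} = ENNReal.ofReal (Real.exp (-(θ * s))) *
        (ENNReal.ofReal (Real.exp (θ * s)) * μ {ω | s ≤ f ω}) := by rw [← mul_assoc, h3, one_mul]
    _ ≤ ENNReal.ofReal (Real.exp (-(θ * s))) * ∫⁻ ω, ENNReal.ofReal (Real.exp (θ * f ω)) ∂μ :=
        mul_le_mul_right ((mul_le_mul_right h2 _).trans h1) _

end Pool.Agent.FX
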