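import Pool.Agent.FX.PathA
import Pool.Agent.FX.Expo2

/-! # Tilting along a path -/

open MeasureTheory ProbabilityTheory

namespace Pool.Agent.FX

private instance Tilt_prob : IsProbabilityMeasure (expMeasure 1) :=
  isProbabilityMeasure_expMeasure one_pos

/-- Functions of disjoint sets of coordinates are independent. -/
private lemma Tilt_mul {ι : Type} [Fintype ι] (S T : Finset ι) (hST : Disjoint S T)
    {f g : (ι → ℝ) → ENNReal} (hf : Measurable f) (hg : Measurable g)
    (hfS : ∀ ω ω' : ι → ℝ, (∀ c ∈ S, ω c = ω' c) → f ω = f ω')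
    (hgT : ∀ ω ω' : ι → ℝ, (∀ c ∈ T, ω c = ω' c) → g ω = g ω') :
    ∫⁻ ω, f ω * g ω ∂(Measure.pi fun _ : ι => expMeasure 1) =
      (∫⁻ ω, f ω ∂(Measure.pi fun _ : ι => expMeasure 1)) *
        ∫⁻ ω, g ω ∂(Measure.pi fun _ : ι => expMeasure 1) := by
  classical
  have hX : iIndepFun (fun (i : ι) (ω : ι → ℝ) => ω i) (Measure.pi fun _ : ι => expMeasure 1) :=
    iIndepFun_pi (X := fun (_ : ι) (x : ℝ) => x) fun _ => aemeasurable_id
  have h1 := hX.indepFun_finset S T hST (fun i => measurable_pi_apply i)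
  have hext : ∀ U : Finset ι, Measurable fun (y : U → ℝ) (c : ι) =>
      if h : c ∈ U then y ⟨c, h⟩ else 0 := by
    intro U
    refine measurable_pi_lambda _ fun c => ?_
    by_cases h : c ∈ U
    · simp only [dif_pos h]
      exact measurable_pi_apply _
    · simp only [dif_neg h]
      exact measurable_const
  have h2 := h1.comp (hf.comp (hext S)) (hg.comp (hext T))
  have e1 : (f ∘ fun (y : S → ℝ) (c : ι) => if h : c ∈ S then y ⟨c, h⟩ else 0) ∘
      (fun (a : ι → ℝ) (i : S) => a i) = f := by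
    funext ω
    refine hfS _ _ fun c hc => ?_
    simp only [dif_pos hc]
  have e2 : (g ∘ fun (y : T → ℝ) (c : ι) => if h : c ∈ T then y ⟨c, h⟩ else 0) ∘
      (fun (a : ι → ℝ) (i : T) => a i) = g := by
    funext ω
    refine hgT _ _ fun c hc => ?_
    simp only [dif_pos hc]
  rw [e1, e2] at h2
  exact lintegral_mul_eq_lintegral_mul_lintegral_of_indepFun hf hg h2

open Classical in
/-- The factor of the antidiagonal `k`. -/
private noncomputable def Tilt_g (N : ℕ) (v : ℕ → Fin (N + 1) × Fin (N + 1)) (k : ℕ)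
    (ω : Env N) : ENNReal :=
  if 1 ≤ k ∧ k < 2 * N ∧ IsTurn N v k then
    (if ω (alt N v k) ≤ ω (v k) then ENNReal.ofReal (Real.exp (ω (v k) / 2)) else 0)
  else ENNReal.ofReal (Real.exp (ω (v k) / 2))

private lemma Tilt_meas (N : ℕ) (v : ℕ → Fin (N + 1) × Fin (N + 1)) (k : ℕ) :
    Measurable (Tilt_g N v k) := by
  unfold Tilt_g
  have h1 : Measurable fun ω : Env N => ENNReal.ofReal (Real.exp (ω (v k) / 2)) :=
    ENNReal.measurable_ofReal.comp (Real.measurable_exp.comp
      ((measurable_pi_apply (v k)).div_const 2))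
  by_cases hk : 1 ≤ k ∧ k < 2 * N ∧ IsTurn N v k
  · simp only [if_pos hk]
    exact Measurable.ite (measurableSet_le (measurable_pi_apply _) (measurable_pi_apply _)) h1
      measurable_const
  · simp only [if_neg hk]
    exact h1

private lemma Tilt_dep {N : ℕ} {v : ℕ → Fin (N + 1) × Fin (N + 1)} (h : IsPath N v) {k : ℕ}
    (hk : k ≤ 2 * N) {ω ω' : Env N}
    (he : ∀ c : Fin (N + 1) × Fin (N + 1), c.1.val + c.2.val = k → ω c = ω' c) :
    Tilt_g N v k ω = Tilt_g N v k ω' := by
  unfold Tilt_g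
  rw [he (v k) (h.antidiag hk)]
  by_cases hp : 1 ≤ k ∧ k < 2 * N ∧ IsTurn N v k
  · rw [if_pos hp, if_pos hp, he (alt N v k) (h.alt_antidiag hp.1 hp.2.1 hp.2.2)]
  · rw [if_neg hp, if_neg hp]

private lemma Tilt_prod {N : ℕ} {v : ℕ → Fin (N + 1) × Fin (N + 1)} (h : IsPath N v) (n : ℕ)
    (hn : n ≤ 2 * N + 1) :
    ∫⁻ ω, ∏ k ∈ Finset.range n, Tilt_g N v k ω ∂(law N) =
      ∏ k ∈ Finset.range n, ∫⁻ ω, Tilt_g N v k ω ∂(law N) := by
  induction n with
  | zero =>
    have : IsProbabilityMeasure (law N) := by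
      unfold law
      infer_instance
    simp
  | succ n ih =>
    have h1 := Tilt_mul (ι := Fin (N + 1) × Fin (N + 1))
      (Finset.univ.filter fun c => c.1.val + c.2.val < n)
      (Finset.univ.filter fun c => c.1.val + c.2.val = n)
      (Finset.disjoint_left.2 fun c hc hc' => by
        rw [Finset.mem_filter] at hc hc'
        omega)
      (f := fun ω => ∏ k ∈ Finset.range n, Tilt_g N v k ω) (g := Tilt_g N v n)
      (Finset.measurable_prod _ fun k _ => Tilt_meas N v k) (Tilt_meas N v n)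
      (by
        intro ω ω' he
        refine Finset.prod_congr rfl fun k hk => ?_
        rw [Finset.mem_range] at hk
        refine Tilt_dep h (by omega) fun c hc => he c ?_
        rw [Finset.mem_filter]
        exact ⟨Finset.mem_univ _, by omega⟩)
      (by
        intro ω ω' he
        refine Tilt_dep h (by omega) fun c hc => he c ?_
        rw [Finset.mem_filter]
        exact ⟨Finset.mem_univ _, hc⟩)
    have h2 := ih (by omega)
    rw [Finset.prod_range_succ, ← h2]
    rw [show (law N) = Measure.pi fun _ : Fin (N + 1) × Fin (N + 1) => expMeasure 1 from rfl]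
    rw [← h1]
    refine lintegral_congr fun ω => ?_
    rw [Finset.prod_range_succ]

private lemma Tilt_one (N : ℕ) (c : Fin (N + 1) × Fin (N + 1)) :
    ∫⁻ ω : Env N, ENNReal.ofReal (Real.exp (ω c / 2)) ∂(law N) = ENNReal.ofReal 2 := by
  have h1 := (measurePreserving_eval (fun _ : Fin (N + 1) × Fin (N + 1) => expMeasure 1)
    c).lintegral_comp (f := fun x : ℝ => ENNReal.ofReal (Real.exp (x / 2)))
    (ENNReal.measurable_ofReal.comp (Real.measurable_exp.comp (measurable_id.div_const 2)))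
  have h2 := E_mgf (r := 1) (θ := 1 / 2) one_pos (by norm_num)
  have e : (1 : ℝ) / (1 - 1 / 2) = 2 := by norm_num
  rw [e] at h2
  rw [← h2]
  refine h1.trans ?_
  refine lintegral_congr fun x => ?_
  congr 2
  ring

private lemma Tilt_two (N : ℕ) {a b : Fin (N + 1) × Fin (N + 1)} (hab : b ≠ a) :
    ∫⁻ ω : Env N, (if ω b ≤ ω a then ENNReal.ofReal (Real.exp (ω a / 2)) else 0) ∂(law N) =
      ENNReal.ofReal (4 / 3) := by
  have hX : iIndepFun (fun (i : Fin (N + 1) × Fin (N + 1)) (ω : Env N) => ω i) (law N) :=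
    iIndepFun_pi (X := fun (_ : Fin (N + 1) × Fin (N + 1)) (x : ℝ) => x) fun _ => aemeasurable_id
  have hlaw : IsProbabilityMeasure (law N) := by
    unfold law
    infer_instance
  have h1 := hX.indepFun (Ne.symm hab)
  rw [indepFun_iff_map_prod_eq_prod_map_map (measurable_pi_apply a).aemeasurable
    (measurable_pi_apply b).aemeasurable] at h1
  have hm : ∀ c : Fin (N + 1) × Fin (N + 1), (law N).map (fun ω => ω c) = expMeasure 1 := fun c =>
    (measurePreserving_eval (fun _ : Fin (N + 1) × Fin (N + 1) => expMeasure 1) c).map_eq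
  rw [hm, hm] at h1
  have hF : Measurable fun z : ℝ × ℝ =>
      (if z.2 ≤ z.1 then ENNReal.ofReal (Real.exp (z.1 / 2)) else 0) :=
    Measurable.ite (measurableSet_le measurable_snd measurable_fst)
      (ENNReal.measurable_ofReal.comp (Real.measurable_exp.comp (measurable_fst.div_const 2)))
      measurable_const
  have h2 : ∫⁻ ω : Env N, (if ω b ≤ ω a then ENNReal.ofReal (Real.exp (ω a / 2)) else 0)
      ∂(law N) = ∫⁻ z : ℝ × ℝ, (if z.2 ≤ z.1 then ENNReal.ofReal (Real.exp (z.1 / 2)) else 0)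
        ∂((law N).map fun ω => (ω a, ω b)) := by
    rw [lintegral_map hF ((measurable_pi_apply a).prodMk (measurable_pi_apply b))]
  rw [h2, h1, lintegral_prod _ hF.aemeasurable, ← E_turn]

/-- Tilting along a path, with one extra constraint per turn. -/
lemma tilt {N : ℕ} {v : ℕ → Fin (N + 1) × Fin (N + 1)} (h : IsPath N v) (x : ℝ) :
    law N {ω | x ≤ len N v ω ∧ ∀ k, 1 ≤ k → k < 2 * N → IsTurn N v k → ω (alt N v k) ≤ ω (v k)}
      ≤ ENNReal.ofReal (Real.exp (-(x / 2)) * 2 ^ (2 * N + 1) * (2 / 3) ^ turns N v) := by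
  classical
  have hf : Measurable fun ω : Env N => ∏ k ∈ Finset.range (2 * N + 1), Tilt_g N v k ω :=
    Finset.measurable_prod _ fun k _ => Tilt_meas N v k
  have hint : ∫⁻ ω, ∏ k ∈ Finset.range (2 * N + 1), Tilt_g N v k ω ∂(law N) =
      ENNReal.ofReal (2 ^ (2 * N + 1) * (2 / 3) ^ turns N v) := by
    rw [Tilt_prod h _ le_rfl]
    have h1 : ∀ k ∈ Finset.range (2 * N + 1), ∫⁻ ω, Tilt_g N v k ω ∂(law N) =
        ENNReal.ofReal (2 * if 1 ≤ k ∧ k < 2 * N ∧ IsTurn N v k then 2 / 3 else 1) := by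
      intro k _
      by_cases hp : 1 ≤ k ∧ k < 2 * N ∧ IsTurn N v k
      · rw [if_pos hp]
        have e : (2 : ℝ) * (2 / 3) = 4 / 3 := by norm_num
        rw [e, ← Tilt_two N (h.alt_ne hp.1 hp.2.1 hp.2.2)]
        refine lintegral_congr fun ω => ?_
        unfold Tilt_g
        rw [if_pos hp]
      · rw [if_neg hp, mul_one, ← Tilt_one N (v k)]
        refine lintegral_congr fun ω => ?_
        unfold Tilt_g
        rw [if_neg hp]
    rw [Finset.prod_congr rfl h1, ← ENNReal.ofReal_prod_of_nonneg]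
    · congr 1
      rw [Finset.prod_mul_distrib, Finset.prod_const, Finset.card_range, Finset.prod_ite,
        Finset.prod_const, Finset.prod_const_one, mul_one]
      congr 2
      unfold turns
      rw [← Set.ncard_coe_finset]
      congr 1
      ext k
      simp only [Finset.coe_filter, Finset.mem_range, Set.mem_ofPred_eq]
      constructor
      · exact fun hk => hk.2
      · exact fun hk => ⟨by omega, hk⟩
    · intro k _
      split_ifs <;> norm_num
  have hM := mul_meas_ge_le_lintegral (μ := law N) hf (ENNReal.ofReal (Real.exp (x / 2)))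
  rw [hint] at hM
  have hsub : {ω | x ≤ len N v ω ∧ ∀ k, 1 ≤ k → k < 2 * N → IsTurn N v k →
      ω (alt N v k) ≤ ω (v k)} ⊆ {ω : Env N | ENNReal.ofReal (Real.exp (x / 2)) ≤
        ∏ k ∈ Finset.range (2 * N + 1), Tilt_g N v k ω} := by
    rintro ω ⟨hω, hturn⟩
    show ENNReal.ofReal (Real.exp (x / 2)) ≤ ∏ k ∈ Finset.range (2 * N + 1), Tilt_g N v k ω
    have h1 : ∀ k ∈ Finset.range (2 * N + 1), Tilt_g N v k ω =
        ENNReal.ofReal (Real.exp (ω (v k) / 2)) := by
      intro k _
      unfold Tilt_g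
      by_cases hp : 1 ≤ k ∧ k < 2 * N ∧ IsTurn N v k
      · rw [if_pos hp, if_pos (hturn k hp.1 hp.2.1 hp.2.2)]
      · rw [if_neg hp]
    rw [Finset.prod_congr rfl h1, ← ENNReal.ofReal_prod_of_nonneg fun k _ => (Real.exp_pos _).le,
      ← Real.exp_sum, ← Finset.sum_div]
    refine ENNReal.ofReal_le_ofReal (Real.exp_le_exp.2 ?_)
    unfold len at hω
    linarith
  have h3 : ENNReal.ofReal (Real.exp (x / 2)) * law N {ω | x ≤ len N v ω ∧ ∀ k, 1 ≤ k →
      k < 2 * N → IsTurn N v k → ω (alt N v k) ≤ ω (v k)} ≤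
      ENNReal.ofReal (2 ^ (2 * N + 1) * (2 / 3) ^ turns N v) :=
    (mul_le_mul_right (measure_mono hsub) _).trans hM
  calc law N {ω | x ≤ len N v ω ∧ ∀ k, 1 ≤ k → k < 2 * N → IsTurn N v k →
        ω (alt N v k) ≤ ω (v k)} =
      ENNReal.ofReal (Real.exp (-(x / 2))) * (ENNReal.ofReal (Real.exp (x / 2)) *
        law N {ω | x ≤ len N v ω ∧ ∀ k, 1 ≤ k → k < 2 * N → IsTurn N v k →
          ω (alt N v k) ≤ ω (v k)}) := by
        rw [← mul_assoc, ← ENNReal.ofReal_mul (Real.exp_pos _).le, ← Real.exp_add,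
          neg_add_cancel, Real.exp_zero, ENNReal.ofReal_one, one_mul]
    _ ≤ ENNReal.ofReal (Real.exp (-(x / 2))) *
        ENNReal.ofReal (2 ^ (2 * N + 1) * (2 / 3) ^ turns N v) := mul_le_mul_right h3 _
    _ = ENNReal.ofReal (Real.exp (-(x / 2)) * 2 ^ (2 * N + 1) * (2 / 3) ^ turns N v) := by
        rw [← ENNReal.ofReal_mul (Real.exp_pos _).le, mul_assoc]

end Pool.Agent.FX
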