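import Pool.Agent.FX.Lower
import Pool.Agent.FX.Upper
import Pool.Agent.FX.Count

/-! # The final theorem -/

open MeasureTheory ProbabilityTheory Filter

namespace Pool.Agent.FX

private lemma final_prob (N : ℕ) : IsProbabilityMeasure (law N) := by
  haveI : IsProbabilityMeasure (expMeasure 1) := isProbabilityMeasure_expMeasure one_pos
  unfold law; infer_instance

private lemma final_two {ε : ℝ} (hε : 0 < ε) : ∃ N₀ : ℕ, ∀ N ≥ N₀, ∀ v, IsPath N v →
      law N (cone N v) ≤
        ENNReal.ofReal (Real.exp (ε * N) * (2 / 3) ^ turns N v) * law N (cone N (corner N)) := by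
  obtain ⟨N₁, h₁⟩ := lower (ε := ε / 2) (by positivity)
  obtain ⟨N₂, h₂⟩ := upper (ε := ε / 2) (by positivity)
  refine ⟨max N₁ N₂, fun N hN v hv => ?_⟩
  refine (h₂ N (le_trans (le_max_right _ _) hN) v hv).trans ?_
  refine le_trans ?_ (mul_le_mul_right (h₁ N (le_trans (le_max_left _ _) hN)) _)
  rw [← ENNReal.ofReal_mul (by positivity)]
  apply ENNReal.ofReal_le_ofReal
  rw [mul_right_comm, ← Real.exp_add]
  apply le_of_eq
  congr 2
  ring

private lemma final_one {δ : ℝ} (hδ : 0 < δ) : ∃ N₀ : ℕ, ∀ N ≥ N₀, ∀ v, IsPath N v →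
    δ * N ≤ turns N v → law N (cone N v) < law N (cone N (corner N)) := by
  have hlog : 0 < Real.log (3 / 2) := Real.log_pos (by norm_num)
  set ε : ℝ := δ * Real.log (3 / 2) / 2 with hεdef
  have hε : 0 < ε := by positivity
  obtain ⟨N₁, h₁⟩ := lower (ε := ε / 2) (by positivity)
  obtain ⟨N₂, h₂⟩ := upper (ε := ε / 2) (by positivity)
  refine ⟨max 1 (max N₁ N₂), fun N hN v hv ht => ?_⟩
  have hN1 : 1 ≤ N := le_trans (le_max_left _ _) hN
  have hN1' : N₁ ≤ N := le_trans (le_trans (le_max_left _ _) (le_max_right _ _)) hN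
  have hN2' : N₂ ≤ N := le_trans (le_trans (le_max_right _ _) (le_max_right _ _)) hN
  refine (h₂ N hN2' v hv).trans_lt (lt_of_lt_of_le ?_ (h₁ N hN1'))
  rw [ENNReal.ofReal_lt_ofReal_iff (by positivity)]
  have hNpos : (0 : ℝ) < N := by exact_mod_cast hN1
  have hpow : ((2 : ℝ) / 3) ^ turns N v = Real.exp (-(Real.log (3 / 2) * turns N v)) := by
    have h23 : Real.log ((2 : ℝ) / 3) = -Real.log (3 / 2) := by
      rw [← Real.log_inv]; congr 1; norm_num
    rw [← Real.exp_log (show (0 : ℝ) < (2 / 3) ^ turns N v by positivity), Real.log_pow, h23]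
    congr 1; ring
  rw [hpow, ← Real.exp_add, Real.exp_lt_exp]
  have h1 : Real.log (3 / 2) * (δ * N) ≤ Real.log (3 / 2) * turns N v :=
    mul_le_mul_of_nonneg_left ht hlog.le
  have h2 : Real.log (3 / 2) * (δ * N) = 2 * ε * N := by rw [hεdef]; ring
  have h3 : 0 < ε * N := by positivity
  nlinarith

private lemma final_three :
    Tendsto (fun N : ℕ => Real.log (law N (cone N (corner N))).toReal / N) atTop
      (nhds (-(2 - 2 * Real.log 2))) := by
  rw [Metric.tendsto_atTop]
  intro ε hε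
  obtain ⟨N₁, h₁⟩ := lower (ε := ε / 2) (by positivity)
  obtain ⟨N₂, h₂⟩ := upper (ε := ε / 2) (by positivity)
  refine ⟨max 1 (max N₁ N₂), fun N hN => ?_⟩
  have hN1 : 1 ≤ N := le_trans (le_max_left _ _) hN
  have hN1' : N₁ ≤ N := le_trans (le_trans (le_max_left _ _) (le_max_right _ _)) hN
  have hN2' : N₂ ≤ N := le_trans (le_trans (le_max_right _ _) (le_max_right _ _)) hN
  have hNpos : (0 : ℝ) < N := by exact_mod_cast hN1
  haveI := final_prob N
  set x := law N (cone N (corner N)) with hx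
  have hfin : x ≠ ⊤ := measure_ne_top _ _
  have hlo : Real.exp (-((kap + ε / 2) * N)) ≤ x.toReal := by
    have := h₁ N hN1'
    exact (ENNReal.ofReal_le_iff_le_toReal hfin).1 this
  have hup : x.toReal ≤ Real.exp (-((kap - ε / 2) * N)) := by
    have h := h₂ N hN2' (corner N) (isPath_corner N)
    have h' : x.toReal ≤ Real.exp (-((kap - ε / 2) * N)) * (2 / 3) ^ turns N (corner N) :=
      ENNReal.toReal_le_of_le_ofReal (by positivity) h
    refine h'.trans (mul_le_of_le_one_right (Real.exp_pos _).le ?_)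
    exact pow_le_one₀ (by norm_num) (by norm_num)
  have hxpos : 0 < x.toReal := lt_of_lt_of_le (Real.exp_pos _) hlo
  have hl1 : -((kap + ε / 2) * N) ≤ Real.log x.toReal := by
    rw [Real.le_log_iff_exp_le hxpos]; exact hlo
  have hl2 : Real.log x.toReal ≤ -((kap - ε / 2) * N) := by
    rw [Real.log_le_iff_le_exp hxpos]; exact hup
  rw [Real.dist_eq, abs_lt]
  have hk : kap = 2 - 2 * Real.log 2 := rfl
  rw [← hk]
  have e1 : -((kap + ε / 2)) ≤ Real.log x.toReal / N := by
    rw [le_div_iff₀ hNpos]; linarith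
  have e2 : Real.log x.toReal / N ≤ -((kap - ε / 2)) := by
    rw [div_le_iff₀ hNpos]; linarith
  constructor <;> linarith

private lemma final_four {ε : ℝ} (hε : 0 < ε) : ∃ N₀ : ℕ, ∀ N ≥ N₀,
    (Set.ncard {S | ∃ v, IsPath N v ∧ law N (cone N (corner N)) ≤ law N (cone N v) ∧
      S = trace N v} : ℝ) ≤ Real.exp (ε * N) := by
  set x : ℝ := min 1 (ε / 8) with hxdef
  have hx : 0 < x := lt_min one_pos (by positivity)
  have hx1 : x ≤ 1 := min_le_left _ _
  have hxe : x ≤ ε / 8 := min_le_right _ _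
  have hL : 0 ≤ Real.log (1 / x) := Real.log_nonneg (by rw [le_div_iff₀ hx]; linarith)
  set δ : ℝ := ε / (4 * (Real.log (1 / x) + 1)) with hδdef
  have hδ : 0 < δ := by positivity
  obtain ⟨N₁, h₁⟩ := final_one hδ
  obtain ⟨N₂, hN₂⟩ := exists_nat_ge (2 * Real.log 2 / ε)
  refine ⟨max N₁ N₂, fun N hN => ?_⟩
  have hN1 : N₁ ≤ N := le_trans (le_max_left _ _) hN
  have hN2 : N₂ ≤ N := le_trans (le_max_right _ _) hN
  set m : ℕ := ⌊δ * N⌋₊ with hm
  have hδN : 0 ≤ δ * N := by positivity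
  have hmle : (m : ℝ) ≤ δ * N := Nat.floor_le hδN
  have hsub : {S | ∃ v, IsPath N v ∧ law N (cone N (corner N)) ≤ law N (cone N v) ∧
      S = trace N v} ⊆ {S | ∃ v, IsPath N v ∧ turns N v ≤ m ∧ S = trace N v} := by
    rintro S ⟨v, hv, hle, hS⟩
    refine ⟨v, hv, ?_, hS⟩
    by_contra hcon
    push Not at hcon
    have h2 : δ * N ≤ turns N v := ((Nat.lt_of_floor_lt hcon)).le
    exact absurd hle (not_le.2 (h₁ N hN1 v hv h2))
  have h3 : (Set.ncard {S | ∃ v, IsPath N v ∧ law N (cone N (corner N)) ≤ law N (cone N v) ∧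
      S = trace N v} : ℝ) ≤ 2 * ((1 + x) ^ (2 * N) / x ^ m) :=
    le_trans (by exact_mod_cast Set.ncard_le_ncard hsub (Set.toFinite _)) (count_le N m hx hx1)
  refine h3.trans ?_
  have hA : (1 + x) ^ (2 * N) ≤ Real.exp (ε / 4 * N) := by
    have : 1 + x ≤ Real.exp x := by linarith [Real.add_one_le_exp x]
    calc (1 + x) ^ (2 * N) ≤ (Real.exp x) ^ (2 * N) := pow_le_pow_left₀ (by linarith) this _
      _ = Real.exp (x * (2 * N)) := by rw [← Real.exp_nat_mul]; push_cast; ring_nf
      _ ≤ _ := Real.exp_le_exp.2 (by nlinarith [Nat.cast_nonneg (α := ℝ) N])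
  have hB : 1 / x ^ m ≤ Real.exp (ε / 4 * N) := by
    have e1 : 1 / x ^ m = Real.exp (Real.log (1 / x) * m) := by
      rw [mul_comm, Real.exp_nat_mul, Real.exp_log (by positivity), one_div_pow]
    rw [e1]
    apply Real.exp_le_exp.2
    have e2 : Real.log (1 / x) * m ≤ Real.log (1 / x) * (δ * N) :=
      mul_le_mul_of_nonneg_left hmle hL
    have e3 : Real.log (1 / x) * δ ≤ ε / 4 := by
      rw [hδdef, ← mul_div_assoc, div_le_div_iff₀ (by positivity) (by norm_num)]
      nlinarith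
    calc Real.log (1 / x) * m ≤ Real.log (1 / x) * (δ * N) := e2
      _ = Real.log (1 / x) * δ * N := by ring
      _ ≤ ε / 4 * N := mul_le_mul_of_nonneg_right e3 (by positivity)
  have hC : (2 : ℝ) ≤ Real.exp (ε / 2 * N) := by
    rw [← Real.log_le_iff_le_exp (by norm_num)]
    have : 2 * Real.log 2 / ε ≤ N := hN₂.trans (by exact_mod_cast hN2)
    rw [div_le_iff₀ hε] at this
    linarith
  calc 2 * ((1 + x) ^ (2 * N) / x ^ m) = 2 * ((1 + x) ^ (2 * N) * (1 / x ^ m)) := by ring
    _ ≤ Real.exp (ε / 2 * N) * (Real.exp (ε / 4 * N) * Real.exp (ε / 4 * N)) := by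
        apply mul_le_mul hC (mul_le_mul hA hB (by positivity) (by positivity)) (by positivity)
          (by positivity)
    _ = Real.exp (ε * N) := by rw [← Real.exp_add, ← Real.exp_add]; ring_nf

lemma final {ε : ℝ} (hε : 0 < ε) : ∃ N₀ : ℕ, ∀ N ≥ N₀,
    (∀ v, IsPath N v → ε * N ≤ turns N v →
      law N (cone N v) < law N (cone N (corner N))) ∧
    (Set.ncard {S | ∃ v, IsPath N v ∧ law N (cone N (corner N)) ≤ law N (cone N v) ∧
      S = trace N v} : ℝ) ≤ Real.exp (ε * N) ∧
    ∀ v, IsPath N v → law N (cone N v) ≤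
      ENNReal.ofReal (Real.exp (ε * N) * (2 / 3) ^ turns N v) * law N (cone N (corner N)) := by
  obtain ⟨N₁, h₁⟩ := final_one hε
  obtain ⟨N₂, h₂⟩ := final_four hε
  obtain ⟨N₃, h₃⟩ := final_two hε
  refine ⟨max N₁ (max N₂ N₃), fun N hN => ⟨h₁ N (le_trans (le_max_left _ _) hN),
    h₂ N (le_trans (le_trans (le_max_left _ _) (le_max_right _ _)) hN),
    h₃ N (le_trans (le_trans (le_max_right _ _) (le_max_right _ _)) hN)⟩⟩

/-- The exponential rate of the largest probability. -/
lemma final_rate :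
    Tendsto (fun N : ℕ => Real.log (law N (cone N (corner N))).toReal / N) atTop
      (nhds (-(2 - 2 * Real.log 2))) := final_three

end Pool.Agent.FX
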