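import Pool.Agent.FX.LLN

/-! # The lower tail -/

open MeasureTheory ProbabilityTheory

namespace Pool.Agent.FX

/-- The passage time of the block `b` of side `l`. -/
private noncomputable def Kor_L (l : ℕ) (b : ℕ × ℕ) (w : ℕ × ℕ → ℝ) : ℝ :=
  lpp (fun d => w (b.1 * l + d.1, b.2 * l + d.2)) (l - 1) (l - 1)

/-- The cells of the block `b`. -/
private def Kor_cells (l : ℕ) (b : ℕ × ℕ) : Finset (ℕ × ℕ) :=
  (Finset.range l ×ˢ Finset.range l).image fun d => (b.1 * l + d.1, b.2 * l + d.2)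

private lemma Kor_measurable (l : ℕ) (b : ℕ × ℕ) : Measurable (Kor_L l b) := by
  unfold Kor_L
  exact (measurable_lpp (l - 1) (l - 1)).comp
    (measurable_pi_lambda _ fun d => measurable_pi_apply _)

private lemma Kor_congr {l : ℕ} (hl : 1 ≤ l) (b : ℕ × ℕ) {w w' : ℕ × ℕ → ℝ}
    (h : ∀ c ∈ Kor_cells l b, w c = w' c) : Kor_L l b w = Kor_L l b w' := by
  unfold Kor_L
  refine lpp_congr fun x hx y hy => ?_
  refine h _ ?_
  unfold Kor_cells
  rw [Finset.mem_image]
  exact ⟨(x, y), Finset.mem_product.2 ⟨Finset.mem_range.2 (by omega),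
    Finset.mem_range.2 (by omega)⟩, rfl⟩

private lemma Kor_div {l : ℕ} {b c : ℕ × ℕ} (h : c ∈ Kor_cells l b) :
    (c.1 / l, c.2 / l) = b := by
  unfold Kor_cells at h
  rw [Finset.mem_image] at h
  obtain ⟨d, hd, rfl⟩ := h
  rw [Finset.mem_product, Finset.mem_range, Finset.mem_range] at hd
  have hl : 0 < l := by omega
  refine Prod.ext ?_ ?_
  · show (b.1 * l + d.1) / l = b.1
    rw [Nat.add_comm, Nat.add_mul_div_right _ _ hl, Nat.div_eq_of_lt hd.1, zero_add]
  · show (b.2 * l + d.2) / l = b.2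
    rw [Nat.add_comm, Nat.add_mul_div_right _ _ hl, Nat.div_eq_of_lt hd.2, zero_add]

private lemma Kor_prod {Ω : Type} [MeasurableSpace Ω] {μ : Measure Ω} {X : ℕ × ℕ → Ω → ℝ}
    (h : ExpFam μ X (fun _ => 1)) {l : ℕ} (hl : 1 ≤ l) (θ : ℝ) (B : Finset (ℕ × ℕ)) :
    ∫⁻ ω, ∏ b ∈ B, ENNReal.ofReal (Real.exp (-(θ * Kor_L l b (fun c => X c ω)))) ∂μ =
      ∏ b ∈ B, ∫⁻ ω, ENNReal.ofReal (Real.exp (-(θ * Kor_L l b (fun c => X c ω)))) ∂μ := by
  classical
  have hmeas : ∀ b : ℕ × ℕ, Measurable fun w : ℕ × ℕ → ℝ =>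
      ENNReal.ofReal (Real.exp (-(θ * Kor_L l b w))) := fun b =>
    (Real.measurable_exp.comp (((Kor_measurable l b).const_mul θ).neg)).ennreal_ofReal
  induction B using Finset.induction_on with
  | empty =>
    have := h.prob
    simp
  | insert b B hb ih =>
    rw [Finset.prod_insert hb, ← ih]
    simp_rw [Finset.prod_insert hb]
    refine h.indep2 (S := Kor_cells l b) (T := B.biUnion (Kor_cells l))
      (f := fun w => ENNReal.ofReal (Real.exp (-(θ * Kor_L l b w))))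
      (g := fun w => ∏ b ∈ B, ENNReal.ofReal (Real.exp (-(θ * Kor_L l b w)))) ?_ (hmeas b)
      (Finset.measurable_prod _ fun b _ => hmeas b) ?_ ?_
    · rw [Finset.disjoint_left]
      intro c hc hc'
      rw [Finset.mem_biUnion] at hc'
      obtain ⟨b', hb', hc'⟩ := hc'
      rw [← Kor_div hc, Kor_div hc'] at hb
      exact hb hb'
    · intro w w' hw
      simp only [Kor_congr hl b hw]
    · intro w w' hw
      refine Finset.prod_congr rfl fun b' hb' => ?_
      rw [Kor_congr hl b' fun c hc => hw c (Finset.mem_biUnion.2 ⟨b', hb', hc⟩)]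

private lemma Kor_factor {Ω : Type} [MeasurableSpace Ω] {μ : Measure Ω} {X : ℕ × ℕ → Ω → ℝ}
    (h : ExpFam μ X (fun _ => 1)) {l : ℕ} {p η θ : ℝ} (hθ : 0 ≤ θ)
    (hlln : ∀ (Ω : Type) [MeasurableSpace Ω] (μ : Measure Ω) (X : ℕ × ℕ → Ω → ℝ),
      ExpFam μ X (fun _ => 1) →
      μ {ω | lpp (fun c => X c ω) (l - 1) (l - 1) < (4 - η) * l} ≤ ENNReal.ofReal p)
    (b : ℕ × ℕ) :
    ∫⁻ ω, ENNReal.ofReal (Real.exp (-(θ * Kor_L l b (fun c => X c ω)))) ∂μ ≤
      ENNReal.ofReal p + ENNReal.ofReal (Real.exp (-(θ * ((4 - η) * l)))) := by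
  have := h.prob
  have hinj : Function.Injective fun d : ℕ × ℕ => (b.1 * l + d.1, b.2 * l + d.2) := by
    intro d d' hd
    rw [Prod.mk.injEq] at hd
    exact Prod.ext (by omega) (by omega)
  have h' := h.precomp _ hinj
  have h1 := hlln Ω μ _ h'
  have hset : {ω | lpp (fun c : ℕ × ℕ => X (b.1 * l + c.1, b.2 * l + c.2) ω) (l - 1) (l - 1) <
      (4 - η) * l} = {ω | Kor_L l b (fun c => X c ω) < (4 - η) * l} := rfl
  rw [hset] at h1
  have hmL : Measurable fun ω => Kor_L l b (fun c => X c ω) :=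
    (Kor_measurable l b).comp (measurable_pi_lambda _ fun c => h.meas c)
  have hmA : MeasurableSet {ω | Kor_L l b (fun c => X c ω) < (4 - η) * l} :=
    measurableSet_lt hmL measurable_const
  have hae : ∀ᵐ ω ∂μ, ENNReal.ofReal (Real.exp (-(θ * Kor_L l b (fun c => X c ω)))) ≤
      Set.indicator {ω | Kor_L l b (fun c => X c ω) < (4 - η) * l} (fun _ => (1 : ENNReal)) ω +
        ENNReal.ofReal (Real.exp (-(θ * ((4 - η) * l)))) := by
    filter_upwards [h.nonneg] with ω hω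
    by_cases hlt : Kor_L l b (fun c => X c ω) < (4 - η) * l
    · rw [Set.indicator_of_mem (by exact hlt)]
      refine le_trans ?_ le_self_add
      rw [← ENNReal.ofReal_one]
      refine ENNReal.ofReal_le_ofReal ?_
      rw [Real.exp_le_one_iff, neg_nonpos]
      exact mul_nonneg hθ (lpp_nonneg (fun c => hω _) _ _)
    · refine le_trans ?_ le_add_self
      refine ENNReal.ofReal_le_ofReal (Real.exp_le_exp.2 (neg_le_neg ?_))
      exact mul_le_mul_of_nonneg_left (not_lt.1 hlt) hθ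
  refine (lintegral_mono_ae hae).trans ?_
  rw [lintegral_add_right _ measurable_const, lintegral_const, measure_univ, mul_one,
    lintegral_indicator_const hmA, one_mul]
  exact add_le_add_left h1 _

private lemma Kor_numeric {ε T C : ℝ} (hε : 0 < ε) (hT : T = 8 / ε)
    (hC : C = T * (4 - ε / 2) - Real.log 2) (hC0 : 0 ≤ C) {l N m : ℕ} (hl : 1 ≤ l)
    (hm : m = (N + 1) / l - l) (h1 : l * l ≤ N) (h2 : ((l : ℝ) + l * l) * C ≤ N) :
    T / l * (l * ((4 - ε) * N)) + ((l * m : ℕ) : ℝ) * (-C) ≤ -(2 * N) := by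
  have hl0 : (0 : ℝ) < l := by exact_mod_cast hl
  have hTe : T * ε = 8 := by rw [hT]; field_simp
  have e1 : T / l * (l * ((4 - ε) * N)) = T * (4 - ε) * N := by field_simp
  have hlog : Real.log 2 ≤ 1 := by
    have := Real.log_two_lt_d9
    linarith
  have hdiv : N ≤ (N + 1) / l * l + l := by
    have h3 := Nat.div_add_mod (N + 1) l
    have h4 := Nat.mod_lt (N + 1) (show l > 0 by omega)
    have h5 : l * ((N + 1) / l) = (N + 1) / l * l := Nat.mul_comm _ _
    omega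
  have hml : (N : ℝ) - l - l * l ≤ ((l * m : ℕ) : ℝ) := by
    have h3 : N ≤ l * m + l * l + l := by
      have h4 : l ≤ (N + 1) / l := by
        rw [Nat.le_div_iff_mul_le (by omega)]
        omega
      have h5 : l * m + l * l = (N + 1) / l * l := by
        rw [hm, ← Nat.mul_add, Nat.sub_add_cancel h4, Nat.mul_comm]
      omega
    have h6 : (N : ℝ) ≤ ((l * m + l * l + l : ℕ) : ℝ) := by exact_mod_cast h3
    push_cast at h6 ⊢
    linarith
  have h7 : ((N : ℝ) - l - l * l) * C ≤ ((l * m : ℕ) : ℝ) * C :=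
    mul_le_mul_of_nonneg_right hml hC0
  have hN0 : (0 : ℝ) ≤ N := Nat.cast_nonneg N
  have h8 : T * (4 - ε) * N - (N : ℝ) * C = N * (Real.log 2 - 4) := by
    rw [hC]
    have : T * (4 - ε) * N - (N : ℝ) * (T * (4 - ε / 2) - Real.log 2) =
      N * (Real.log 2 - (T * ε) / 2) := by ring
    rw [this, hTe]
    ring
  have h9 : (N : ℝ) * Real.log 2 ≤ N * 1 := mul_le_mul_of_nonneg_left hlog hN0
  rw [e1]
  nlinarith

/-- The lower tail of the last passage time of the square decays faster than `exp (-2 N)`. -/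
lemma lower_tail {ε : ℝ} (hε : 0 < ε) : ∃ N₀ : ℕ, ∀ N ≥ N₀,
    ∀ (Ω : Type) [MeasurableSpace Ω] (μ : Measure Ω) (X : ℕ × ℕ → Ω → ℝ),
      ExpFam μ X (fun _ => 1) →
      μ {ω | lpp (fun c => X c ω) N N ≤ (4 - ε) * N} ≤ ENNReal.ofReal (Real.exp (-(2 * N))) := by
  classical
  wlog hε1 : ε ≤ 1 generalizing ε with H
  · obtain ⟨N₀, hN₀⟩ := H one_pos le_rfl
    refine ⟨N₀, fun N hN Ω _ μ X hX => (measure_mono ?_).trans (hN₀ N hN Ω μ X hX)⟩
    intro ω hω
    have h1 : lpp (fun c => X c ω) N N ≤ (4 - ε) * N := hω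
    have h2 : (0 : ℝ) ≤ N := Nat.cast_nonneg N
    show lpp (fun c => X c ω) N N ≤ (4 - 1) * N
    rw [not_le] at hε1
    nlinarith
  obtain ⟨T, hT⟩ : ∃ T : ℝ, T = 8 / ε := ⟨_, rfl⟩
  have hT8 : 8 ≤ T := by
    rw [hT, le_div_iff₀ hε]
    linarith
  obtain ⟨C, hC⟩ : ∃ C : ℝ, C = T * (4 - ε / 2) - Real.log 2 := ⟨_, rfl⟩
  have hC0 : 0 ≤ C := by
    have := Real.log_two_lt_d9
    rw [hC]
    nlinarith
  obtain ⟨l, hl, hlln⟩ := lln (ε := ε / 2) (p := Real.exp (-(T * (4 - ε / 2)))) (by linarith)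
    (Real.exp_pos _)
  have hl0 : (0 : ℝ) < l := by exact_mod_cast hl
  refine ⟨l * l + ⌈((l : ℝ) + l * l) * C⌉₊, fun N hN Ω _ μ X hX => ?_⟩
  have := hX.prob
  have hN1 : l * l ≤ N := by omega
  have hN2 : ((l : ℝ) + l * l) * C ≤ N := by
    refine (Nat.le_ceil _).trans ?_
    exact_mod_cast (by omega : ⌈((l : ℝ) + l * l) * C⌉₊ ≤ N)
  obtain ⟨m, hm⟩ : ∃ m : ℕ, m = (N + 1) / l - l := ⟨_, rfl⟩
  have hnum := Kor_numeric hε hT hC hC0 hl hm hN1 hN2
  have hθ : 0 ≤ T / l := by positivity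
  obtain ⟨B, hB⟩ : ∃ B : Finset (ℕ × ℕ), B =
      (Finset.range l ×ˢ Finset.range m).image fun d : ℕ × ℕ => (d.1 + d.2, d.2) := ⟨_, rfl⟩
  have hinjB : Set.InjOn (fun d : ℕ × ℕ => (d.1 + d.2, d.2))
      (Finset.range l ×ˢ Finset.range m : Finset (ℕ × ℕ)) := by
    intro d _ d' _ hd
    simp only [Prod.mk.injEq] at hd
    exact Prod.ext (by omega) (by omega)
  have hBcard : B.card = l * m := by
    rw [hB, Finset.card_image_of_injOn hinjB, Finset.card_product, Finset.card_range,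
      Finset.card_range]
  have hsum : ∀ w : ℕ × ℕ → ℝ, (∀ c, 0 ≤ w c) → ∑ b ∈ B, Kor_L l b w ≤ l * lpp w N N := by
    intro w hw
    rw [hB, Finset.sum_image hinjB, Finset.sum_product]
    have h1 : ∀ c ∈ Finset.range l, ∑ k ∈ Finset.range m, Kor_L l (c + k, k) w ≤ lpp w N N := by
      intro c hc
      rw [Finset.mem_range] at hc
      refine corridor hw N l m c hl ?_
      have h4 : l ≤ (N + 1) / l := by
        rw [Nat.le_div_iff_mul_le (by omega)]
        omega
      have h5 : (c + m) ≤ (N + 1) / l := by omega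
      exact (Nat.mul_le_mul_right l h5).trans (Nat.div_mul_le_self _ _)
    refine (Finset.sum_le_sum h1).trans ?_
    rw [Finset.sum_const, Finset.card_range, nsmul_eq_mul]
  have hmL : ∀ b, Measurable fun ω => Kor_L l b (fun c => X c ω) := fun b =>
    (Kor_measurable l b).comp (measurable_pi_lambda _ fun c => hX.meas c)
  have hmf : Measurable fun ω => -∑ b ∈ B, Kor_L l b (fun c => X c ω) :=
    (Finset.measurable_sum _ fun b _ => hmL b).neg
  have hsub : μ {ω | lpp (fun c => X c ω) N N ≤ (4 - ε) * N} ≤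
      μ {ω | -(l * ((4 - ε) * N)) ≤ -∑ b ∈ B, Kor_L l b (fun c => X c ω)} := by
    refine measure_mono_ae ?_
    filter_upwards [hX.nonneg] with ω hω hle
    have h1 : lpp (fun c => X c ω) N N ≤ (4 - ε) * N := hle
    show -(l * ((4 - ε) * N)) ≤ -∑ b ∈ B, Kor_L l b (fun c => X c ω)
    have h2 := hsum (fun c => X c ω) hω
    have h3 := mul_le_mul_of_nonneg_left h1 hl0.le
    linarith
  refine hsub.trans ((chernoff hmf hθ).trans ?_)
  have hexp : ∀ ω, ENNReal.ofReal (Real.exp (T / l * -∑ b ∈ B, Kor_L l b (fun c => X c ω))) =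
      ∏ b ∈ B, ENNReal.ofReal (Real.exp (-(T / l * Kor_L l b (fun c => X c ω)))) := by
    intro ω
    rw [← ENNReal.ofReal_prod_of_nonneg (fun b _ => (Real.exp_pos _).le), ← Real.exp_sum]
    congr 2
    rw [mul_neg, Finset.mul_sum, Finset.sum_neg_distrib]
  simp_rw [hexp]
  rw [Kor_prod hX hl]
  have hfac : ∀ b ∈ B, ∫⁻ ω, ENNReal.ofReal (Real.exp (-(T / l * Kor_L l b (fun c => X c ω)))) ∂μ ≤
      ENNReal.ofReal (Real.exp (-C)) := by
    intro b _
    refine (Kor_factor hX hθ hlln b).trans ?_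
    rw [← ENNReal.ofReal_add (Real.exp_pos _).le (Real.exp_pos _).le]
    refine ENNReal.ofReal_le_ofReal ?_
    have e1 : T / l * ((4 - ε / 2) * l) = T * (4 - ε / 2) := by field_simp
    rw [e1, hC, show -(T * (4 - ε / 2) - Real.log 2) = Real.log 2 + -(T * (4 - ε / 2)) by ring,
      Real.exp_add, Real.exp_log two_pos]
    linarith
  have hprod := Finset.prod_le_pow_card B _ _ hfac
  refine (mul_le_mul_right hprod _).trans ?_
  rw [hBcard, ← ENNReal.ofReal_pow (Real.exp_pos _).le, ← Real.exp_nat_mul,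
    ← ENNReal.ofReal_mul (Real.exp_pos _).le, ← Real.exp_add]
  refine ENNReal.ofReal_le_ofReal (Real.exp_le_exp.2 ?_)
  rw [mul_neg, neg_neg]
  exact hnum

end Pool.Agent.FX
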