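import Pool.Agent.FX.Stat
import Pool.Agent.FX.Det
import Pool.Agent.FX.Cher

/-! # The law of large numbers (lower bound) for the square -/

open MeasureTheory ProbabilityTheory

namespace Pool.Agent.FX

private lemma LLN_union {Ω : Type} [MeasurableSpace Ω] {μ : Measure Ω} {A B : Set Ω} {p q : ℝ}
    (hp : 0 ≤ p) (hq : 0 ≤ q) (hA : μ A ≤ ENNReal.ofReal p) (hB : μ B ≤ ENNReal.ofReal q) :
    μ (A ∪ B) ≤ ENNReal.ofReal (p + q) := by
  rw [ENNReal.ofReal_add hp hq]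
  exact (measure_union_le A B).trans (add_le_add hA hB)

private lemma LLN_meas_sum {Ω : Type} [MeasurableSpace Ω] {μ : Measure Ω} {X : ℕ × ℕ → Ω → ℝ}
    {r : ℕ × ℕ → ℝ} (h : ExpFam μ X r) (S : Finset (ℕ × ℕ)) :
    Measurable fun ω => ∑ c ∈ S, X c ω := by
  have h1 := h.meas
  fun_prop

private lemma LLN_meas_lpp {Ω : Type} [MeasurableSpace Ω] {μ : Measure Ω} {X : ℕ × ℕ → Ω → ℝ}
    {r : ℕ × ℕ → ℝ} (h : ExpFam μ X r) (i j : ℕ) :
    Measurable fun ω => lpp (fun c => X c ω) i j :=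
  (measurable_lpp i j).comp (measurable_pi_lambda _ h.meas)

private lemma LLN_mgf {Ω : Type} [MeasurableSpace Ω] {μ : Measure Ω} {X : ℕ × ℕ → Ω → ℝ}
    {r : ℕ × ℕ → ℝ} (h : ExpFam μ X r) {l θ : ℝ} (hl : 0 < l) (hθ : θ < l) (S : Finset (ℕ × ℕ))
    (hS : ∀ c ∈ S, r c = l) :
    ∫⁻ ω, ENNReal.ofReal (Real.exp (θ * ∑ c ∈ S, X c ω)) ∂μ =
      ENNReal.ofReal ((l / (l - θ)) ^ S.card) := by
  have h1 : 0 ≤ l / (l - θ) := div_nonneg hl.le (sub_pos.2 hθ).le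
  rw [h.sum_mgf S θ fun c hc => by rw [hS c hc]; exact hθ,
    Finset.prod_congr rfl fun c hc => by rw [hS c hc], Finset.prod_const, ENNReal.ofReal_pow h1]

private lemma LLN_sum_up {l η p : ℝ} (hl : 0 < l) (hη : 0 < η) (hp : 0 < p) : ∃ m₀ : ℕ, ∀ m ≥ m₀,
    ∀ (Ω : Type) [MeasurableSpace Ω] (μ : Measure Ω) (X : ℕ × ℕ → Ω → ℝ) (r : ℕ × ℕ → ℝ),
      ExpFam μ X r → ∀ S : Finset (ℕ × ℕ), (∀ c ∈ S, r c = l) → S.card ≤ m + 2 →
      μ {ω | (1 / l + η) * m ≤ ∑ c ∈ S, X c ω} ≤ ENNReal.ofReal p := by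
  obtain ⟨m₀, h⟩ := tail_up hl hη hp
  refine ⟨m₀, fun m hm Ω _ μ X r hX S hS hc => h m hm Ω μ _ (LLN_meas_sum hX S)
    fun θ h0 h1 => ?_⟩
  rw [LLN_mgf hX hl h1 S hS]
  refine ENNReal.ofReal_le_ofReal (pow_le_pow_right₀ ?_ hc)
  rw [one_le_div (by linarith)]
  linarith

private lemma LLN_sum_dn {l η p : ℝ} (hl : 0 < l) (hη : 0 < η) (hp : 0 < p) : ∃ m₀ : ℕ, ∀ m ≥ m₀,
    ∀ (Ω : Type) [MeasurableSpace Ω] (μ : Measure Ω) (X : ℕ × ℕ → Ω → ℝ) (r : ℕ × ℕ → ℝ),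
      ExpFam μ X r → ∀ S : Finset (ℕ × ℕ), (∀ c ∈ S, r c = l) → m ≤ S.card →
      μ {ω | ∑ c ∈ S, X c ω ≤ (1 / l - η) * m} ≤ ENNReal.ofReal p := by
  obtain ⟨m₀, h⟩ := tail_dn hl hη hp
  refine ⟨m₀, fun m hm Ω _ μ X r hX S hS hc => h m hm Ω μ _ (LLN_meas_sum hX S)
    fun θ h0 => ?_⟩
  have h1 := LLN_mgf hX hl (show -θ < l by linarith) S hS
  rw [sub_neg_eq_add] at h1
  have h2 : ∀ ω, -(θ * ∑ c ∈ S, X c ω) = -θ * ∑ c ∈ S, X c ω := fun ω => by ring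
  simp_rw [h2]
  rw [h1]
  refine ENNReal.ofReal_le_ofReal (pow_le_pow_of_le_one (by positivity) ?_ hc)
  rw [div_le_one (by linarith)]
  linarith

private lemma LLN_col (w : ℕ × ℕ → ℝ) (j : ℕ) :
    lpp w 0 j = ∑ c ∈ (Finset.range (j + 1)).image (Prod.mk 0), w c := by
  rw [lpp_zero_left, Finset.sum_image]
  intro x _ y _ h
  exact congrArg Prod.snd h

private lemma LLN_col_card (j : ℕ) :
    ((Finset.range (j + 1)).image (Prod.mk 0 : ℕ → ℕ × ℕ)).card = j + 1 := by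
  rw [Finset.card_image_of_injective _ (fun x y h => congrArg Prod.snd h), Finset.card_range]

private lemma LLN_stat_up {a b η p : ℝ} (ha : 0 < a) (hb : 0 < b) (hab : a + b = 1) (hη : 0 < η)
    (hp : 0 < p) : ∃ m₀ : ℕ, ∀ m ≥ m₀,
    ∀ (Ω : Type) [MeasurableSpace Ω] (μ : Measure Ω) (X : ℕ × ℕ → Ω → ℝ),
      ExpFam μ X (statRate a b) →
      μ {ω | (1 / a + 1 / b + 2 * η) * m ≤ lpp (fun c => X c ω) (m + 1) (m + 1)} ≤
        ENNReal.ofReal (p + p) := by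
  obtain ⟨m₁, h1⟩ := LLN_sum_up ha hη hp
  obtain ⟨m₂, h2⟩ := tail_up hb hη hp
  refine ⟨max m₁ m₂, fun m hm Ω _ μ X hX => ?_⟩
  have e1 := h1 m (le_of_max_le_left hm) Ω μ X (statRate a b) hX
    ((Finset.range (m + 1 + 1)).image (Prod.mk 0)) (fun c hc => by
      obtain ⟨j, _, rfl⟩ := Finset.mem_image.1 hc
      exact if_pos rfl) (by rw [LLN_col_card])
  have e2 := h2 m (le_of_max_le_right hm) Ω μ
    (fun ω => lpp (fun c => X c ω) (m + 1) (m + 1) - lpp (fun c => X c ω) 0 (m + 1))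
    ((LLN_meas_lpp hX _ _).sub (LLN_meas_lpp hX _ _)) (fun θ h0 h1 => by
      rw [stat_mgf ha hb hab hX (m + 1) (m + 1) h1]
      refine ENNReal.ofReal_le_ofReal (pow_le_pow_right₀ ?_ (by omega))
      rw [one_le_div (by linarith)]
      linarith)
  refine (measure_mono ?_).trans (LLN_union hp.le hp.le e1 e2)
  intro ω hω
  by_contra hn
  have n1 : ∑ c ∈ (Finset.range (m + 1 + 1)).image (Prod.mk 0), X c ω < (1 / a + η) * m :=
    not_le.1 fun h => hn (Or.inl h)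
  have n2 : lpp (fun c => X c ω) (m + 1) (m + 1) - lpp (fun c => X c ω) 0 (m + 1) <
      (1 / b + η) * m := not_le.1 fun h => hn (Or.inr h)
  have n3 : (1 / a + 1 / b + 2 * η) * m ≤ lpp (fun c => X c ω) (m + 1) (m + 1) := hω
  rw [← LLN_col (fun c => X c ω)] at n1
  linarith

private lemma LLN_stat_dn {a b η p : ℝ} (ha : 0 < a) (hb : 0 < b) (hab : a + b = 1) (hη : 0 < η)
    (hp : 0 < p) : ∃ m₀ : ℕ, ∀ m ≥ m₀,
    ∀ (Ω : Type) [MeasurableSpace Ω] (μ : Measure Ω) (X : ℕ × ℕ → Ω → ℝ),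
      ExpFam μ X (statRate a b) →
      μ {ω | lpp (fun c => X c ω) (m + 1) (m + 1) ≤ (1 / a + 1 / b - 2 * η) * m} ≤
        ENNReal.ofReal (p + p) := by
  obtain ⟨m₁, h1⟩ := LLN_sum_dn ha hη hp
  obtain ⟨m₂, h2⟩ := tail_dn hb hη hp
  refine ⟨max m₁ m₂, fun m hm Ω _ μ X hX => ?_⟩
  have e1 := h1 m (le_of_max_le_left hm) Ω μ X (statRate a b) hX
    ((Finset.range (m + 1 + 1)).image (Prod.mk 0)) (fun c hc => by
      obtain ⟨j, _, rfl⟩ := Finset.mem_image.1 hc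
      exact if_pos rfl) (by rw [LLN_col_card]; omega)
  have e2 := h2 m (le_of_max_le_right hm) Ω μ
    (fun ω => lpp (fun c => X c ω) (m + 1) (m + 1) - lpp (fun c => X c ω) 0 (m + 1))
    ((LLN_meas_lpp hX _ _).sub (LLN_meas_lpp hX _ _)) (fun θ h0 => by
      have h3 := stat_mgf ha hb hab hX (m + 1) (m + 1) (show -θ < b by linarith)
      rw [sub_neg_eq_add] at h3
      have h4 : ∀ ω, -(θ * (lpp (fun c => X c ω) (m + 1) (m + 1) -
          lpp (fun c => X c ω) 0 (m + 1))) = -θ * (lpp (fun c => X c ω) (m + 1) (m + 1) -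
          lpp (fun c => X c ω) 0 (m + 1)) := fun ω => by ring
      simp_rw [h4]
      rw [h3]
      refine ENNReal.ofReal_le_ofReal (pow_le_pow_of_le_one (by positivity) ?_ (by omega))
      rw [div_le_one (by linarith)]
      linarith)
  refine (measure_mono ?_).trans (LLN_union hp.le hp.le e1 e2)
  intro ω hω
  by_contra hn
  have n1 : (1 / a - η) * m < ∑ c ∈ (Finset.range (m + 1 + 1)).image (Prod.mk 0), X c ω :=
    not_le.1 fun h => hn (Or.inl h)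
  have n2 : (1 / b - η) * m < lpp (fun c => X c ω) (m + 1) (m + 1) -
      lpp (fun c => X c ω) 0 (m + 1) := not_le.1 fun h => hn (Or.inr h)
  have n3 : lpp (fun c => X c ω) (m + 1) (m + 1) ≤ (1 / a + 1 / b - 2 * η) * m := hω
  rw [← LLN_col (fun c => X c ω)] at n1
  linarith

private lemma LLN_zero {η p : ℝ} (hη : 0 < η) (hp : 0 < p) : ∃ m₀ : ℕ, ∀ m ≥ m₀,
    ∀ (Ω : Type) [MeasurableSpace Ω] (μ : Measure Ω) (X : ℕ × ℕ → Ω → ℝ) (r : ℕ × ℕ → ℝ),
      ExpFam μ X r → r (0, 0) = 1 / 2 →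
      μ {ω | η * m ≤ X (0, 0) ω} ≤ ENNReal.ofReal p := by
  obtain ⟨m₀, hm₀⟩ := exists_nat_gt (8 / (η * p))
  refine ⟨m₀, fun m hm Ω _ μ X r hX hr => ?_⟩
  have h1 := chernoff (μ := μ) (hX.meas (0, 0)) (θ := 1 / 4) (s := η * m) (by norm_num)
  have h2 := LLN_mgf hX (l := 1 / 2) (θ := 1 / 4) (by norm_num) (by norm_num) {(0, 0)}
    (fun c hc => by rw [Finset.mem_singleton.1 hc, hr])
  simp only [Finset.sum_singleton, Finset.card_singleton] at h2
  rw [h2, ← ENNReal.ofReal_mul (Real.exp_pos _).le] at h1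
  refine h1.trans (ENNReal.ofReal_le_ofReal ?_)
  have h3 : 8 / (η * p) < m := hm₀.trans_le (by exact_mod_cast hm)
  rw [div_lt_iff₀ (by positivity)] at h3
  have h4 : 0 < η * (m : ℝ) := by
    by_contra hc
    nlinarith
  have h5 : (1 / 4 * (η * m)) * Real.exp (-(1 / 4 * (η * (m : ℝ)))) ≤ 1 := by
    have h6 := Real.add_one_le_exp (1 / 4 * (η * (m : ℝ)))
    have h7 : Real.exp (1 / 4 * (η * (m : ℝ))) * Real.exp (-(1 / 4 * (η * (m : ℝ)))) = 1 := by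
      rw [← Real.exp_add, add_neg_cancel, Real.exp_zero]
    have h8 := Real.exp_pos (-(1 / 4 * (η * (m : ℝ))))
    nlinarith
  have h6 := Real.exp_pos (-(1 / 4 * (η * (m : ℝ))))
  norm_num
  norm_num at h5 h6
  nlinarith

private lemma LLN_num {d η s : ℝ} (hd : 0 < d) (hd' : d ≤ 1 / 2) (hs : s = d / 8)
    (hη : η = d ^ 2 / 100) :
    (1 / (1 / 2 + s) + 1 / (1 / 2 - s)) + 5 * η ≤ 4 + 2 * s / (1 - 2 * s) * (2 - η) * d := by
  have h1 : 1 / (1 / 2 + s) + 1 / (1 / 2 - s) ≤ 4 + 13 / 50 * d ^ 2 := by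
    have e1 : 0 < 1 / 2 + s := by linarith
    have e2 : 0 < 1 / 2 - s := by linarith
    rw [div_add_div _ _ e1.ne' e2.ne', div_le_iff₀ (mul_pos e1 e2)]
    subst hs
    nlinarith [mul_pos hd hd, mul_pos (mul_pos hd hd) (mul_pos hd hd),
      mul_le_mul hd' hd' hd.le (by norm_num)]
  have h2 : d / 4 ≤ 2 * s / (1 - 2 * s) := by
    rw [le_div_iff₀ (by linarith)]
    subst hs
    nlinarith [mul_pos hd hd]
  have h3 : d ^ 2 ≤ 1 / 4 := by nlinarith
  have h4 : 0 ≤ (2 - η) * d := mul_nonneg (by rw [hη]; linarith) hd.le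
  have h5 := mul_le_mul_of_nonneg_right h2 h4
  have h6 : d / 4 * ((2 - η) * d) = d ^ 2 / 2 - η * d ^ 2 / 4 := by ring
  have h7 : η * d ^ 2 / 4 ≤ d ^ 2 / 1000 := by
    rw [hη]
    nlinarith [sq_nonneg d]
  rw [h6] at h5
  rw [mul_assoc (2 * s / (1 - 2 * s))]
  nlinarith

/-- the arithmetic of the good event -/
private lemma LLN_end {ε d s η k m L P M I H V Z : ℝ} (hε : 0 < ε) (hd0 : 0 < d)
    (hd1 : d ≤ 1 / 2) (hd2 : d ≤ ε / 8) (hs0 : 0 < s) (hs1 : s < 1 / 2) (hη0 : 0 < η)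
    (hη1 : η ≤ ε / 8) (hη2 : η ≤ 1)
    (hnum : (1 / (1 / 2 + s) + 1 / (1 / 2 - s)) + 5 * η ≤ 4 + 2 * s / (1 - 2 * s) * (2 - η) * d)
    (hk1 : d * m ≤ k) (hk2 : k ≤ d * m + 1) (hm2 : 28 / ε ≤ m) (hm3 : 1 ≤ m)
    (n1 : (2 + 2 - 2 * η) * m < L)
    (n2 : P < (1 / (1 / 2 + s) + 1 / (1 / 2 - s) + 2 * η) * m)
    (n3 : M < (1 / (1 / 2 + s) + 1 / (1 / 2 - s) + 2 * η) * m) (n4 : Z < η * m)
    (n5 : H < (2 + η) * k) (n6 : V < (2 + η) * k) (n7 : (2 - η) * k < H) (n8 : (2 - η) * k < V)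
    (hlt : I < (4 - ε) * (m + 1))
    (hex : L ≤ Z + max (I + max H V)
      (max (P - 2 * s / (1 - 2 * s) * H) (M - 2 * s / (1 - 2 * s) * V))) : False := by
  have hT : 0 < 2 * s / (1 - 2 * s) := div_pos (by linarith) (by linarith)
  have hm0 : 0 < m := by linarith
  have e1 := mul_le_mul_of_nonneg_right hnum hm0.le
  have e2 : (2 - η) * (d * m) ≤ (2 - η) * k := mul_le_mul_of_nonneg_left hk1 (by linarith)
  have e3 : 2 * s / (1 - 2 * s) * ((2 - η) * (d * m)) ≤ 2 * s / (1 - 2 * s) * H :=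
    mul_le_mul_of_nonneg_left (by linarith) hT.le
  have e4 : 2 * s / (1 - 2 * s) * ((2 - η) * (d * m)) ≤ 2 * s / (1 - 2 * s) * V :=
    mul_le_mul_of_nonneg_left (by linarith) hT.le
  have e5 : 2 * s / (1 - 2 * s) * ((2 - η) * (d * m)) = 2 * s / (1 - 2 * s) * (2 - η) * d * m := by
    ring
  rw [e5] at e3 e4
  have h1 : L - Z ≤ max (I + max H V)
      (max (P - 2 * s / (1 - 2 * s) * H) (M - 2 * s / (1 - 2 * s) * V)) := by linarith
  rcases le_max_iff.1 h1 with h2 | h2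
  · have h3 : max H V < (2 + η) * k := max_lt n5 n6
    have h4 : (2 + η) * k ≤ (2 + η) * (d * m + 1) := mul_le_mul_of_nonneg_left hk2 (by linarith)
    have h5 : (2 + η) * d ≤ 3 * (ε / 8) := mul_le_mul (by linarith) hd2 hd0.le (by norm_num)
    have h6 := mul_le_mul_of_nonneg_right h5 hm0.le
    have h7 := mul_le_mul_of_nonneg_right hη1 hm0.le
    have h8 : 28 ≤ m * ε := (div_le_iff₀ hε).1 hm2
    nlinarith
  · rcases le_max_iff.1 h2 with h3 | h3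
    · nlinarith
    · nlinarith

/-- Rost's lower bound: the last passage time of a large square of side `l` is at least
`(4 - ε) l` with probability at least `1 - p`. -/
lemma lln {ε p : ℝ} (hε : 0 < ε) (hp : 0 < p) : ∃ l : ℕ, 1 ≤ l ∧
    ∀ (Ω : Type) [MeasurableSpace Ω] (μ : Measure Ω) (X : ℕ × ℕ → Ω → ℝ),
      ExpFam μ X (fun _ => 1) →
      μ {ω | lpp (fun c => X c ω) (l - 1) (l - 1) < (4 - ε) * l} ≤ ENNReal.ofReal p := by
  obtain ⟨d, hd⟩ : ∃ d, d = min (ε / 8) (1 / 2) := ⟨_, rfl⟩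
  have hd0 : 0 < d := by
    rw [hd]
    exact lt_min (by positivity) (by norm_num)
  have hd1 : d ≤ 1 / 2 := by
    rw [hd]
    exact min_le_right _ _
  have hd2 : d ≤ ε / 8 := by
    rw [hd]
    exact min_le_left _ _
  obtain ⟨s, hs⟩ : ∃ s, s = d / 8 := ⟨_, rfl⟩
  obtain ⟨η, hη⟩ : ∃ η, η = d ^ 2 / 100 := ⟨_, rfl⟩
  obtain ⟨q, hq⟩ : ∃ q, q = p / 11 := ⟨_, rfl⟩
  have hs0 : 0 < s := by rw [hs]; positivity
  have hs1 : s < 1 / 2 := by rw [hs]; linarith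
  have hη0 : 0 < η := by rw [hη]; positivity
  have hq0 : 0 < q := by rw [hq]; positivity
  have hnum := LLN_num hd0 hd1 hs hη
  have hη1 : η ≤ ε / 8 := by
    rw [hη]
    nlinarith
  have hη2 : η ≤ 1 := by
    rw [hη]
    nlinarith
  have ha : 0 < 1 / 2 + s := by linarith
  have hb : 0 < 1 / 2 - s := by linarith
  obtain ⟨m₁, h1⟩ := LLN_stat_dn (a := 1 / 2) (b := 1 / 2) (by norm_num) (by norm_num)
    (by norm_num) hη0 hq0
  obtain ⟨m₂, h2⟩ := LLN_stat_up ha hb (by ring) hη0 hq0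
  obtain ⟨m₃, h3⟩ := LLN_stat_up hb ha (by ring) hη0 hq0
  obtain ⟨m₄, h4⟩ := LLN_zero hη0 hq0
  obtain ⟨k₁, h5⟩ := LLN_sum_up (l := 1 / 2) (by norm_num) hη0 hq0
  obtain ⟨k₂, h6⟩ := LLN_sum_dn (l := 1 / 2) (by norm_num) hη0 hq0
  obtain ⟨m, hm⟩ : ∃ m, m = m₁ + m₂ + m₃ + m₄ + ⌈((k₁ + k₂ : ℕ) : ℝ) / d⌉₊ + ⌈28 / ε⌉₊ + 1 :=
    ⟨_, rfl⟩
  have hm1 : ((k₁ + k₂ : ℕ) : ℝ) ≤ d * m := by
    have e1 := Nat.le_ceil (((k₁ + k₂ : ℕ) : ℝ) / d)
    have e2 : (⌈((k₁ + k₂ : ℕ) : ℝ) / d⌉₊ : ℝ) ≤ m := by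
      exact_mod_cast (by omega : ⌈((k₁ + k₂ : ℕ) : ℝ) / d⌉₊ ≤ m)
    have e3 := e1.trans e2
    rw [div_le_iff₀ hd0] at e3
    linarith
  have hm2 : 28 / ε ≤ m := by
    have e1 := Nat.le_ceil (28 / ε)
    have e2 : (⌈28 / ε⌉₊ : ℝ) ≤ m := by
      exact_mod_cast (by omega : ⌈28 / ε⌉₊ ≤ m)
    exact e1.trans e2
  have hm3 : (1 : ℝ) ≤ m := by exact_mod_cast (by omega : 1 ≤ m)
  obtain ⟨k, hk⟩ : ∃ k, k = ⌈d * (m : ℝ)⌉₊ := ⟨_, rfl⟩
  have hk1 : d * m ≤ k := by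
    rw [hk]
    exact Nat.le_ceil _
  have hk2 : (k : ℝ) ≤ d * m + 1 := by
    rw [hk]
    exact (Nat.ceil_lt_add_one (by positivity)).le
  have hk3 : k₁ + k₂ ≤ k := by exact_mod_cast hm1.trans hk1
  refine ⟨m + 1, by omega, fun Ω _ μ X hX => ?_⟩
  rw [Nat.add_sub_cancel]
  obtain ⟨ν, hν⟩ := exists_expFam (statRate (1 / 2) (1 / 2)) fun c => by
    unfold statRate
    split_ifs <;> norm_num
  -- the interior
  have hint : ExpFam ν (fun c ω => ω (c.1 + 1, c.2 + 1)) (fun _ => 1) := by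
    have e1 := hν.precomp (fun c => (c.1 + 1, c.2 + 1)) (fun x y h => by
      have e2 := congrArg Prod.fst h
      have e3 := congrArg Prod.snd h
      exact Prod.ext (Nat.succ_injective e2) (Nat.succ_injective e3))
    have e4 : (fun c : ℕ × ℕ => statRate (1 / 2) (1 / 2) (c.1 + 1, c.2 + 1)) = fun _ => 1 := by
      funext c
      unfold statRate
      rw [if_neg (Nat.succ_ne_zero _), if_neg (Nat.succ_ne_zero _)]
    rw [e4] at e1
    exact e1
  have hA : MeasurableSet {w : ℕ × ℕ → ℝ | lpp w m m < (4 - ε) * ((m + 1 : ℕ) : ℝ)} :=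
    measurableSet_lt (measurable_lpp m m) measurable_const
  have hlaw := hX.law_eq hint hA
  have hgoal : μ {ω | lpp (fun c => X c ω) m m < (4 - ε) * ((m + 1 : ℕ) : ℝ)} =
      ν {ω | lpp (fun c : ℕ × ℕ => ω (c.1 + 1, c.2 + 1)) m m < (4 - ε) * ((m + 1 : ℕ) : ℝ)} := hlaw
  rw [hgoal]
  -- the scaled families
  have hP : ExpFam ν (fun c ω => bdP s c * ω c) (statRate (1 / 2 + s) (1 / 2 - s)) := by
    have e1 := hν.scale (bdP s) fun c => by
      unfold bdP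
      split_ifs
      · exact div_pos one_pos (by linarith)
      · exact div_pos one_pos (by linarith)
      · exact one_pos
    have e4 : (fun c : ℕ × ℕ => statRate (1 / 2) (1 / 2) c / bdP s c) =
        statRate (1 / 2 + s) (1 / 2 - s) := by
      funext c
      unfold statRate bdP
      split_ifs
      · rw [div_div_eq_mul_div, div_one]
        ring
      · rw [div_div_eq_mul_div, div_one]
        ring
      · rw [div_one]
    rw [e4] at e1
    exact e1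
  have hM : ExpFam ν (fun c ω => bdM s c * ω c) (statRate (1 / 2 - s) (1 / 2 + s)) := by
    have e1 := hν.scale (bdM s) fun c => by
      unfold bdM
      split_ifs
      · exact div_pos one_pos (by linarith)
      · exact div_pos one_pos (by linarith)
      · exact one_pos
    have e4 : (fun c : ℕ × ℕ => statRate (1 / 2) (1 / 2) c / bdM s c) =
        statRate (1 / 2 - s) (1 / 2 + s) := by
      funext c
      unfold statRate bdM
      split_ifs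
      · rw [div_div_eq_mul_div, div_one]
        ring
      · rw [div_div_eq_mul_div, div_one]
        ring
      · rw [div_one]
    rw [e4] at e1
    exact e1
  -- the bad events
  have b1 := h1 m (by omega) _ ν _ hν
  have b2 := h2 m (by omega) _ ν _ hP
  have b3 := h3 m (by omega) _ ν _ hM
  have b4 := h4 m (by omega) _ ν _ _ hν (if_pos rfl)
  obtain ⟨SH, hSH⟩ : ∃ S : Finset (ℕ × ℕ), S = (Finset.Icc 1 k).image fun i => (i, 0) := ⟨_, rfl⟩
  obtain ⟨SV, hSV⟩ : ∃ S : Finset (ℕ × ℕ), S = (Finset.Icc 1 k).image fun j => (0, j) := ⟨_, rfl⟩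
  have iH : Function.Injective fun i : ℕ => (i, 0) := fun x y h => congrArg Prod.fst h
  have iV : Function.Injective fun j : ℕ => (0, j) := fun x y h => congrArg Prod.snd h
  have cH : SH.card = k := by
    rw [hSH, Finset.card_image_of_injective _ iH, Nat.card_Icc]
    omega
  have cV : SV.card = k := by
    rw [hSV, Finset.card_image_of_injective _ iV, Nat.card_Icc]
    omega
  have rH : ∀ c ∈ SH, statRate (1 / 2) (1 / 2) c = 1 / 2 := by
    intro c hc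
    rw [hSH] at hc
    obtain ⟨i, hi, rfl⟩ := Finset.mem_image.1 hc
    unfold statRate
    split_ifs <;> first | rfl | simp_all
  have rV : ∀ c ∈ SV, statRate (1 / 2) (1 / 2) c = 1 / 2 := by
    intro c hc
    rw [hSV] at hc
    obtain ⟨j, hj, rfl⟩ := Finset.mem_image.1 hc
    exact if_pos rfl
  have sH : ∀ w : ℕ × ℕ → ℝ, ∑ c ∈ SH, w c = ∑ i ∈ Finset.Icc 1 k, w (i, 0) := by
    intro w
    rw [hSH, Finset.sum_image fun x _ y _ h => iH h]
  have sV : ∀ w : ℕ × ℕ → ℝ, ∑ c ∈ SV, w c = ∑ j ∈ Finset.Icc 1 k, w (0, j) := by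
    intro w
    rw [hSV, Finset.sum_image fun x _ y _ h => iV h]
  have b5 := h5 k (by omega) _ ν _ _ hν SH rH (by omega)
  have b6 := h5 k (by omega) _ ν _ _ hν SV rV (by omega)
  have b7 := h6 k (by omega) _ ν _ _ hν SH rH cH.ge
  have b8 := h6 k (by omega) _ ν _ _ hν SV rV cV.ge
  have hb := LLN_union (by positivity) (by positivity) b1 (LLN_union (by positivity)
    (by positivity) b2 (LLN_union (by positivity) (by positivity) b3 (LLN_union (by positivity)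
    (by positivity) b4 (LLN_union (by positivity) (by positivity) b5 (LLN_union (by positivity)
    (by positivity) b6 (LLN_union (by positivity) (by positivity) b7 b8))))))
  have hsum : q + q + (q + q + (q + q + (q + (q + (q + (q + q)))))) = p := by
    rw [hq]
    ring
  rw [hsum] at hb
  refine (measure_mono_ae ?_).trans hb
  filter_upwards [hν.nonneg] with ω hω hlt
  by_contra hn
  have hlt' : lpp (fun c : ℕ × ℕ => ω (c.1 + 1, c.2 + 1)) m m < (4 - ε) * ((m + 1 : ℕ) : ℝ) := hlt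
  have n1 : (1 / (1 / 2) + 1 / (1 / 2) - 2 * η) * m < lpp (fun c => ω c) (m + 1) (m + 1) :=
    not_le.1 fun h => hn (Or.inl h)
  have n2 : lpp (fun c => bdP s c * ω c) (m + 1) (m + 1) <
      (1 / (1 / 2 + s) + 1 / (1 / 2 - s) + 2 * η) * m :=
    not_le.1 fun h => hn (Or.inr (Or.inl h))
  have n3 : lpp (fun c => bdM s c * ω c) (m + 1) (m + 1) <
      (1 / (1 / 2 - s) + 1 / (1 / 2 + s) + 2 * η) * m :=
    not_le.1 fun h => hn (Or.inr (Or.inr (Or.inl h)))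
  have n4 : ω (0, 0) < η * m :=
    not_le.1 fun h => hn (Or.inr (Or.inr (Or.inr (Or.inl h))))
  have n5 : ∑ c ∈ SH, ω c < (1 / (1 / 2) + η) * k :=
    not_le.1 fun h => hn (Or.inr (Or.inr (Or.inr (Or.inr (Or.inl h)))))
  have n6 : ∑ c ∈ SV, ω c < (1 / (1 / 2) + η) * k :=
    not_le.1 fun h => hn (Or.inr (Or.inr (Or.inr (Or.inr (Or.inr (Or.inl h))))))
  have n7 : (1 / (1 / 2) - η) * k < ∑ c ∈ SH, ω c :=
    not_le.1 fun h => hn (Or.inr (Or.inr (Or.inr (Or.inr (Or.inr (Or.inr (Or.inl h)))))))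
  have n8 : (1 / (1 / 2) - η) * k < ∑ c ∈ SV, ω c :=
    not_le.1 fun h => hn (Or.inr (Or.inr (Or.inr (Or.inr (Or.inr (Or.inr (Or.inr h)))))))
  rw [sH] at n5 n7
  rw [sV] at n6 n8
  have hex := exit_le hω hs0 hs1 k m
  rw [show (fun c => ω c) = ω from rfl] at n1
  rw [one_div_one_div] at n1 n5 n6 n7 n8
  exact LLN_end hε hd0 hd1 hd2 hs0 hs1 hη0 hη1 hη2 hnum hk1 hk2 hm2 hm3 n1 n2
    (by rw [add_comm (1 / (1 / 2 + s))]; exact n3) n4 n5 n6 n7 n8
    (by push_cast at hlt'; exact hlt') hex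

end Pool.Agent.FX
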