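import Pool.Agent.FX.Lpp

/-! # Paths and last passage times -/

namespace Pool.Agent.FX

variable {N : ℕ} {v : ℕ → Fin (N + 1) × Fin (N + 1)}

lemma IsPath.antidiag (h : IsPath N v) {k : ℕ} (hk : k ≤ 2 * N) :
    (v k).1.val + (v k).2.val = k := by
  induction k with
  | zero => simp [h.start]
  | succ k ih =>
    have i := ih (by omega)
    rcases h.step k (by omega) with ⟨a, b⟩ | ⟨a, b⟩
    · rw [a, b]; omega
    · rw [a, b]; omega

private lemma ext_val (ω : Env N) (c : Fin (N + 1) × Fin (N + 1)) :
    ext ω (c.1.val, c.2.val) = ω c := by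
  simp [ext, c.1.isLt, c.2.isLt]

private lemma lpp_right (w : ℕ × ℕ → ℝ) (i j : ℕ) : lpp w i j + w (i + 1, j) ≤ lpp w (i + 1) j := by
  cases j with
  | zero => simp [lpp]
  | succ j => rw [lpp]; linarith [le_max_left (lpp w i (j + 1)) (lpp w (i + 1) j)]

private lemma lpp_up (w : ℕ × ℕ → ℝ) (i j : ℕ) : lpp w i j + w (i, j + 1) ≤ lpp w i (j + 1) := by
  cases i with
  | zero => simp [lpp]
  | succ i => rw [lpp]; linarith [le_max_right (lpp w i (j + 1)) (lpp w (i + 1) j)]

private lemma partial_le (h : IsPath N v) (ω : Env N) {k : ℕ} (hk : k ≤ 2 * N) :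
    ∑ l ∈ Finset.range (k + 1), ω (v l) ≤ lpp (ext ω) (v k).1.val (v k).2.val := by
  induction k with
  | zero =>
    have h0 := ext_val ω (v 0)
    rw [h.start] at h0 ⊢
    simp only [zero_add, Finset.range_one, Finset.sum_singleton, h.start]
    simp only [Fin.val_zero, lpp] at h0 ⊢
    rw [h0]
  | succ k ih =>
    have i := ih (by omega)
    rw [Finset.sum_range_succ, ← ext_val ω (v (k + 1))]
    rcases h.step k (by omega) with ⟨a, b⟩ | ⟨a, b⟩
    · rw [a, b]
      linarith [lpp_right (ext ω) (v k).1.val (v k).2.val]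
    · rw [a, b]
      linarith [lpp_up (ext ω) (v k).1.val (v k).2.val]

lemma IsPath.len_le (h : IsPath N v) (ω : Env N) : len N v ω ≤ lpp (ext ω) N N := by
  have := partial_le h ω (le_refl (2 * N))
  rw [h.stop] at this
  simpa [len] using this

private lemma exists_seq (w : ℕ × ℕ → ℝ) (n : ℕ) : ∀ i j : ℕ, i + j = n →
    ∃ f : ℕ → ℕ × ℕ, f 0 = (0, 0) ∧ f n = (i, j) ∧
      (∀ k < n, f (k + 1) = ((f k).1 + 1, (f k).2) ∨ f (k + 1) = ((f k).1, (f k).2 + 1)) ∧
      ∑ k ∈ Finset.range (n + 1), w (f k) = lpp w i j := by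
  induction n with
  | zero =>
    intro i j hij
    obtain rfl : i = 0 := by omega
    obtain rfl : j = 0 := by omega
    exact ⟨fun _ => (0, 0), rfl, rfl, fun k hk => absurd hk (by omega), by simp [lpp]⟩
  | succ n ih =>
    intro i j hij
    have key : ∃ i' j', i' + j' = n ∧ ((i, j) = (i' + 1, j') ∨ (i, j) = (i', j' + 1)) ∧
        lpp w i j = lpp w i' j' + w (i, j) := by
      rcases i with _ | i
      · rcases j with _ | j
        · omega
        · exact ⟨0, j, by omega, Or.inr rfl, by simp [lpp]⟩
      · rcases j with _ | j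
        · exact ⟨i, 0, by omega, Or.inl rfl, by simp [lpp]⟩
        · rcases le_total (lpp w i (j + 1)) (lpp w (i + 1) j) with hle | hle
          · exact ⟨i + 1, j, by omega, Or.inr rfl, by rw [lpp, max_eq_right hle]⟩
          · exact ⟨i, j + 1, by omega, Or.inl rfl, by rw [lpp, max_eq_left hle]⟩
    obtain ⟨i', j', hs, hd, hl⟩ := key
    obtain ⟨f, f0, fn, fs, fsum⟩ := ih i' j' hs
    refine ⟨fun k => if k ≤ n then f k else (i, j), by simp [f0], by simp, ?_, ?_⟩
    · intro k hk
      rcases Nat.lt_or_ge k n with hkn | hkn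
      · have h1 : k ≤ n := hkn.le
        have h2 : k + 1 ≤ n := hkn
        simp only [h1, h2, if_true]
        exact fs k hkn
      · obtain rfl : k = n := by omega
        simp only [le_refl, if_true, show ¬ (k + 1 ≤ k) by omega, if_false, fn]
        exact hd
    · rw [Finset.sum_range_succ, hl, ← fsum]
      congr 1
      · refine Finset.sum_congr rfl fun k hk => ?_
        have : k ≤ n := by simpa [Nat.lt_succ_iff] using hk
        simp [this]
      · simp

lemma exists_path (N : ℕ) (ω : Env N) : ∃ v, IsPath N v ∧ len N v ω = lpp (ext ω) N N := by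
  obtain ⟨f, f0, fn, fs, fsum⟩ := exists_seq (ext ω) (2 * N) N N (by omega)
  have hmono : ∀ d k, k + d = 2 * N → (f k).1 ≤ N ∧ (f k).2 ≤ N := by
    intro d
    induction d with
    | zero =>
      intro k hk
      obtain rfl : k = 2 * N := by omega
      rw [fn]; simp
    | succ d ih =>
      intro k hk
      have := ih (k + 1) (by omega)
      rcases fs k (by omega) with e | e <;> rw [e] at this <;> simp only at this <;>
        constructor <;> omega
  have hb : ∀ k ≤ 2 * N, (f k).1 ≤ N ∧ (f k).2 ≤ N := fun k hk => hmono (2 * N - k) k (by omega)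
  refine ⟨fun k => (⟨min (f k).1 N, by omega⟩, ⟨min (f k).2 N, by omega⟩), ⟨?_, ?_, ?_⟩, ?_⟩
  · simp [f0]
  · simp [fn, Fin.last]
  · intro k hk
    have h1 := hb k hk.le
    have h2 := hb (k + 1) hk
    rcases fs k hk with e | e
    · left
      rw [e] at h2
      simp only at h2
      refine ⟨?_, ?_⟩
      · simp only [e]; omega
      · simp only [e]
    · right
      rw [e] at h2
      simp only at h2
      refine ⟨?_, ?_⟩
      · simp only [e]
      · simp only [e]; omega
  · rw [← fsum]
    unfold len
    refine Finset.sum_congr rfl fun k hk => ?_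
    have h1 := hb k (by simpa [Nat.lt_succ_iff] using hk)
    rw [← ext_val ω]
    simp only [min_eq_left h1.1, min_eq_left h1.2]

lemma isPath_corner (N : ℕ) : IsPath N (corner N) := by
  refine ⟨?_, ?_, ?_⟩
  · simp [corner]
  · ext <;> simp [corner, Fin.last] <;> omega
  · intro k hk
    simp only [corner, Fin.mk.injEq]
    rcases Nat.lt_or_ge k N with h | h
    · right; constructor <;> omega
    · left; constructor <;> omega

/-- A sufficient condition for the corner path to be a longest path. -/
lemma mem_cone_corner {N : ℕ} (hN : 1 ≤ N) {ω : Env N} (h : ∀ c, 0 ≤ ω c)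
    (hx : ∀ x, 1 ≤ x → x ≤ N → lpp (ext ω) x (N - 1) - lpp (ext ω) 0 (N - 1) ≤
      ∑ i ∈ Finset.range x, ext ω (i, N)) : ω ∈ cone N (corner N) := by
  classical
  refine ⟨h, fun v' hv => ?_⟩
  -- the length of the corner path
  have hcor : len N (corner N) ω =
      lpp (ext ω) 0 (N - 1) + ∑ i ∈ Finset.range (N + 1), ext ω (i, N) := by
    unfold len
    rw [lpp_zero_left, show N - 1 + 1 = N by omega, show 2 * N + 1 = N + (N + 1) by omega,
      Finset.sum_range_add]
    congr 1
    · refine Finset.sum_congr rfl fun k hk => ?_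
      have hk' : k < N := Finset.mem_range.1 hk
      rw [← ext_val ω (corner N k)]
      simp only [corner]
      congr 2 <;> omega
    · refine Finset.sum_congr rfl fun k hk => ?_
      have hk' : k < N + 1 := Finset.mem_range.1 hk
      rw [← ext_val ω (corner N (N + k))]
      simp only [corner]
      congr 2 <;> omega
  -- first time in the top row
  have hex : ∃ k, (v' k).2.val = N := ⟨2 * N, by rw [hv.stop]; rfl⟩
  set T := Nat.find hex with hT
  have hTN : (v' T).2.val = N := Nat.find_spec hex
  have hT2 : T ≤ 2 * N := Nat.find_min' hex (by rw [hv.stop]; rfl)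
  have hT1 : 1 ≤ T := by
    rcases Nat.eq_zero_or_pos T with h0 | h0
    · rw [h0, hv.start] at hTN
      simp at hTN
      omega
    · exact h0
  have hd := hv.antidiag hT2
  have hTlt : (v' (T - 1)).2.val ≠ N := Nat.find_min hex (by omega)
  have hstep := hv.step (T - 1) (by omega)
  rw [Nat.sub_add_cancel hT1] at hstep
  have hprev : (v' (T - 1)).1 = (v' T).1 ∧ (v' (T - 1)).2.val = N - 1 := by
    rcases hstep with ⟨a, b⟩ | ⟨a, b⟩
    · exfalso; apply hTlt; rw [← b]; exact hTN
    · exact ⟨a.symm, by omega⟩
  have hp := partial_le hv ω (k := T - 1) (by omega)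
  rw [Nat.sub_add_cancel hT1, hprev.1, hprev.2] at hp
  -- the part in the top row
  have htop : ∀ k, T ≤ k → k ≤ 2 * N → (v' k).2.val = N := by
    intro k hk
    induction k, hk using Nat.le_induction with
    | base => intro _; exact hTN
    | succ k hk ih =>
      intro hk2
      have i := ih (by omega)
      rcases hv.step k (by omega) with ⟨a, b⟩ | ⟨a, b⟩
      · rw [b]; exact i
      · have := (v' (k + 1)).2.isLt; omega
  set x := (v' T).1.val with hxdef
  have hxN : x ≤ N := by have := (v' T).1.isLt; omega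
  have hTx : T = x + N := by omega
  have hsum : len N v' ω = ∑ l ∈ Finset.range T, ω (v' l) +
      ∑ i ∈ Finset.range (N + 1 - x), ext ω (x + i, N) := by
    unfold len
    rw [show 2 * N + 1 = T + (N + 1 - x) by omega, Finset.sum_range_add]
    congr 1
    refine Finset.sum_congr rfl fun k hk => ?_
    have hk' : k < N + 1 - x := Finset.mem_range.1 hk
    have e1 := htop (T + k) (by omega) (by omega)
    have e2 := hv.antidiag (k := T + k) (by omega)
    rw [← ext_val ω (v' (T + k))]
    congr 2 <;> omega
  have htot : ∑ i ∈ Finset.range (N + 1), ext ω (i, N) =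
      ∑ i ∈ Finset.range x, ext ω (i, N) + ∑ i ∈ Finset.range (N + 1 - x), ext ω (x + i, N) := by
    rw [← Finset.sum_range_add]
    congr 2; omega
  rw [hsum, hcor, htot]
  rcases Nat.eq_zero_or_pos x with h0 | h0
  · rw [h0] at hp ⊢
    simp only [Finset.range_zero, Finset.sum_empty]
    linarith
  · have := hx x h0 hxN
    linarith

end Pool.Agent.FX
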