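import Pool.Agent.FX.Lower1
import Pool.Agent.FX.PathL
import Pool.Agent.FX.Expo2

/-! # The lower bound for the corner path -/

open MeasureTheory ProbabilityTheory

namespace Pool.Agent.FX

/-- The event for the tilted measure. -/
private def LowerG (N : ℕ) (e : ℝ) : Set (ℕ × ℕ → ℝ) :=
  {w | (∀ x, 1 ≤ x → x ≤ N → lpp w x (N - 1) - lpp w 0 (N - 1) -
    ∑ i ∈ Finset.Ico 1 x, w (i, N) ≤ e * N) ∧ ∑ c ∈ tset N, w c ≤ (4 + 2 * e) * N}

private lemma Lower_mem_tset {N : ℕ} {c : ℕ × ℕ} (h : c ∈ tset N) :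
    c.1 ≤ N ∧ c.2 ≤ N ∧ c ≠ (0, N) := by
  unfold tset at h
  rw [Finset.mem_union, Finset.mem_image, Finset.mem_image] at h
  rcases h with ⟨j, hj, rfl⟩ | ⟨i, hi, rfl⟩
  · have hj' := Finset.mem_range.1 hj
    refine ⟨Nat.zero_le _, hj'.le, fun h => ?_⟩
    have := congrArg Prod.snd h
    simp only at this
    omega
  · have hi' := Finset.mem_Icc.1 hi
    refine ⟨hi'.2, le_rfl, fun h => ?_⟩
    have := congrArg Prod.fst h
    simp only at this
    omega

private lemma LowerG_congr {N : ℕ} (hN : 1 ≤ N) {e : ℝ} {w w' : ℕ × ℕ → ℝ}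
    (h : ∀ a ≤ N, ∀ b ≤ N, (a, b) ≠ (0, N) → w (a, b) = w' (a, b)) (hw : w ∈ LowerG N e) :
    w' ∈ LowerG N e := by
  obtain ⟨h1, h2⟩ := hw
  have hl : ∀ x ≤ N, lpp w' x (N - 1) = lpp w x (N - 1) := by
    intro x hx
    refine lpp_congr fun a ha b hb => ?_
    refine (h a (by omega) b (by omega) fun hab => ?_).symm
    have := congrArg Prod.snd hab
    simp only at this
    omega
  refine ⟨fun x hx1 hxN => ?_, ?_⟩
  · rw [hl x hxN, hl 0 (Nat.zero_le _)]
    have h3 : ∑ i ∈ Finset.Ico 1 x, w' (i, N) = ∑ i ∈ Finset.Ico 1 x, w (i, N) := by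
      refine Finset.sum_congr rfl fun i hi => ?_
      have hi' := Finset.mem_Ico.1 hi
      refine (h i (by omega) N le_rfl fun hab => ?_).symm
      have := congrArg Prod.fst hab
      simp only at this
      omega
    rw [h3]
    exact h1 x hx1 hxN
  · have h3 : ∑ c ∈ tset N, w' c = ∑ c ∈ tset N, w c := by
      refine Finset.sum_congr rfl fun c hc => ?_
      obtain ⟨h4, h5, h6⟩ := Lower_mem_tset hc
      exact (h c.1 h4 c.2 h5 h6).symm
    rw [h3]
    exact h2

private lemma Lower_measG (N : ℕ) (e : ℝ) : MeasurableSet (LowerG N e) := by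
  unfold LowerG
  have h1 : ∀ x : ℕ, Measurable (fun w : ℕ × ℕ → ℝ => lpp w x (N - 1) - lpp w 0 (N - 1) -
      ∑ i ∈ Finset.Ico 1 x, w (i, N)) := by
    intro x
    refine ((measurable_lpp _ _).sub (measurable_lpp _ _)).sub ?_
    exact Finset.measurable_sum _ fun i _ => measurable_pi_apply _
  have h2 : Measurable (fun w : ℕ × ℕ → ℝ => ∑ c ∈ tset N, w c) :=
    Finset.measurable_sum _ fun c _ => measurable_pi_apply _
  simp only [Set.ofPred_and, Set.ofPred_forall]
  refine MeasurableSet.inter ?_ (measurableSet_le h2 measurable_const)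
  refine MeasurableSet.iInter fun x => MeasurableSet.iInter fun _ => MeasurableSet.iInter fun _ =>
    measurableSet_le (h1 x) measurable_const

private lemma Lower_ext_res {N : ℕ} (w : ℕ × ℕ → ℝ) {a b : ℕ} (ha : a ≤ N) (hb : b ≤ N) :
    ext (res N w) (a, b) = w (a, b) := by
  unfold ext
  rw [dif_pos ⟨Nat.lt_succ_of_le ha, Nat.lt_succ_of_le hb⟩]
  rfl

private lemma Lower_meas_ext {N : ℕ} : Measurable (fun η : Env N => ext η) := by
  rw [measurable_pi_iff]
  intro c
  unfold ext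
  by_cases h : c.1 < N + 1 ∧ c.2 < N + 1
  · simp only [dif_pos h]
    exact measurable_pi_apply _
  · simp only [dif_neg h]
    exact measurable_const

/-- The probability of the event under the tilted measure. -/
private lemma Lower_tilted {N : ℕ} (hN : 1 ≤ N) {e : ℝ} (he : 0 < e)
    (μ : Measure (ℕ × ℕ → ℝ)) (hX : ExpFam μ (fun c ω => ω c) (qRate N))
    (hQ : μ {ω | ∃ x, 1 ≤ x ∧ x ≤ N ∧ e * N < lpp (fun c => ω c) x (N - 1)
          - lpp (fun c => ω c) 0 (N - 1) - ∑ i ∈ Finset.Ico 1 x, ω (i, N)} ≤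
        ENNReal.ofReal (1 / 4))
    (hS : μ {ω | (4 + 2 * e) * N < ∑ c ∈ tset N, ω c} ≤ ENNReal.ofReal (1 / 4)) :
    ENNReal.ofReal (1 / 2 * Real.exp (-(e * N))) ≤
      μ (LowerG N e ∩ {ω | e * N ≤ ω (0, N)}) := by
  have := hX.prob
  have h1 : (LowerG N e)ᶜ ⊆ {ω | ∃ x, 1 ≤ x ∧ x ≤ N ∧ e * N < lpp (fun c => ω c) x (N - 1)
          - lpp (fun c => ω c) 0 (N - 1) - ∑ i ∈ Finset.Ico 1 x, ω (i, N)} ∪
          {ω | (4 + 2 * e) * N < ∑ c ∈ tset N, ω c} := by
    intro ω hω
    by_contra hcon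
    rw [Set.mem_union, not_or] at hcon
    obtain ⟨h2, h3⟩ := hcon
    refine hω ⟨fun x hx1 hxN => ?_, ?_⟩
    · by_contra h4
      exact h2 ⟨x, hx1, hxN, not_le.1 h4⟩
    · exact not_lt.1 h3
  have h2 : μ (LowerG N e)ᶜ ≤ ENNReal.ofReal (1 / 2) := by
    refine (measure_mono h1).trans ((measure_union_le _ _).trans ((add_le_add hQ hS).trans ?_))
    rw [← ENNReal.ofReal_add (by norm_num) (by norm_num)]
    exact ENNReal.ofReal_le_ofReal (by norm_num)
  have h3 : ENNReal.ofReal (1 / 2) ≤ μ (LowerG N e) := by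
    have h4 := prob_add_prob_compl (μ := μ) (Lower_measG N e)
    have h5 : (1 : ENNReal) ≤ μ (LowerG N e) + ENNReal.ofReal (1 / 2) := by
      rw [← h4]
      exact add_le_add le_rfl h2
    have h6 : (1 : ENNReal) = ENNReal.ofReal (1 / 2) + ENNReal.ofReal (1 / 2) := by
      rw [← ENNReal.ofReal_add (by norm_num) (by norm_num)]
      norm_num
    rw [h6] at h5
    exact (ENNReal.add_le_add_iff_right ENNReal.ofReal_ne_top).1 h5
  have hH : MeasurableSet {ω : ℕ × ℕ → ℝ | e * N ≤ ω (0, N)} :=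
    measurableSet_le measurable_const (measurable_pi_apply _)
  have h4 : μ {ω | e * N ≤ ω (0, N)} = ENNReal.ofReal (Real.exp (-(e * N))) := by
    have h5 : qRate N (0, N) = 1 := by
      unfold qRate
      rw [if_neg]
      intro h
      exact (Lower_mem_tset h).2.2 rfl
    have h6 := hX.law (0, N)
    rw [h5] at h6
    have h7 : MeasurableSet {x : ℝ | e * N ≤ x} := measurableSet_Ici
    rw [← E_tail (by positivity), ← h6, Measure.map_apply (hX.meas _) h7]
    rfl
  have h5 := hX.indep2 (S := {(0, N)})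
    (T := ((Finset.range (N + 1)) ×ˢ (Finset.range (N + 1))).erase (0, N))
    (by
      rw [Finset.disjoint_left]
      intro c hc hc'
      rw [Finset.mem_singleton] at hc
      rw [hc] at hc'
      exact (Finset.mem_erase.1 hc').1 rfl)
    (f := Set.indicator {ω : ℕ × ℕ → ℝ | e * N ≤ ω (0, N)} 1)
    (g := Set.indicator (LowerG N e) 1)
    (measurable_one.indicator hH) (measurable_one.indicator (Lower_measG N e))
    (by
      intro w w' hw
      have h7 := hw (0, N) (Finset.mem_singleton_self _)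
      have h8 : w ∈ {ω : ℕ × ℕ → ℝ | e * N ≤ ω (0, N)} ↔
          w' ∈ {ω : ℕ × ℕ → ℝ | e * N ≤ ω (0, N)} := by
        rw [Set.mem_ofPred_eq, Set.mem_ofPred_eq, h7]
      by_cases h9 : w ∈ {ω : ℕ × ℕ → ℝ | e * N ≤ ω (0, N)}
      · rw [Set.indicator_of_mem h9, Set.indicator_of_mem (h8.1 h9)]
        rfl
      · rw [Set.indicator_of_notMem h9, Set.indicator_of_notMem fun h => h9 (h8.2 h)])
    (by
      intro w w' hw
      have hw' : ∀ a ≤ N, ∀ b ≤ N, (a, b) ≠ (0, N) → w (a, b) = w' (a, b) := by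
        intro a ha b hb hab
        refine hw (a, b) (Finset.mem_erase.2 ⟨hab, Finset.mem_product.2 ⟨?_, ?_⟩⟩)
        · exact Finset.mem_range.2 (Nat.lt_succ_of_le ha)
        · exact Finset.mem_range.2 (Nat.lt_succ_of_le hb)
      by_cases h9 : w ∈ LowerG N e
      · rw [Set.indicator_of_mem h9, Set.indicator_of_mem (LowerG_congr hN hw' h9)]
        rfl
      · rw [Set.indicator_of_notMem h9, Set.indicator_of_notMem fun h => h9
          (LowerG_congr hN (fun a ha b hb hab => (hw' a ha b hb hab).symm) h)])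
  have h6 : ∫⁻ ω, Set.indicator {ω : ℕ × ℕ → ℝ | e * N ≤ ω (0, N)} (1 : (ℕ × ℕ → ℝ) → ENNReal) ω *
      Set.indicator (LowerG N e) (1 : (ℕ × ℕ → ℝ) → ENNReal) ω ∂μ = μ (LowerG N e ∩ {ω | e * N ≤ ω (0, N)}) := by
    rw [← lintegral_indicator_one ((Lower_measG N e).inter hH)]
    refine lintegral_congr fun ω => ?_
    by_cases h7 : ω ∈ LowerG N e
    · by_cases h8 : ω ∈ {ω : ℕ × ℕ → ℝ | e * N ≤ ω (0, N)}
      · rw [Set.indicator_of_mem h7, Set.indicator_of_mem h8, Set.indicator_of_mem (Set.mem_inter h7 h8)]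
        simp
      · rw [Set.indicator_of_notMem h8, zero_mul, Set.indicator_of_notMem fun h => h8 h.2]
    · rw [Set.indicator_of_notMem h7, mul_zero, Set.indicator_of_notMem fun h => h7 h.1]
  have h7 : ∫⁻ ω, Set.indicator {ω : ℕ × ℕ → ℝ | e * N ≤ ω (0, N)} (1 : (ℕ × ℕ → ℝ) → ENNReal) ω ∂μ =
      ENNReal.ofReal (Real.exp (-(e * N))) := by
    rw [lintegral_indicator_one hH, h4]
  have h8 : ∫⁻ ω, Set.indicator (LowerG N e) (1 : (ℕ × ℕ → ℝ) → ENNReal) ω ∂μ = μ (LowerG N e) := by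
    rw [lintegral_indicator_one (Lower_measG N e)]
  have h9 : μ (LowerG N e ∩ {ω | e * N ≤ ω (0, N)}) =
      ENNReal.ofReal (Real.exp (-(e * N))) * μ (LowerG N e) := by
    rw [← h6, ← h7, ← h8]
    exact h5
  rw [h9, mul_comm (1 / 2 : ℝ), ENNReal.ofReal_mul (Real.exp_pos _).le]
  exact mul_le_mul_right h3 _

lemma lower {ε : ℝ} (hε : 0 < ε) : ∃ N₀ : ℕ, ∀ N ≥ N₀,
    ENNReal.ofReal (Real.exp (-((kap + ε) * N))) ≤ law N (cone N (corner N)) := by
  classical
  obtain ⟨e, hee⟩ : ∃ e : ℝ, e = ε / 4 := ⟨_, rfl⟩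
  have he : 0 < e := by rw [hee]; positivity
  obtain ⟨N1, hN1⟩ := lowerQ he
  obtain ⟨N2, hN2⟩ := lowerS he
  obtain ⟨N3, hN3⟩ := exists_nat_ge (2 / ε)
  refine ⟨max (max N1 N2) (max N3 1), fun N hN => ?_⟩
  have hNN1 : N1 ≤ N := (le_max_left _ _).trans ((le_max_left _ _).trans hN)
  have hNN2 : N2 ≤ N := (le_max_right _ _).trans ((le_max_left _ _).trans hN)
  have hNN3 : N3 ≤ N := (le_max_left _ _).trans ((le_max_right _ _).trans hN)
  have hN1' : 1 ≤ N := (le_max_right _ _).trans ((le_max_right _ _).trans hN)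
  have hr : ∀ c, 0 < qRate N c := by
    intro c
    unfold qRate
    split_ifs <;> norm_num
  obtain ⟨μ, hX⟩ := exists_expFam (qRate N) hr
  have hT := Lower_tilted hN1' he μ hX (hN1 N hNN1 _ μ _ hX) (hN2 N hNN2 _ μ _ hX)
  -- the event on the square
  obtain ⟨A, hAdef⟩ : ∃ A : Set (Env N), A = {η | (∀ c, 0 ≤ η c) ∧
      ext η ∈ LowerG N e ∩ {ω | e * N ≤ ω (0, N)}} := ⟨_, rfl⟩
  have hH : MeasurableSet {ω : ℕ × ℕ → ℝ | e * N ≤ ω (0, N)} :=
    measurableSet_le measurable_const (measurable_pi_apply _)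
  have hA : MeasurableSet A := by
    rw [hAdef]
    simp only [Set.ofPred_and, Set.ofPred_forall]
    refine MeasurableSet.inter ?_ (Lower_meas_ext ((Lower_measG N e).inter hH))
    exact MeasurableSet.iInter fun c => measurableSet_le measurable_const (measurable_pi_apply _)
  have hcone : A ⊆ cone N (corner N) := by
    intro η hη
    rw [hAdef] at hη
    obtain ⟨h0, hG, hH'⟩ := hη
    refine mem_cone_corner hN1' h0 fun x hx1 hxN => ?_
    have h1 := hG.1 x hx1 hxN
    have h2 : e * N ≤ ext η (0, N) := hH'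
    have h3 : ∑ i ∈ Finset.range x, ext η (i, N) =
        ext η (0, N) + ∑ i ∈ Finset.Ico 1 x, ext η (i, N) := by
      rw [Finset.range_eq_Ico, Finset.sum_eq_sum_Ico_succ_bot (by omega)]
    rw [h3]
    linarith
  -- the tilted cells of the square
  obtain ⟨S', hS'⟩ : ∃ S' : Finset (Fin (N + 1) × Fin (N + 1)),
      S' = Finset.univ.filter fun c => (c.1.val, c.2.val) ∈ tset N := ⟨_, rfl⟩
  have himg : S'.image (fun c => (c.1.val, c.2.val)) = tset N := by
    ext c
    rw [Finset.mem_image]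
    constructor
    · rintro ⟨d, hd, rfl⟩
      rw [hS', Finset.mem_filter] at hd
      exact hd.2
    · intro hc
      obtain ⟨h1, h2, -⟩ := Lower_mem_tset hc
      refine ⟨(⟨c.1, Nat.lt_succ_of_le h1⟩, ⟨c.2, Nat.lt_succ_of_le h2⟩), ?_, rfl⟩
      rw [hS', Finset.mem_filter]
      exact ⟨Finset.mem_univ _, hc⟩
  have hinj : Set.InjOn (fun c : Fin (N + 1) × Fin (N + 1) => (c.1.val, c.2.val)) S' := by
    intro c _ d _ hcd
    have h1 := congrArg Prod.fst hcd
    have h2 := congrArg Prod.snd hcd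
    exact Prod.ext (Fin.ext h1) (Fin.ext h2)
  have hcard : S'.card = 2 * N := by
    rw [← card_tset N, ← himg, Finset.card_image_of_injOn hinj]
  have hsum : ∀ η : Env N, ∑ c ∈ S', η c = ∑ c ∈ tset N, ext η c := by
    intro η
    rw [← himg, Finset.sum_image hinj]
    refine Finset.sum_congr rfl fun c _ => ?_
    unfold ext
    rw [dif_pos ⟨c.1.2, c.2.2⟩]
  have hch := change S' ((4 + 2 * e) * N) A hA (by
    intro η hη
    rw [hAdef] at hη
    rw [hsum]
    exact hη.2.1.2)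
  have hpi : (fun c : Fin (N + 1) × Fin (N + 1) => expMeasure (if c ∈ S' then 1 / 2 else 1)) =
      fun c => expMeasure (qRate N (c.1.val, c.2.val)) := by
    funext c
    unfold qRate
    have h1 : c ∈ S' ↔ (c.1.val, c.2.val) ∈ tset N := by
      rw [hS', Finset.mem_filter]
      exact ⟨fun h => h.2, fun h => ⟨Finset.mem_univ _, h⟩⟩
    by_cases h2 : c ∈ S'
    · rw [if_pos h2, if_pos (h1.1 h2)]
    · rw [if_neg h2, if_neg fun h => h2 (h1.2 h)]
  rw [hpi, hX.transfer A hA] at hch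
  -- the measure of the event
  have hsub : μ (LowerG N e ∩ {ω | e * N ≤ ω (0, N)}) ≤
      μ {ω | res N (fun c => (fun c (ω : ℕ × ℕ → ℝ) => ω c) c ω) ∈ A} := by
    refine measure_mono_ae ?_
    filter_upwards [hX.nonneg] with ω h0 hω
    obtain ⟨h1, h2⟩ := hω
    show res N ω ∈ A
    rw [hAdef]
    refine ⟨fun c => h0 _, ?_, ?_⟩
    · exact LowerG_congr hN1' (fun a ha b hb _ => (Lower_ext_res ω ha hb).symm) h1
    · show e * N ≤ ext (res N ω) (0, N)
      rw [Lower_ext_res ω (Nat.zero_le _) le_rfl]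
      exact h2
  have hfin : ENNReal.ofReal (2 ^ S'.card * Real.exp (-((4 + 2 * e) * N / 2))) *
      ENNReal.ofReal (1 / 2 * Real.exp (-(e * N))) ≤ law N (cone N (corner N)) :=
    (mul_le_mul_right (hT.trans hsub) _).trans (hch.trans (measure_mono hcone))
  refine le_trans ?_ hfin
  rw [← ENNReal.ofReal_mul (by positivity)]
  refine ENNReal.ofReal_le_ofReal ?_
  rw [hcard]
  have h2 : (2 : ℝ) ^ (2 * N) = Real.exp (2 * N * Real.log 2) := by
    rw [mul_comm (2 * (N : ℝ)), Real.exp_mul, Real.exp_log (by norm_num), ← Real.rpow_natCast]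
    push_cast
    rfl
  have hNr : 2 / ε ≤ (N : ℝ) := hN3.trans (by exact_mod_cast hNN3)
  have h3 : 2 ≤ ε * N := by
    rw [div_le_iff₀ hε] at hNr
    linarith
  have h4 : (2 : ℝ) ≤ Real.exp (ε * N / 2) := by
    have h5 := Real.add_one_le_exp (ε * N / 2)
    linarith
  rw [h2]
  have h5 : Real.exp (2 * N * Real.log 2) * Real.exp (-((4 + 2 * e) * N / 2)) *
      (1 / 2 * Real.exp (-(e * N))) =
      1 / 2 * (Real.exp (ε * N / 2) * Real.exp (-((kap + ε) * N))) := by
    rw [← Real.exp_add]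
    have h6 : Real.exp (2 * N * Real.log 2 + -((4 + 2 * e) * N / 2)) *
        (1 / 2 * Real.exp (-(e * N))) =
        1 / 2 * (Real.exp (2 * N * Real.log 2 + -((4 + 2 * e) * N / 2)) *
          Real.exp (-(e * N))) := by ring
    rw [h6, ← Real.exp_add, ← Real.exp_add]
    congr 2
    rw [hee]
    unfold kap
    ring
  rw [h5]
  have h6 : 0 < Real.exp (-((kap + ε) * N)) := Real.exp_pos _
  nlinarith

end Pool.Agent.FX
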