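import Pool.Agent.FX.Stat
import Pool.Agent.FX.Det
import Pool.Agent.FX.Cher

/-! # The tilted measure -/

open MeasureTheory ProbabilityTheory

namespace Pool.Agent.FX

/-- The `2 N` tilted cells: the left column below the top row, the top row without its first cell. -/
def tset (N : ℕ) : Finset (ℕ × ℕ) :=
  (Finset.range N).image (fun j => (0, j)) ∪ (Finset.Icc 1 N).image (fun i => (i, N))

/-- The rates of the tilted measure. -/
noncomputable def qRate (N : ℕ) : ℕ × ℕ → ℝ := fun c => if c ∈ tset N then 1 / 2 else 1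

private lemma mem_tset (N : ℕ) (a b : ℕ) :
    (a, b) ∈ tset N ↔ (a = 0 ∧ b < N) ∨ (1 ≤ a ∧ a ≤ N ∧ b = N) := by
  unfold tset
  simp only [Finset.mem_union, Finset.mem_image, Finset.mem_range, Finset.mem_Icc, Prod.mk.injEq]
  constructor
  · rintro (⟨j, hj, h1, h2⟩ | ⟨i, hi, h1, h2⟩)
    · left; omega
    · right; omega
  · rintro (⟨h1, h2⟩ | ⟨h1, h2, h3⟩)
    · exact Or.inl ⟨b, h2, h1.symm, rfl⟩
    · exact Or.inr ⟨a, ⟨h1, h2⟩, rfl, h3.symm⟩

lemma card_tset (N : ℕ) : (tset N).card = 2 * N := by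
  unfold tset
  rw [Finset.card_union_of_disjoint]
  · rw [Finset.card_image_of_injective _ (fun a b h => by simpa using h),
      Finset.card_image_of_injective _ (fun a b h => by simpa using h)]
    simp only [Finset.card_range, Nat.card_Icc]
    omega
  · rw [Finset.disjoint_left]
    rintro ⟨a, b⟩ hc hc'
    simp only [Finset.mem_image, Finset.mem_range, Finset.mem_Icc, Prod.mk.injEq] at hc hc'
    obtain ⟨j, hj, h1, h2⟩ := hc
    obtain ⟨i, hi, h3, h4⟩ := hc'
    omega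

private lemma qRate_pos (N : ℕ) (c : ℕ × ℕ) : 0 < qRate N c := by
  unfold qRate
  split_ifs <;> norm_num

private lemma statRate_pos (c : ℕ × ℕ) : 0 < statRate (1 / 2) (1 / 2) c := by
  unfold statRate
  split_ifs <;> norm_num

/-- Comparison with the stationary model. -/
private lemma mgfD {N : ℕ} (hN : 1 ≤ N) {Ω : Type} [MeasurableSpace Ω] {μ : Measure Ω}
    {X : ℕ × ℕ → Ω → ℝ} (h : ExpFam μ X (qRate N)) {x : ℕ} {θ : ℝ} (h0 : 0 ≤ θ)
    (hθ : θ < 1 / 2) :
    ∫⁻ ω, ENNReal.ofReal (Real.exp (θ * (lpp (fun c => X c ω) x (N - 1)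
      - lpp (fun c => X c ω) 0 (N - 1)))) ∂μ ≤ ENNReal.ofReal ((1 / 2 / (1 / 2 - θ)) ^ x) := by
  have hst := ExpFam.scale h (fun c => qRate N c / statRate (1 / 2) (1 / 2) c)
    (fun c => div_pos (qRate_pos N c) (statRate_pos c))
  have hr : (fun c => qRate N c / (qRate N c / statRate (1 / 2) (1 / 2) c)) =
      statRate (1 / 2) (1 / 2) := by
    funext c
    have h1 := (qRate_pos N c).ne'
    have h2 := (statRate_pos c).ne'
    field_simp
  rw [hr] at hst
  have key := stat_mgf (by norm_num : (0 : ℝ) < 1 / 2) (by norm_num : (0 : ℝ) < 1 / 2)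
    (by norm_num) hst x (N - 1) hθ
  rw [← key]
  apply lintegral_mono_ae
  filter_upwards [h.nonneg] with ω hω
  apply ENNReal.ofReal_le_ofReal
  apply Real.exp_le_exp.mpr
  apply mul_le_mul_of_nonneg_left _ h0
  apply compare
  · intro j hj
    have hm : (0, j) ∈ tset N := (mem_tset N 0 j).mpr (Or.inl ⟨rfl, by omega⟩)
    simp only [qRate, statRate, if_pos hm, if_true]
    ring
  · intro i hi1 hi2
    have hm : (i, 0) ∉ tset N := by
      rw [mem_tset]
      omega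
    have hi : ¬ (i = 0) := by omega
    simp only [qRate, statRate, if_neg hm, if_neg hi, if_true]
    have := hω (i, 0)
    linarith
  · intro i j hi hj hi2 hj2
    have hm : (i, j) ∉ tset N := by
      rw [mem_tset]
      omega
    have hi' : ¬ (i = 0) := by omega
    have hj' : ¬ (j = 0) := by omega
    simp only [qRate, statRate, if_neg hm, if_neg hi', if_neg hj']
    ring

/-- The sum along the top row. -/
private lemma mgfR {N : ℕ} {Ω : Type} [MeasurableSpace Ω] {μ : Measure Ω}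
    {X : ℕ × ℕ → Ω → ℝ} (h : ExpFam μ X (qRate N)) {x : ℕ} (hx : x ≤ N) {θ : ℝ} (h0 : 0 ≤ θ) :
    ∫⁻ ω, ENNReal.ofReal (Real.exp (-θ * ∑ c ∈ (Finset.Ico 1 x).image (fun i => (i, N)), X c ω)) ∂μ
      = ENNReal.ofReal ((1 / 2 / (1 / 2 + θ)) ^ (x - 1)) := by
  have hT : ∀ c ∈ (Finset.Ico 1 x).image (fun i => (i, N)), qRate N c = 1 / 2 := by
    rintro ⟨a, b⟩ hc
    simp only [Finset.mem_image, Finset.mem_Ico, Prod.mk.injEq] at hc
    obtain ⟨i, hi, h1, h2⟩ := hc
    have hm : (a, b) ∈ tset N := (mem_tset N a b).mpr (Or.inr ⟨by omega, by omega, by omega⟩)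
    simp only [qRate, if_pos hm]
  rw [ExpFam.sum_mgf h _ (-θ) (fun c hc => by rw [hT c hc]; linarith)]
  rw [Finset.prod_congr rfl (fun c hc => by rw [hT c hc, sub_neg_eq_add])]
  rw [Finset.prod_const, ENNReal.ofReal_pow (by positivity)]
  congr 1
  rw [Finset.card_image_of_injective _ (fun a b h => by simpa using h)]
  simp

private lemma step1 {N : ℕ} (hN : 1 ≤ N) {Ω : Type} [MeasurableSpace Ω] {μ : Measure Ω}
    {X : ℕ × ℕ → Ω → ℝ} (h : ExpFam μ X (qRate N)) {x : ℕ} (hx : x ≤ N) {θ s : ℝ} (h0 : 0 ≤ θ)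
    (hθ : θ < 1 / 2) :
    μ {ω | s ≤ lpp (fun c => X c ω) x (N - 1) - lpp (fun c => X c ω) 0 (N - 1)
        - ∑ i ∈ Finset.Ico 1 x, X (i, N) ω} ≤
      ENNReal.ofReal (Real.exp (-(θ * s)) * ((1 / 2 / (1 / 2 - θ)) ^ x *
        (1 / 2 / (1 / 2 + θ)) ^ (x - 1))) := by
  have hfam : Measurable (fun ω => fun c => X c ω) := measurable_pi_lambda _ h.meas
  have hmeas : Measurable (fun ω => lpp (fun c => X c ω) x (N - 1)
      - lpp (fun c => X c ω) 0 (N - 1) - ∑ i ∈ Finset.Ico 1 x, X (i, N) ω) := by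
    apply Measurable.sub
    · exact ((measurable_lpp x (N - 1)).comp hfam).sub ((measurable_lpp 0 (N - 1)).comp hfam)
    · exact Finset.measurable_sum _ (fun i _ => h.meas (i, N))
  refine (chernoff hmeas h0).trans ?_
  rw [ENNReal.ofReal_mul (Real.exp_pos _).le]
  gcongr
  have hsum : ∀ w : ℕ × ℕ → ℝ, ∑ i ∈ Finset.Ico 1 x, w (i, N) =
      ∑ c ∈ (Finset.Ico 1 x).image (fun i => (i, N)), w c := by
    intro w
    rw [Finset.sum_image (fun a _ b _ h => by simpa using h)]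
  have h2 := ExpFam.indep2 h (S := (Finset.range (x + 1)) ×ˢ (Finset.range N))
    (T := (Finset.Ico 1 x).image (fun i => (i, N)))
    (f := fun w => ENNReal.ofReal (Real.exp (θ * (lpp w x (N - 1) - lpp w 0 (N - 1)))))
    (g := fun w => ENNReal.ofReal (Real.exp
      (-θ * ∑ c ∈ (Finset.Ico 1 x).image (fun i => (i, N)), w c)))
    ?_ ?_ ?_ ?_ ?_
  · calc ∫⁻ ω, ENNReal.ofReal (Real.exp (θ * (lpp (fun c => X c ω) x (N - 1)
          - lpp (fun c => X c ω) 0 (N - 1) - ∑ i ∈ Finset.Ico 1 x, X (i, N) ω))) ∂μ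
        = ∫⁻ ω, ENNReal.ofReal (Real.exp (θ * (lpp (fun c => X c ω) x (N - 1)
            - lpp (fun c => X c ω) 0 (N - 1)))) * ENNReal.ofReal (Real.exp
            (-θ * ∑ c ∈ (Finset.Ico 1 x).image (fun i => (i, N)), X c ω)) ∂μ := by
          apply lintegral_congr
          intro ω
          rw [← ENNReal.ofReal_mul (Real.exp_pos _).le, ← Real.exp_add,
            ← hsum (fun c => X c ω)]
          congr 2
          ring
      _ = _ := h2
      _ ≤ _ := by
          rw [ENNReal.ofReal_mul (by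
            have : 0 < 1 / 2 - θ := by linarith
            positivity), mgfR h hx h0]
          gcongr
          exact mgfD hN h h0 hθ
  · rw [Finset.disjoint_left]
    rintro ⟨a, b⟩ h1 h2
    simp only [Finset.mem_product, Finset.mem_range, Finset.mem_image, Finset.mem_Ico,
      Prod.mk.injEq] at h1 h2
    obtain ⟨i, hi, h3, h4⟩ := h2
    omega
  · exact ENNReal.measurable_ofReal.comp (Real.measurable_exp.comp
      (((measurable_lpp x (N - 1)).sub (measurable_lpp 0 (N - 1))).const_mul θ))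
  · exact ENNReal.measurable_ofReal.comp (Real.measurable_exp.comp
      ((Finset.measurable_sum _ (fun c _ => measurable_pi_apply c)).const_mul (-θ)))
  · intro w w' hw
    have e1 : lpp w x (N - 1) = lpp w' x (N - 1) := by
      apply lpp_congr
      intro a ha b hb
      apply hw
      simp only [Finset.mem_product, Finset.mem_range]
      omega
    have e2 : lpp w 0 (N - 1) = lpp w' 0 (N - 1) := by
      apply lpp_congr
      intro a ha b hb
      apply hw
      simp only [Finset.mem_product, Finset.mem_range]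
      omega
    simp only [e1, e2]
  · intro w w' hw
    rw [Finset.sum_congr rfl hw]

private lemma num1 {e : ℝ} (he : 0 < e) (he1 : e ≤ 1) {N x : ℕ} (hx1 : 1 ≤ x) (hx : x ≤ N) :
    Real.exp (-(e / 16 * (e * N))) * ((1 / 2 / (1 / 2 - e / 16)) ^ x *
        (1 / 2 / (1 / 2 + e / 16)) ^ (x - 1)) ≤ 2 * Real.exp (-(e ^ 2 / 32 * N)) := by
  obtain ⟨y, rfl⟩ : ∃ y, x = y + 1 := ⟨x - 1, by omega⟩
  have hy : (y : ℝ) ≤ N := by exact_mod_cast (by omega : y ≤ N)
  rw [Nat.add_sub_cancel, pow_succ, mul_right_comm, ← mul_pow]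
  have hbase : 1 / 2 / (1 / 2 - e / 16) * (1 / 2 / (1 / 2 + e / 16)) ≤ Real.exp (e ^ 2 / 32) := by
    have h1 : 1 / 2 / (1 / 2 - e / 16) * (1 / 2 / (1 / 2 + e / 16)) = 1 / (1 - e ^ 2 / 64) := by
      have h1 : (1 / 2 - e / 16) * (1 / 2 + e / 16) ≠ 0 := by nlinarith
      have h3 : (1 - e ^ 2 / 64) ≠ 0 := by nlinarith
      rw [div_mul_div_comm, div_eq_div_iff h1 h3]
      ring
    rw [h1]
    have h4 : 1 + e ^ 2 / 32 ≤ Real.exp (e ^ 2 / 32) := by
      have := Real.add_one_le_exp (e ^ 2 / 32)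
      linarith
    refine le_trans ?_ h4
    rw [div_le_iff₀ (by nlinarith)]
    have ht0 : 0 < e ^ 2 / 32 := by positivity
    have ht1 : e ^ 2 / 32 ≤ 1 := by nlinarith
    have ht2 := mul_nonneg ht0.le (sub_nonneg.mpr ht1)
    nlinarith
  have hpos : 0 ≤ 1 / 2 / (1 / 2 - e / 16) * (1 / 2 / (1 / 2 + e / 16)) := by
    have : 0 < 1 / 2 - e / 16 := by linarith
    positivity
  have hlast : 1 / 2 / (1 / 2 - e / 16) ≤ 2 := by
    rw [div_le_iff₀ (by linarith)]
    linarith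
  have hfst : 0 ≤ 1 / 2 / (1 / 2 - e / 16) := by
    have : 0 < 1 / 2 - e / 16 := by linarith
    positivity
  calc Real.exp (-(e / 16 * (e * N))) * ((1 / 2 / (1 / 2 - e / 16) * (1 / 2 / (1 / 2 + e / 16))) ^ y
        * (1 / 2 / (1 / 2 - e / 16)))
      ≤ Real.exp (-(e / 16 * (e * N))) * (Real.exp (e ^ 2 / 32) ^ y * 2) := by
        gcongr
    _ = 2 * Real.exp (-(e / 16 * (e * N)) + y * (e ^ 2 / 32)) := by
        rw [Real.exp_add, Real.exp_nat_mul]
        ring
    _ ≤ 2 * Real.exp (-(e ^ 2 / 32 * N)) := by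
        gcongr
        nlinarith [mul_le_mul_of_nonneg_left hy (by positivity : 0 ≤ e ^ 2 / 32)]

private lemma num2 {c : ℝ} (hc : 0 < c) {N : ℕ} (hN : 16 / c ^ 2 ≤ N) (hN1 : 1 ≤ N) :
    N * (2 * Real.exp (-(c * N))) ≤ 1 / 4 := by
  have hN0 : (0 : ℝ) < N := by exact_mod_cast hN1
  have h1 : 16 ≤ N * c ^ 2 := by
    rwa [div_le_iff₀ (by positivity)] at hN
  have h2 := Real.quadratic_le_exp_of_nonneg (by positivity : 0 ≤ c * N)
  rw [Real.exp_neg, ← div_eq_mul_inv, ← mul_div_assoc, div_le_iff₀ (Real.exp_pos _)]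
  have h3 : 8 * (N : ℝ) ≤ (c * N) ^ 2 / 2 := by
    have := mul_le_mul_of_nonneg_right h1 hN0.le
    nlinarith
  have h4 : 0 ≤ c * N := by positivity
  linarith

/-- Under the tilted measure the increments along row `N - 1` are beaten by the top row. -/
lemma lowerQ {ε : ℝ} (hε : 0 < ε) : ∃ N₀ : ℕ, ∀ N ≥ N₀,
    ∀ (Ω : Type) [MeasurableSpace Ω] (μ : Measure Ω) (X : ℕ × ℕ → Ω → ℝ),
      ExpFam μ X (qRate N) →
      μ {ω | ∃ x, 1 ≤ x ∧ x ≤ N ∧ ε * N < lpp (fun c => X c ω) x (N - 1)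
          - lpp (fun c => X c ω) 0 (N - 1) - ∑ i ∈ Finset.Ico 1 x, X (i, N) ω} ≤
        ENNReal.ofReal (1 / 4) := by
  set e : ℝ := min ε 1 with he
  have he0 : 0 < e := lt_min hε one_pos
  have he1 : e ≤ 1 := min_le_right _ _
  have hee : e ≤ ε := min_le_left _ _
  refine ⟨max 1 ⌈16 / (e ^ 2 / 32) ^ 2⌉₊, ?_⟩
  intro N hN Ω _ μ X h
  have hN1 : 1 ≤ N := le_trans (le_max_left _ _) hN
  have hN2 : 16 / (e ^ 2 / 32) ^ 2 ≤ N :=
    le_trans (Nat.le_ceil _) (by exact_mod_cast le_trans (le_max_right _ _) hN)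
  have hsub : {ω | ∃ x, 1 ≤ x ∧ x ≤ N ∧ ε * N < lpp (fun c => X c ω) x (N - 1)
          - lpp (fun c => X c ω) 0 (N - 1) - ∑ i ∈ Finset.Ico 1 x, X (i, N) ω} ⊆
      ⋃ x ∈ Finset.Icc 1 N, {ω | e * N ≤ lpp (fun c => X c ω) x (N - 1)
          - lpp (fun c => X c ω) 0 (N - 1) - ∑ i ∈ Finset.Ico 1 x, X (i, N) ω} := by
    rintro ω ⟨x, h1, h2, h3⟩
    simp only [Set.mem_iUnion, Set.mem_ofPred_eq, Finset.mem_Icc]
    refine ⟨x, ⟨h1, h2⟩, ?_⟩
    have : e * N ≤ ε * N := by gcongr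
    linarith
  refine (measure_mono hsub).trans ((measure_biUnion_finset_le _ _).trans ?_)
  calc ∑ x ∈ Finset.Icc 1 N, μ {ω | e * N ≤ lpp (fun c => X c ω) x (N - 1)
          - lpp (fun c => X c ω) 0 (N - 1) - ∑ i ∈ Finset.Ico 1 x, X (i, N) ω}
      ≤ ∑ x ∈ Finset.Icc 1 N, ENNReal.ofReal (2 * Real.exp (-(e ^ 2 / 32 * N))) := by
        apply Finset.sum_le_sum
        intro x hx
        rw [Finset.mem_Icc] at hx
        refine (step1 hN1 h hx.2 (by positivity : 0 ≤ e / 16) (by linarith)).trans ?_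
        exact ENNReal.ofReal_le_ofReal (num1 he0 he1 hx.1 hx.2)
    _ = ENNReal.ofReal (N * (2 * Real.exp (-(e ^ 2 / 32 * N)))) := by
        rw [Finset.sum_const, Nat.card_Icc, Nat.add_sub_cancel, nsmul_eq_mul,
          ENNReal.ofReal_mul (by positivity : (0 : ℝ) ≤ N), ENNReal.ofReal_natCast]
    _ ≤ ENNReal.ofReal (1 / 4) := ENNReal.ofReal_le_ofReal (num2 (by positivity) hN2 hN1)

lemma lowerS {ε : ℝ} (hε : 0 < ε) : ∃ N₀ : ℕ, ∀ N ≥ N₀,
    ∀ (Ω : Type) [MeasurableSpace Ω] (μ : Measure Ω) (X : ℕ × ℕ → Ω → ℝ),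
      ExpFam μ X (qRate N) →
      μ {ω | (4 + 2 * ε) * N < ∑ c ∈ tset N, X c ω} ≤ ENNReal.ofReal (1 / 4) := by
  obtain ⟨m₀, hm⟩ := tail_up (l := 1 / 2) (η := ε) (p := 1 / 4) (by norm_num) hε (by norm_num)
  refine ⟨m₀, ?_⟩
  intro N hN Ω _ μ X h
  have hf : Measurable (fun ω => ∑ c ∈ tset N, X c ω) :=
    Finset.measurable_sum _ (fun c _ => h.meas c)
  have hrate : ∀ c ∈ tset N, qRate N c = 1 / 2 := by
    intro c hc
    simp only [qRate, if_pos hc]
  refine (measure_mono ?_).trans (hm (2 * N) (by omega) Ω μ _ hf ?_)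
  · intro ω hω
    simp only [Set.mem_ofPred_eq] at hω ⊢
    push_cast
    linarith
  · intro θ h1 h2
    rw [ExpFam.sum_mgf h _ θ (fun c hc => by rw [hrate c hc]; exact h2)]
    rw [Finset.prod_congr rfl (fun c hc => by rw [hrate c hc])]
    have h3 : 0 < 1 / 2 - θ := by linarith
    rw [Finset.prod_const, ← ENNReal.ofReal_pow (by positivity), card_tset]
    apply ENNReal.ofReal_le_ofReal
    apply pow_le_pow_right₀
    · rw [le_div_iff₀ h3]
      linarith
    · omega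

end Pool.Agent.FX
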