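import Pool.Agent.FX.Defs

/-! # Last passage times: elementary facts -/

namespace Pool.Agent.FX

private lemma Lpp_rec {p : ℕ → ℕ → Prop} (h00 : p 0 0) (h0 : ∀ j, p 0 j → p 0 (j + 1))
    (h1 : ∀ i, p i 0 → p (i + 1) 0)
    (h2 : ∀ i j, p i (j + 1) → p (i + 1) j → p (i + 1) (j + 1)) (i j : ℕ) : p i j := by
  induction i generalizing j with
  | zero =>
    induction j with
    | zero => exact h00
    | succ j ih => exact h0 j ih
  | succ i ih =>
    induction j with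
    | zero => exact h1 i (ih 0)
    | succ j ihj => exact h2 i j (ih (j + 1)) ihj

private lemma Lpp_00 (w : ℕ × ℕ → ℝ) : lpp w 0 0 = w (0, 0) := by
  rw [lpp]

private lemma Lpp_0s (w : ℕ × ℕ → ℝ) (j : ℕ) : lpp w 0 (j + 1) = lpp w 0 j + w (0, j + 1) := by
  rw [lpp]

private lemma Lpp_s0 (w : ℕ × ℕ → ℝ) (i : ℕ) : lpp w (i + 1) 0 = lpp w i 0 + w (i + 1, 0) := by
  rw [lpp]

private lemma Lpp_ss (w : ℕ × ℕ → ℝ) (i j : ℕ) :
    lpp w (i + 1) (j + 1) = max (lpp w i (j + 1)) (lpp w (i + 1) j) + w (i + 1, j + 1) := by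
  rw [lpp]

lemma lpp_congr {w w' : ℕ × ℕ → ℝ} {i j : ℕ} (h : ∀ a ≤ i, ∀ b ≤ j, w (a, b) = w' (a, b)) :
    lpp w i j = lpp w' i j := by
  revert h
  refine Lpp_rec (p := fun i j => (∀ a ≤ i, ∀ b ≤ j, w (a, b) = w' (a, b)) →
    lpp w i j = lpp w' i j) ?_ ?_ ?_ ?_ i j
  · intro h
    rw [Lpp_00, Lpp_00]
    exact h 0 le_rfl 0 le_rfl
  · intro j ih h
    rw [Lpp_0s, Lpp_0s, ih fun a ha b hb => h a ha b (by omega), h 0 le_rfl (j + 1) le_rfl]
  · intro i ih h
    rw [Lpp_s0, Lpp_s0, ih fun a ha b hb => h a (by omega) b hb, h (i + 1) le_rfl 0 le_rfl]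
  · intro i j ih1 ih2 h
    rw [Lpp_ss, Lpp_ss, ih1 fun a ha b hb => h a (by omega) b hb,
      ih2 fun a ha b hb => h a ha b (by omega), h (i + 1) le_rfl (j + 1) le_rfl]

lemma lpp_mono {w w' : ℕ × ℕ → ℝ} {i j : ℕ} (h : ∀ a ≤ i, ∀ b ≤ j, w (a, b) ≤ w' (a, b)) :
    lpp w i j ≤ lpp w' i j := by
  revert h
  refine Lpp_rec (p := fun i j => (∀ a ≤ i, ∀ b ≤ j, w (a, b) ≤ w' (a, b)) →
    lpp w i j ≤ lpp w' i j) ?_ ?_ ?_ ?_ i j
  · intro h
    rw [Lpp_00, Lpp_00]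
    exact h 0 le_rfl 0 le_rfl
  · intro j ih h
    rw [Lpp_0s, Lpp_0s]
    exact add_le_add (ih fun a ha b hb => h a ha b (by omega)) (h 0 le_rfl (j + 1) le_rfl)
  · intro i ih h
    rw [Lpp_s0, Lpp_s0]
    exact add_le_add (ih fun a ha b hb => h a (by omega) b hb) (h (i + 1) le_rfl 0 le_rfl)
  · intro i j ih1 ih2 h
    rw [Lpp_ss, Lpp_ss]
    exact add_le_add (max_le_max (ih1 fun a ha b hb => h a (by omega) b hb)
      (ih2 fun a ha b hb => h a ha b (by omega))) (h (i + 1) le_rfl (j + 1) le_rfl)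

lemma lpp_nonneg {w : ℕ × ℕ → ℝ} (h : ∀ c, 0 ≤ w c) (i j : ℕ) : 0 ≤ lpp w i j := by
  refine Lpp_rec (p := fun i j => 0 ≤ lpp w i j) ?_ ?_ ?_ ?_ i j
  · rw [Lpp_00]
    exact h _
  · intro j ih
    rw [Lpp_0s]
    exact add_nonneg ih (h _)
  · intro i ih
    rw [Lpp_s0]
    exact add_nonneg ih (h _)
  · intro i j ih1 ih2
    rw [Lpp_ss]
    exact add_nonneg (le_max_of_le_left ih1) (h _)

lemma measurable_lpp (i j : ℕ) : Measurable (fun w : ℕ × ℕ → ℝ => lpp w i j) := by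
  refine Lpp_rec (p := fun i j => Measurable (fun w : ℕ × ℕ → ℝ => lpp w i j)) ?_ ?_ ?_ ?_ i j
  · simp only [Lpp_00]
    exact measurable_pi_apply _
  · intro j ih
    simp only [Lpp_0s]
    exact ih.add (measurable_pi_apply _)
  · intro i ih
    simp only [Lpp_s0]
    exact ih.add (measurable_pi_apply _)
  · intro i j ih1 ih2
    simp only [Lpp_ss]
    exact (ih1.max ih2).add (measurable_pi_apply _)

lemma lpp_zero_left (w : ℕ × ℕ → ℝ) (j : ℕ) : lpp w 0 j = ∑ b ∈ Finset.range (j + 1), w (0, b) := by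
  induction j with
  | zero => rw [Lpp_00, zero_add, Finset.sum_range_one]
  | succ j ih => rw [Lpp_0s, Finset.sum_range_succ, ih]

lemma lpp_zero_right (w : ℕ × ℕ → ℝ) (i : ℕ) : lpp w i 0 = ∑ a ∈ Finset.range (i + 1), w (a, 0) := by
  induction i with
  | zero => rw [Lpp_00, zero_add, Finset.sum_range_one]
  | succ i ih => rw [Lpp_s0, Finset.sum_range_succ, ih]

private lemma Lpp_up {w : ℕ × ℕ → ℝ} (h : ∀ c, 0 ≤ w c) (i j : ℕ) :
    lpp w i j ≤ lpp w i (j + 1) := by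
  cases i with
  | zero =>
    rw [Lpp_0s]
    exact le_add_of_nonneg_right (h _)
  | succ i =>
    rw [Lpp_ss]
    exact (le_max_right _ _).trans (le_add_of_nonneg_right (h _))

private lemma Lpp_right {w : ℕ × ℕ → ℝ} (h : ∀ c, 0 ≤ w c) (i j : ℕ) :
    lpp w i j ≤ lpp w (i + 1) j := by
  cases j with
  | zero =>
    rw [Lpp_s0]
    exact le_add_of_nonneg_right (h _)
  | succ j =>
    rw [Lpp_ss]
    exact (le_max_left _ _).trans (le_add_of_nonneg_right (h _))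

/-- Monotonicity in the end point. -/
private lemma Lpp_le {w : ℕ × ℕ → ℝ} (h : ∀ c, 0 ≤ w c) {i j i' j' : ℕ} (hi : i ≤ i')
    (hj : j ≤ j') : lpp w i j ≤ lpp w i' j' := by
  have h1 : Monotone fun j => lpp w i j := monotone_nat_of_le_succ fun j => Lpp_up h i j
  have h2 : Monotone fun i => lpp w i j' := monotone_nat_of_le_succ fun i => Lpp_right h i j'
  exact (h1 hj).trans (h2 hi)

private lemma Lpp_ge {w : ℕ × ℕ → ℝ} (h : ∀ c, 0 ≤ w c) (i j : ℕ) : w (i, j) ≤ lpp w i j := by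
  cases i with
  | zero =>
    cases j with
    | zero => rw [Lpp_00]
    | succ j =>
      rw [Lpp_0s]
      exact le_add_of_nonneg_left (lpp_nonneg h _ _)
  | succ i =>
    cases j with
    | zero =>
      rw [Lpp_s0]
      exact le_add_of_nonneg_left (lpp_nonneg h _ _)
    | succ j =>
      rw [Lpp_ss]
      exact le_add_of_nonneg_left (le_max_of_le_left (lpp_nonneg h _ _))

/-- Restriction to the paths which start at `(s, t)`. -/
private lemma Lpp_shift {w : ℕ × ℕ → ℝ} (h : ∀ c, 0 ≤ w c) (s t p q : ℕ) :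
    lpp (fun c => w (s + c.1, t + c.2)) p q ≤ lpp w (s + p) (t + q) := by
  refine Lpp_rec (p := fun p q => lpp (fun c => w (s + c.1, t + c.2)) p q ≤
    lpp w (s + p) (t + q)) ?_ ?_ ?_ ?_ p q
  · rw [Lpp_00]
    exact Lpp_ge h _ _
  · intro q ih
    rw [Lpp_0s, ← add_assoc]
    rw [add_zero] at ih ⊢
    cases s with
    | zero =>
      rw [Lpp_0s]
      exact add_le_add ih le_rfl
    | succ s =>
      rw [Lpp_ss]
      exact add_le_add (ih.trans (le_max_right _ _)) le_rfl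
  · intro p ih
    rw [Lpp_s0, ← add_assoc]
    rw [add_zero] at ih ⊢
    cases t with
    | zero =>
      rw [Lpp_s0]
      exact add_le_add ih le_rfl
    | succ t =>
      rw [Lpp_ss]
      exact add_le_add (ih.trans (le_max_left _ _)) le_rfl
  · intro p q ih1 ih2
    rw [Lpp_ss, ← add_assoc s, ← add_assoc t, Lpp_ss]
    exact add_le_add (max_le_max ih1 ih2) le_rfl

/-- Superadditivity. -/
lemma lpp_add {w : ℕ × ℕ → ℝ} (h : ∀ c, 0 ≤ w c) (i j p q : ℕ) :
    lpp w i j + lpp (fun c => w (i + 1 + c.1, j + 1 + c.2)) p q ≤ lpp w (i + 1 + p) (j + 1 + q) := by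
  refine Lpp_rec (p := fun p q => lpp w i j + lpp (fun c => w (i + 1 + c.1, j + 1 + c.2)) p q ≤
    lpp w (i + 1 + p) (j + 1 + q)) ?_ ?_ ?_ ?_ p q
  · rw [Lpp_00, add_zero, add_zero, Lpp_ss]
    exact add_le_add ((Lpp_up h i j).trans (le_max_left _ _)) le_rfl
  · intro q ih
    rw [Lpp_0s, ← add_assoc, ← add_assoc (j + 1)]
    rw [add_zero] at ih ⊢
    rw [Lpp_ss]
    exact add_le_add (ih.trans (le_max_right _ _)) le_rfl
  · intro p ih
    rw [Lpp_s0, ← add_assoc, ← add_assoc (i + 1)]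
    rw [add_zero] at ih ⊢
    rw [Lpp_ss]
    exact add_le_add (ih.trans (le_max_left _ _)) le_rfl
  · intro p q ih1 ih2
    rw [Lpp_ss, ← add_assoc (i + 1), ← add_assoc (j + 1), Lpp_ss, ← add_assoc]
    refine add_le_add ?_ le_rfl
    rw [← max_add_add_left]
    exact max_le_max ih1 ih2

private lemma Lpp_corr {w : ℕ × ℕ → ℝ} (h : ∀ c, 0 ≤ w c) (l c : ℕ) (hl : 1 ≤ l) (m : ℕ)
    (hm : 1 ≤ m) : ∀ i j : ℕ, i + 1 = (c + m) * l → j + 1 = m * l →
    ∑ k ∈ Finset.range m, lpp (fun d => w ((c + k) * l + d.1, k * l + d.2)) (l - 1) (l - 1)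
      ≤ lpp w i j := by
  induction m, hm using Nat.le_induction with
  | base =>
    intro i j hi hj
    rw [Finset.sum_range_one]
    have h1 := Lpp_shift h ((c + 0) * l) (0 * l) (l - 1) (l - 1)
    have e1 : (c + 0) * l + (l - 1) = i := by
      rw [add_zero]
      rw [add_mul, one_mul] at hi
      omega
    have e2 : 0 * l + (l - 1) = j := by
      rw [zero_mul]
      omega
    rw [e1, e2] at h1
    exact h1
  | succ m hm ih =>
    intro i j hi hj
    have hp : 1 ≤ m * l := Nat.mul_pos hm hl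
    have hq : 1 ≤ (c + m) * l := Nat.mul_pos (by omega) hl
    obtain ⟨i₀, hi₀⟩ : ∃ i₀, i₀ + 1 = (c + m) * l := ⟨(c + m) * l - 1, by omega⟩
    obtain ⟨j₀, hj₀⟩ : ∃ j₀, j₀ + 1 = m * l := ⟨m * l - 1, by omega⟩
    have h1 := ih i₀ j₀ hi₀ hj₀
    have h2 := lpp_add h i₀ j₀ (l - 1) (l - 1)
    have e1 : i₀ + 1 + (l - 1) = i := by
      rw [← add_assoc c, add_mul, one_mul, ← hi₀] at hi
      omega
    have e2 : j₀ + 1 + (l - 1) = j := by
      rw [add_mul, one_mul, ← hj₀] at hj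
      omega
    rw [e1, e2, hi₀, hj₀] at h2
    rw [Finset.sum_range_succ]
    linarith

/-- Diagonal corridors of `l × l` blocks. -/
lemma corridor {w : ℕ × ℕ → ℝ} (h : ∀ c, 0 ≤ w c) (N l m c : ℕ) (hl : 1 ≤ l)
    (hN : (c + m) * l ≤ N + 1) :
    ∑ k ∈ Finset.range m, lpp (fun d => w ((c + k) * l + d.1, k * l + d.2)) (l - 1) (l - 1)
      ≤ lpp w N N := by
  rcases Nat.eq_zero_or_pos m with rfl | hm
  · rw [Finset.sum_range_zero]
    exact lpp_nonneg h _ _
  · have hp : 1 ≤ m * l := Nat.mul_pos hm hl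
    have hq : m * l ≤ (c + m) * l := Nat.mul_le_mul_right l (by omega)
    refine (Lpp_corr h l c hl m hm ((c + m) * l - 1) (m * l - 1) (by omega) (by omega)).trans ?_
    exact Lpp_le h (by omega) (by omega)

end Pool.Agent.FX
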