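import Pool.Agent.FX.PathL

/-! # Turns of a path -/

namespace Pool.Agent.FX

variable {N : ℕ} {v : ℕ → Fin (N + 1) × Fin (N + 1)}

/-- The other vertex of the unit square at a turn. -/
noncomputable def alt (N : ℕ) (v : ℕ → Fin (N + 1) × Fin (N + 1)) (k : ℕ) :
    Fin (N + 1) × Fin (N + 1) := by
  classical
  exact if (v k).1 = (v (k - 1)).1 then ((v (k + 1)).1, (v (k - 1)).2)
    else ((v (k - 1)).1, (v (k + 1)).2)

/-- The two shapes of a turn. -/
private lemma shape (h : IsPath N v) {k : ℕ} (h1 : 1 ≤ k) (hk : k < 2 * N)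
    (ht : IsTurn N v k) :
    ((v k).1 = (v (k - 1)).1 ∧ (v k).2.val = (v (k - 1)).2.val + 1 ∧
      (v (k + 1)).1.val = (v k).1.val + 1 ∧ (v (k + 1)).2 = (v k).2 ∧
      alt N v k = ((v (k + 1)).1, (v (k - 1)).2)) ∨
    ((v k).1.val = (v (k - 1)).1.val + 1 ∧ (v k).2 = (v (k - 1)).2 ∧
      (v (k + 1)).1 = (v k).1 ∧ (v (k + 1)).2.val = (v k).2.val + 1 ∧
      alt N v k = ((v (k - 1)).1, (v (k + 1)).2)) := by
  have s1 := h.step (k - 1) (by omega)
  have s2 := h.step k hk
  have e : k - 1 + 1 = k := by omega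
  rw [e] at s1
  unfold IsTurn at ht
  rcases s1 with ⟨a1, a2⟩ | ⟨a1, a2⟩
  · have n1 : ¬ ((v k).1 = (v (k - 1)).1) := by
      intro hh
      rw [hh] at a1
      omega
    rcases s2 with ⟨b1, b2⟩ | ⟨b1, b2⟩
    · have n2 : ¬ ((v (k + 1)).1 = (v k).1) := by
        intro hh
        rw [hh] at b1
        omega
      exact absurd (iff_of_false n1 n2) ht
    · right
      refine ⟨a1, a2, b1, b2, ?_⟩
      unfold alt
      rw [if_neg n1]
  · rcases s2 with ⟨b1, b2⟩ | ⟨b1, b2⟩
    · left
      refine ⟨a1, a2, b1, b2, ?_⟩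
      unfold alt
      rw [if_pos a1]
    · exact absurd (iff_of_true a1 b1) ht

lemma IsPath.alt_antidiag (h : IsPath N v) {k : ℕ} (h1 : 1 ≤ k) (hk : k < 2 * N)
    (ht : IsTurn N v k) : (alt N v k).1.val + (alt N v k).2.val = k := by
  have ha := h.antidiag (k := k - 1) (by omega)
  rcases shape h h1 hk ht with ⟨a1, a2, b1, b2, e⟩ | ⟨a1, a2, b1, b2, e⟩
  · rw [e]
    simp only
    rw [b1, a1]
    omega
  · rw [e]
    simp only
    rw [b2, a2]
    omega

lemma IsPath.alt_ne (h : IsPath N v) {k : ℕ} (h1 : 1 ≤ k) (hk : k < 2 * N)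
    (ht : IsTurn N v k) : alt N v k ≠ v k := by
  rcases shape h h1 hk ht with ⟨a1, a2, b1, b2, e⟩ | ⟨a1, a2, b1, b2, e⟩
  · rw [e]
    intro hh
    have : (v (k + 1)).1 = (v k).1 := by rw [← hh]
    rw [this] at b1
    omega
  · rw [e]
    intro hh
    have : (v (k + 1)).2 = (v k).2 := by rw [← hh]
    rw [this] at b2
    omega

private lemma isPath_update (h : IsPath N v) {k : ℕ} (h1 : 1 ≤ k) (hk : k < 2 * N)
    (ht : IsTurn N v k) : IsPath N (Function.update v k (alt N v k)) := by
  have hs := shape h h1 hk ht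
  refine ⟨?_, ?_, ?_⟩
  · rw [Function.update_of_ne (by omega)]
    exact h.start
  · rw [Function.update_of_ne (by omega)]
    exact h.stop
  · intro j hj
    by_cases hjk : j = k
    · subst hjk
      rw [Function.update_self, Function.update_of_ne (by omega)]
      rcases hs with ⟨a1, a2, b1, b2, e⟩ | ⟨a1, a2, b1, b2, e⟩
      · right
        rw [e]
        refine ⟨rfl, ?_⟩
        simp only
        rw [b2, a2]
      · left
        rw [e]
        refine ⟨?_, rfl⟩
        simp only
        rw [b1, a1]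
    · by_cases hjk' : j + 1 = k
      · have ej : j = k - 1 := by omega
        subst hjk'
        rw [Function.update_self, Function.update_of_ne hjk]
        have e2 : j + 1 - 1 = j := by omega
        rw [e2] at hs
        rcases hs with ⟨a1, a2, b1, b2, e⟩ | ⟨a1, a2, b1, b2, e⟩
        · left
          rw [e]
          refine ⟨?_, rfl⟩
          simp only
          rw [b1, a1]
        · right
          rw [e]
          refine ⟨rfl, ?_⟩
          simp only
          rw [b2, a2]
      · rw [Function.update_of_ne hjk', Function.update_of_ne hjk]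
        exact h.step j hj

lemma IsPath.alt_le (h : IsPath N v) {k : ℕ} (h1 : 1 ≤ k) (hk : k < 2 * N)
    (ht : IsTurn N v k) {ω : Env N} (hω : ω ∈ cone N v) : ω (alt N v k) ≤ ω (v k) := by
  have hp := isPath_update h h1 hk ht
  have hl := hω.2 _ hp
  unfold len at hl
  have hmem : k ∈ Finset.range (2 * N + 1) := Finset.mem_range.mpr (by omega)
  rw [← Finset.add_sum_erase _ _ hmem,
    ← Finset.add_sum_erase (Finset.range (2 * N + 1)) (fun j => ω (v j)) hmem] at hl
  rw [Function.update_self] at hl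
  have he : ∑ x ∈ (Finset.range (2 * N + 1)).erase k,
      ω (Function.update v k (alt N v k) x) =
      ∑ x ∈ (Finset.range (2 * N + 1)).erase k, ω (v x) := by
    refine Finset.sum_congr rfl fun x hx => ?_
    rw [Function.update_of_ne (Finset.ne_of_mem_erase hx)]
  rw [he] at hl
  linarith

end Pool.Agent.FX
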