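import Pool.Agent.FX.Upd
import Pool.Agent.FX.Lpp

/-! # The stationary model -/

open MeasureTheory ProbabilityTheory

namespace Pool.Agent.FX

variable {Ω : Type} [MeasurableSpace Ω] {μ : Measure Ω} {X : ℕ × ℕ → Ω → ℝ}

/-- process the first `i` cells of the row `j` -/
noncomputable def Stat_row (j : ℕ) : ℕ → (ℕ × ℕ → ℝ) → ℕ × ℕ → ℝ
  | 0, w => w
  | i + 1, w => upd (i + 1, 0) (0, j) (i + 1, j) (Stat_row j i w)

/-- process the first `x` cells of the rows `1, …, j` -/
noncomputable def Stat_all (x : ℕ) : ℕ → (ℕ × ℕ → ℝ) → ℕ × ℕ → ℝ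
  | 0, w => w
  | j + 1, w => Stat_row (j + 1) x (Stat_all x j w)

/-- the state after the rows `1, …, j` and the first `i` cells of the row `j + 1` -/
structure Stat_inv (x : ℕ) (w s : ℕ × ℕ → ℝ) (j i : ℕ) : Prop where
  A1 : ∀ i' < i, s (i' + 1, 0) = lpp w (i' + 1) (j + 1) - lpp w i' (j + 1)
  A2 : ∀ i', i ≤ i' → i' < x → s (i' + 1, 0) = lpp w (i' + 1) j - lpp w i' j
  B1 : s (0, j + 1) = lpp w i (j + 1) - lpp w i j
  B2 : ∀ j', j + 1 < j' → s (0, j') = w (0, j')
  C1 : ∀ i', i ≤ i' → s (i' + 1, j + 1) = w (i' + 1, j + 1)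
  C2 : ∀ i' j', j + 1 < j' → s (i' + 1, j') = w (i' + 1, j')

lemma Stat_start (x : ℕ) (w : ℕ × ℕ → ℝ) : Stat_inv x w w 0 0 where
  A1 i' h := absurd h (by omega)
  A2 i' _ _ := by
    rw [lpp]
    ring
  B1 := by
    have e : lpp w 0 (0 + 1) = lpp w 0 0 + w (0, 0 + 1) := by
      conv_lhs => rw [lpp]
    rw [e]
    ring
  B2 _ _ := rfl
  C1 _ _ := rfl
  C2 _ _ _ := rfl

lemma Stat_next {x : ℕ} {w s : ℕ × ℕ → ℝ} {j : ℕ} (h : Stat_inv x w s j x) :
    Stat_inv x w s (j + 1) 0 where
  A1 i' h := absurd h (by omega)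
  A2 i' _ hx := h.A1 i' hx
  B1 := by
    rw [h.B2 _ (by omega), lpp]
    ring
  B2 j' hj := h.B2 j' (by omega)
  C1 i' _ := h.C2 i' _ (by omega)
  C2 i' j' hj := h.C2 i' j' (by omega)

lemma Stat_step {x : ℕ} {w s : ℕ × ℕ → ℝ} {j i : ℕ} (h : Stat_inv x w s j i) (hi : i < x) :
    Stat_inv x w (upd (i + 1, 0) (0, j + 1) (i + 1, j + 1) s) j (i + 1) := by
  have hI := h.A2 i le_rfl hi
  have hJ := h.B1
  have hW := h.C1 i le_rfl
  have hl : lpp w (i + 1) (j + 1) = max (lpp w i (j + 1)) (lpp w (i + 1) j) + w (i + 1, j + 1) := by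
    rw [lpp]
  refine ⟨fun i' hi' => ?_, fun i' hi' hx => ?_, ?_, fun j' hj => ?_, fun i' hi' => ?_,
    fun i' j' hj => ?_⟩
  · rcases Nat.lt_succ_iff_lt_or_eq.1 hi' with h1 | h1
    · have e1 : ((i' + 1, 0) : ℕ × ℕ) ≠ (i + 1, 0) := by
        intro e
        have := congrArg Prod.fst e
        simp only at this
        omega
      have e2 : ((i' + 1, 0) : ℕ × ℕ) ≠ (0, j + 1) := by
        intro e
        have := congrArg Prod.fst e
        simp only at this
        omega
      have e3 : ((i' + 1, 0) : ℕ × ℕ) ≠ (i + 1, j + 1) := by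
        intro e
        have := congrArg Prod.snd e
        simp only at this
        omega
      unfold upd
      rw [if_neg e1, if_neg e2, if_neg e3]
      exact h.A1 i' h1
    · subst h1
      unfold upd
      rw [if_pos rfl, hI, hJ, hW, hl]
      have e : lpp w (i' + 1) j - lpp w i' j - (lpp w i' (j + 1) - lpp w i' j) =
          lpp w (i' + 1) j - lpp w i' (j + 1) := by ring
      rw [e, add_sub_right_comm, ← max_sub_sub_right, sub_self, max_comm 0, add_comm]
  · have e1 : ((i' + 1, 0) : ℕ × ℕ) ≠ (i + 1, 0) := by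
      intro e
      have := congrArg Prod.fst e
      simp only at this
      omega
    have e2 : ((i' + 1, 0) : ℕ × ℕ) ≠ (0, j + 1) := by
      intro e
      have := congrArg Prod.fst e
      simp only at this
      omega
    have e3 : ((i' + 1, 0) : ℕ × ℕ) ≠ (i + 1, j + 1) := by
      intro e
      have := congrArg Prod.snd e
      simp only at this
      omega
    unfold upd
    rw [if_neg e1, if_neg e2, if_neg e3]
    exact h.A2 i' (by omega) hx
  · have e1 : ((0, j + 1) : ℕ × ℕ) ≠ (i + 1, 0) := by
      intro e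
      have := congrArg Prod.fst e
      simp only at this
      omega
    unfold upd
    rw [if_neg e1, if_pos rfl, hI, hJ, hW, hl]
    have e : lpp w i (j + 1) - lpp w i j - (lpp w (i + 1) j - lpp w i j) =
        lpp w i (j + 1) - lpp w (i + 1) j := by ring
    rw [e, add_sub_right_comm, ← max_sub_sub_right, sub_self, add_comm]
  · have e1 : ((0, j') : ℕ × ℕ) ≠ (i + 1, 0) := by
      intro e
      have := congrArg Prod.fst e
      simp only at this
      omega
    have e2 : ((0, j') : ℕ × ℕ) ≠ (0, j + 1) := by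
      intro e
      have := congrArg Prod.snd e
      simp only at this
      omega
    have e3 : ((0, j') : ℕ × ℕ) ≠ (i + 1, j + 1) := by
      intro e
      have := congrArg Prod.fst e
      simp only at this
      omega
    unfold upd
    rw [if_neg e1, if_neg e2, if_neg e3]
    exact h.B2 j' hj
  · have e1 : ((i' + 1, j + 1) : ℕ × ℕ) ≠ (i + 1, 0) := by
      intro e
      have := congrArg Prod.snd e
      simp only at this
      omega
    have e2 : ((i' + 1, j + 1) : ℕ × ℕ) ≠ (0, j + 1) := by
      intro e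
      have := congrArg Prod.fst e
      simp only at this
      omega
    have e3 : ((i' + 1, j + 1) : ℕ × ℕ) ≠ (i + 1, j + 1) := by
      intro e
      have := congrArg Prod.fst e
      simp only at this
      omega
    unfold upd
    rw [if_neg e1, if_neg e2, if_neg e3]
    exact h.C1 i' (by omega)
  · have e1 : ((i' + 1, j') : ℕ × ℕ) ≠ (i + 1, 0) := by
      intro e
      have := congrArg Prod.snd e
      simp only at this
      omega
    have e2 : ((i' + 1, j') : ℕ × ℕ) ≠ (0, j + 1) := by
      intro e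
      have := congrArg Prod.fst e
      simp only at this
      omega
    have e3 : ((i' + 1, j') : ℕ × ℕ) ≠ (i + 1, j + 1) := by
      intro e
      have := congrArg Prod.snd e
      simp only at this
      omega
    unfold upd
    rw [if_neg e1, if_neg e2, if_neg e3]
    exact h.C2 i' j' hj

lemma Stat_row_inv {x : ℕ} {w s : ℕ × ℕ → ℝ} {j : ℕ} (h : Stat_inv x w s j 0) (i : ℕ)
    (hi : i ≤ x) : Stat_inv x w (Stat_row (j + 1) i s) j i := by
  induction i with
  | zero => exact h
  | succ i ih => exact Stat_step (ih (by omega)) (by omega)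

lemma Stat_all_inv (x : ℕ) (w : ℕ × ℕ → ℝ) (j : ℕ) : Stat_inv x w (Stat_all x j w) j 0 := by
  induction j with
  | zero => exact Stat_start x w
  | succ j ih => exact Stat_next (Stat_row_inv ih x le_rfl)

lemma Stat_row_fam {a b : ℝ} (hab : a + b = 1) (h : ExpFam μ X (statRate a b)) (j i : ℕ) :
    ExpFam μ (fun c ω => Stat_row (j + 1) i (fun d => X d ω) c) (statRate a b) := by
  induction i with
  | zero => exact h
  | succ i ih =>
    refine ExpFam.upd ih (p := (i + 1, 0)) (q := (0, j + 1)) (s := (i + 1, j + 1)) ?_ ?_ ?_ ?_ ?_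
    · intro e
      have := congrArg Prod.fst e
      simp only at this
      omega
    · intro e
      have := congrArg Prod.snd e
      simp only at this
      omega
    · intro e
      have := congrArg Prod.fst e
      simp only at this
      omega
    · have h1 : statRate a b (i + 1, 0) = b := by
        unfold statRate
        rw [if_neg (Nat.succ_ne_zero i), if_pos rfl]
      have h2 : statRate a b (0, j + 1) = a := by
        unfold statRate
        rw [if_pos rfl]
      rw [h1, h2, add_comm, hab]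
    · unfold statRate
      rw [if_neg (Nat.succ_ne_zero i), if_neg (Nat.succ_ne_zero j)]

lemma Stat_all_fam {a b : ℝ} (hab : a + b = 1) (h : ExpFam μ X (statRate a b)) (x j : ℕ) :
    ExpFam μ (fun c ω => Stat_all x j (fun d => X d ω) c) (statRate a b) := by
  induction j with
  | zero => exact h
  | succ j ih => exact Stat_row_fam hab ih j x

/-- In the stationary model the horizontal increments of a row are independent `Exp(b)`. -/
lemma stat_mgf {a b : ℝ} (ha : 0 < a) (hb : 0 < b) (hab : a + b = 1)
    (h : ExpFam μ X (statRate a b)) (x y : ℕ) {θ : ℝ} (hθ : θ < b) :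
    ∫⁻ ω, ENNReal.ofReal (Real.exp (θ * (lpp (fun c => X c ω) x y - lpp (fun c => X c ω) 0 y))) ∂μ
      = ENNReal.ofReal ((b / (b - θ)) ^ x) := by
  have hfam := Stat_all_fam hab h x y
  have hinj : Set.InjOn (fun i : ℕ => ((i + 1, 0) : ℕ × ℕ)) (Finset.range x) := by
    intro i _ i' _ e
    have := congrArg Prod.fst e
    simp only at this
    omega
  have hsum : ∀ ω, lpp (fun c => X c ω) x y - lpp (fun c => X c ω) 0 y =
      ∑ c ∈ (Finset.range x).image (fun i : ℕ => ((i + 1, 0) : ℕ × ℕ)),
        Stat_all x y (fun d => X d ω) c := by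
    intro ω
    rw [Finset.sum_image hinj, ← Finset.sum_range_sub (fun i => lpp (fun c => X c ω) i y)]
    refine Finset.sum_congr rfl fun i hi => ?_
    exact ((Stat_all_inv x (fun c => X c ω) y).A2 i (Nat.zero_le i) (Finset.mem_range.1 hi)).symm
  have hrate : ∀ i : ℕ, statRate a b (i + 1, 0) = b := by
    intro i
    unfold statRate
    rw [if_neg (Nat.succ_ne_zero i), if_pos rfl]
  have h1 := hfam.sum_mgf ((Finset.range x).image (fun i : ℕ => ((i + 1, 0) : ℕ × ℕ))) θ (by
    intro c hc
    obtain ⟨i, _, rfl⟩ := Finset.mem_image.1 hc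
    rw [hrate]
    exact hθ)
  simp only [hsum]
  rw [h1, Finset.prod_image hinj]
  simp only [hrate]
  rw [Finset.prod_const, Finset.card_range, ENNReal.ofReal_pow]
  exact div_nonneg hb.le (sub_pos.2 hθ).le

end Pool.Agent.FX
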