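import Pool.Agent.FX.Fam
import Pool.Agent.FX.Burke1

/-! # Updating three coordinates of an independent exponential family -/

open MeasureTheory ProbabilityTheory

namespace Pool.Agent.FX

/-- Process the cell `(i,j)`: the coordinate `(i,0)` holds the current horizontal increment,
`(0,j)` the current vertical increment, `(i,j)` the weight. -/
noncomputable def upd (p q s : ℕ × ℕ) (w : ℕ × ℕ → ℝ) : ℕ × ℕ → ℝ := fun c =>
  if c = p then w s + max (w p - w q) 0
  else if c = q then w s + max (w q - w p) 0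
  else if c = s then min (w p) (w q)
  else w c

variable {Ω : Type} [MeasurableSpace Ω] {μ : Measure Ω} {X : ℕ × ℕ → Ω → ℝ} {r : ℕ × ℕ → ℝ}

private lemma triple_int (h : ExpFam μ X r) {p q s : ℕ × ℕ} (hpq : p ≠ q) (hps : p ≠ s)
    (hqs : q ≠ s) (F : ℝ × ℝ × ℝ → ENNReal) (hF : Measurable F) :
    ∫⁻ ω, F (X p ω, X q ω, X s ω) ∂μ =
      ∫⁻ I, ∫⁻ J, ∫⁻ w, F (I, J, w) ∂(expMeasure (r s)) ∂(expMeasure (r q))
        ∂(expMeasure (r p)) := by
  have := h.prob
  have h1 : IndepFun (X q) (X s) μ := h.indep.indepFun hqs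
  have h2 : IndepFun (X p) (fun ω => (X q ω, X s ω)) μ :=
    (h.indep.indepFun_prodMk h.meas q s p hpq.symm hps.symm).symm
  have h3 : μ.map (fun ω => (X q ω, X s ω)) =
      (expMeasure (r q)).prod (expMeasure (r s)) := by
    rw [(indepFun_iff_map_prod_eq_prod_map_map (h.meas q).aemeasurable
      (h.meas s).aemeasurable).1 h1, h.law, h.law]
  have h4 : μ.map (fun ω => (X p ω, X q ω, X s ω)) =
      (expMeasure (r p)).prod ((expMeasure (r q)).prod (expMeasure (r s))) := by
    rw [(indepFun_iff_map_prod_eq_prod_map_map (h.meas p).aemeasurable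
      ((h.meas q).prodMk (h.meas s)).aemeasurable).1 h2, h.law, h3]
  have : IsProbabilityMeasure (expMeasure (r q)) := isProbabilityMeasure_expMeasure (h.rate q)
  have : IsProbabilityMeasure (expMeasure (r s)) := isProbabilityMeasure_expMeasure (h.rate s)
  have hm : Measurable (fun ω => (X p ω, X q ω, X s ω)) :=
    (h.meas p).prodMk ((h.meas q).prodMk (h.meas s))
  rw [← lintegral_map hF hm, h4, lintegral_prod _ hF.aemeasurable]
  refine lintegral_congr fun I => ?_
  exact lintegral_prod (fun y => F (I, y)) (hF.comp measurable_prodMk_left).aemeasurable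

private lemma triple_upd (h : ExpFam μ X r) {p q s : ℕ × ℕ} (hpq : p ≠ q) (hps : p ≠ s)
    (hqs : q ≠ s) (hr : r p + r q = 1) (hs : r s = 1)
    (F : ℝ × ℝ × ℝ → ENNReal) (hF : Measurable F) :
    ∫⁻ ω, F (X s ω + max (X p ω - X q ω) 0, X s ω + max (X q ω - X p ω) 0,
      min (X p ω) (X q ω)) ∂μ = ∫⁻ ω, F (X p ω, X q ω, X s ω) ∂μ := by
  have hG : Measurable (fun z : ℝ × ℝ × ℝ =>
      (z.2.2 + max (z.1 - z.2.1) 0, z.2.2 + max (z.2.1 - z.1) 0, min z.1 z.2.1)) := by
    fun_prop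
  have h1 := triple_int h hpq hps hqs (fun z => F (z.2.2 + max (z.1 - z.2.1) 0,
    z.2.2 + max (z.2.1 - z.1) 0, min z.1 z.2.1)) (hF.comp hG)
  have h2 := triple_int h hpq hps hqs F hF
  have h3 := burke3 (h.rate q) (h.rate p) (by linarith) F hF
  rw [h2, hs, ← h3]
  rw [hs] at h1
  exact h1

private lemma rect_upd (h : ExpFam μ X r) {p q s : ℕ × ℕ} (hpq : p ≠ q) (hps : p ≠ s)
    (hqs : q ≠ s) (hr : r p + r q = 1) (hs : r s = 1)
    (S : Finset (ℕ × ℕ)) (B : ℕ × ℕ → Set ℝ) (hB : ∀ c, MeasurableSet (B c))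
    (hp : p ∈ S) (hq : q ∈ S) (hsS : s ∈ S) :
    μ {ω | ∀ c ∈ S, upd p q s (fun d => X d ω) c ∈ B c} = μ {ω | ∀ c ∈ S, X c ω ∈ B c} := by
  classical
  set T : Finset (ℕ × ℕ) := {p, q, s} with hT
  set R := S \ T with hR
  have hTR : Disjoint T R := Finset.disjoint_sdiff
  set g : (ℕ × ℕ → ℝ) → ENNReal := Set.indicator {w | ∀ c ∈ R, w c ∈ B c} 1 with hg
  have hgset : MeasurableSet {w : ℕ × ℕ → ℝ | ∀ c ∈ R, w c ∈ B c} := by
    have : {w : ℕ × ℕ → ℝ | ∀ c ∈ R, w c ∈ B c} = ⋂ c ∈ R, (fun w => w c) ⁻¹' B c := by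
      ext w; simp
    rw [this]
    exact Finset.measurableSet_biInter _ fun c _ => measurable_pi_apply c (hB c)
  have hgm : Measurable g := measurable_one.indicator hgset
  have hgT : ∀ w w', (∀ c ∈ R, w c = w' c) → g w = g w' := by
    intro w w' hw
    have : w ∈ {w : ℕ × ℕ → ℝ | ∀ c ∈ R, w c ∈ B c} ↔
        w' ∈ {w : ℕ × ℕ → ℝ | ∀ c ∈ R, w c ∈ B c} := by
      simp only [Set.mem_ofPred_eq]
      exact ⟨fun hh c hc => hw c hc ▸ hh c hc, fun hh c hc => (hw c hc).symm ▸ hh c hc⟩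
    simp only [hg, Set.indicator]
    by_cases h1 : w ∈ {w : ℕ × ℕ → ℝ | ∀ c ∈ R, w c ∈ B c}
    · rw [if_pos h1, if_pos (this.1 h1)]; rfl
    · rw [if_neg h1, if_neg (fun h2 => h1 (this.2 h2))]
  set F : ℝ × ℝ × ℝ → ENNReal := Set.indicator (B p ×ˢ (B q ×ˢ B s)) 1 with hF
  have hFm : Measurable F := measurable_one.indicator ((hB p).prod ((hB q).prod (hB s)))
  set f1 : (ℕ × ℕ → ℝ) → ENNReal := fun w => F (w s + max (w p - w q) 0,
    w s + max (w q - w p) 0, min (w p) (w q)) with hf1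
  set f2 : (ℕ × ℕ → ℝ) → ENNReal := fun w => F (w p, w q, w s) with hf2
  have hf1m : Measurable f1 := hFm.comp (by fun_prop)
  have hf2m : Measurable f2 := hFm.comp (by fun_prop)
  have hf1S : ∀ w w', (∀ c ∈ T, w c = w' c) → f1 w = f1 w' := by
    intro w w' hw
    have e1 := hw p (by simp [hT])
    have e2 := hw q (by simp [hT])
    have e3 := hw s (by simp [hT])
    simp only [hf1, e1, e2, e3]
  have hf2S : ∀ w w', (∀ c ∈ T, w c = w' c) → f2 w = f2 w' := by
    intro w w' hw
    have e1 := hw p (by simp [hT])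
    have e2 := hw q (by simp [hT])
    have e3 := hw s (by simp [hT])
    simp only [hf2, e1, e2, e3]
  have k1 := h.indep2 hTR hf1m hgm hf1S hgT
  have k2 := h.indep2 hTR hf2m hgm hf2S hgT
  have k3 := triple_upd h hpq hps hqs hr hs F hFm
  have k4 : ∫⁻ ω, f1 (fun c => X c ω) * g (fun c => X c ω) ∂μ =
      ∫⁻ ω, f2 (fun c => X c ω) * g (fun c => X c ω) ∂μ := by
    rw [k1, k2]
    exact congrArg (· * _) k3
  have hXm : Measurable (fun ω => fun c => X c ω) := measurable_pi_iff.2 h.meas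
  have hupdm : Measurable (fun ω => upd p q s (fun d => X d ω)) := by
    refine measurable_pi_iff.2 fun c => ?_
    have mp := h.meas p
    have mq := h.meas q
    have ms := h.meas s
    have mc := h.meas c
    by_cases c1 : c = p
    · simp only [upd, c1, if_true]; fun_prop
    · by_cases c2 : c = q
      · simp only [upd, c2, if_true, if_neg hpq.symm]; fun_prop
      · by_cases c3 : c = s
        · simp only [upd, c3, if_true, if_neg hps.symm, if_neg hqs.symm]; fun_prop
        · simp only [upd, if_neg c1, if_neg c2, if_neg c3]; fun_prop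
  have mS : MeasurableSet {w : ℕ × ℕ → ℝ | ∀ c ∈ S, w c ∈ B c} := by
    have : {w : ℕ × ℕ → ℝ | ∀ c ∈ S, w c ∈ B c} = ⋂ c ∈ S, (fun w => w c) ⁻¹' B c := by
      ext w; simp
    rw [this]
    exact Finset.measurableSet_biInter _ fun c _ => measurable_pi_apply c (hB c)
  have m1 : MeasurableSet {ω | ∀ c ∈ S, upd p q s (fun d => X d ω) c ∈ B c} := hupdm mS
  have m2 : MeasurableSet {ω | ∀ c ∈ S, X c ω ∈ B c} := hXm mS
  have r1 : ∀ ω, Set.indicator {ω | ∀ c ∈ S, upd p q s (fun d => X d ω) c ∈ B c} 1 ω =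
      f1 (fun c => X c ω) * g (fun c => X c ω) := by
    intro ω
    have hiff : (∀ c ∈ S, upd p q s (fun d => X d ω) c ∈ B c) ↔
        ((X s ω + max (X p ω - X q ω) 0, X s ω + max (X q ω - X p ω) 0,
          min (X p ω) (X q ω)) ∈ B p ×ˢ (B q ×ˢ B s)) ∧ (∀ c ∈ R, X c ω ∈ B c) := by
      constructor
      · intro hh
        refine ⟨⟨?_, ?_, ?_⟩, ?_⟩
        · have := hh p hp
          simpa [upd] using this
        · have := hh q hq
          simpa [upd, hpq.symm] using this
        · have := hh s hsS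
          simpa [upd, hps.symm, hqs.symm] using this
        · intro c hc
          have hc1 := (Finset.mem_sdiff.1 hc).1
          have hc2 := (Finset.mem_sdiff.1 hc).2
          simp only [hT, Finset.mem_insert, Finset.mem_singleton, not_or] at hc2
          have := hh c hc1
          simpa [upd, hc2.1, hc2.2.1, hc2.2.2] using this
      · rintro ⟨⟨a1, a2, a3⟩, hh⟩ c hc
        by_cases c1 : c = p
        · subst c1; simpa [upd] using a1
        · by_cases c2 : c = q
          · subst c2; simpa [upd, hpq.symm] using a2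
          · by_cases c3 : c = s
            · subst c3; simpa [upd, hps.symm, hqs.symm] using a3
            · simp only [upd, if_neg c1, if_neg c2, if_neg c3]
              exact hh c (Finset.mem_sdiff.2 ⟨hc, by simp [hT, c1, c2, c3]⟩)
    by_cases b1 : (X s ω + max (X p ω - X q ω) 0, X s ω + max (X q ω - X p ω) 0,
          min (X p ω) (X q ω)) ∈ B p ×ˢ (B q ×ˢ B s)
    · by_cases b2 : ∀ c ∈ R, X c ω ∈ B c
      · rw [Set.indicator_of_mem (show ω ∈ {ω | ∀ c ∈ S, upd p q s (fun d => X d ω) c ∈ B c}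
          from hiff.2 ⟨b1, b2⟩)]
        simp only [hf1, hF, hg]
        rw [Set.indicator_of_mem b1, Set.indicator_of_mem (show (fun c => X c ω) ∈
          {w : ℕ × ℕ → ℝ | ∀ c ∈ R, w c ∈ B c} from b2)]
        simp
      · rw [Set.indicator_of_notMem (show ω ∉ {ω | ∀ c ∈ S, upd p q s (fun d => X d ω) c ∈ B c}
          from fun hh => b2 (hiff.1 hh).2)]
        simp only [hf1, hF, hg]
        rw [Set.indicator_of_notMem (show (fun c => X c ω) ∉
          {w : ℕ × ℕ → ℝ | ∀ c ∈ R, w c ∈ B c} from b2), mul_zero]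
    · rw [Set.indicator_of_notMem (show ω ∉ {ω | ∀ c ∈ S, upd p q s (fun d => X d ω) c ∈ B c}
          from fun hh => b1 (hiff.1 hh).1)]
      simp only [hf1, hF]
      rw [Set.indicator_of_notMem b1, zero_mul]
  have r2 : ∀ ω, Set.indicator {ω | ∀ c ∈ S, X c ω ∈ B c} 1 ω =
      f2 (fun c => X c ω) * g (fun c => X c ω) := by
    intro ω
    have hiff : (∀ c ∈ S, X c ω ∈ B c) ↔
        ((X p ω, X q ω, X s ω) ∈ B p ×ˢ (B q ×ˢ B s)) ∧ (∀ c ∈ R, X c ω ∈ B c) := by
      constructor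
      · intro hh
        exact ⟨⟨hh p hp, hh q hq, hh s hsS⟩, fun c hc => hh c (Finset.mem_sdiff.1 hc).1⟩
      · rintro ⟨⟨a1, a2, a3⟩, hh⟩ c hc
        by_cases c1 : c = p
        · subst c1; exact a1
        · by_cases c2 : c = q
          · subst c2; exact a2
          · by_cases c3 : c = s
            · subst c3; exact a3
            · exact hh c (Finset.mem_sdiff.2 ⟨hc, by simp [hT, c1, c2, c3]⟩)
    by_cases b1 : (X p ω, X q ω, X s ω) ∈ B p ×ˢ (B q ×ˢ B s)
    · by_cases b2 : ∀ c ∈ R, X c ω ∈ B c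
      · rw [Set.indicator_of_mem (show ω ∈ {ω | ∀ c ∈ S, X c ω ∈ B c}
          from hiff.2 ⟨b1, b2⟩)]
        simp only [hf2, hF, hg]
        rw [Set.indicator_of_mem b1, Set.indicator_of_mem (show (fun c => X c ω) ∈
          {w : ℕ × ℕ → ℝ | ∀ c ∈ R, w c ∈ B c} from b2)]
        simp
      · rw [Set.indicator_of_notMem (show ω ∉ {ω | ∀ c ∈ S, X c ω ∈ B c}
          from fun hh => b2 (hiff.1 hh).2)]
        simp only [hf2, hF, hg]
        rw [Set.indicator_of_notMem (show (fun c => X c ω) ∉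
          {w : ℕ × ℕ → ℝ | ∀ c ∈ R, w c ∈ B c} from b2), mul_zero]
    · rw [Set.indicator_of_notMem (show ω ∉ {ω | ∀ c ∈ S, X c ω ∈ B c}
          from fun hh => b1 (hiff.1 hh).1)]
      simp only [hf2, hF]
      rw [Set.indicator_of_notMem b1, zero_mul]
  rw [← lintegral_indicator_one m1, ← lintegral_indicator_one m2]
  rw [lintegral_congr r1, lintegral_congr r2, k4]

private lemma meas_upd (h : ExpFam μ X r) (p q s c : ℕ × ℕ) :
    Measurable (fun ω => upd p q s (fun d => X d ω) c) := by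
  have mp := h.meas p
  have mq := h.meas q
  have ms := h.meas s
  have mc := h.meas c
  unfold upd
  by_cases c1 : c = p
  · simp only [if_pos c1]; fun_prop
  · by_cases c2 : c = q
    · simp only [if_neg c1, if_pos c2]; fun_prop
    · by_cases c3 : c = s
      · simp only [if_neg c1, if_neg c2, if_pos c3]; fun_prop
      · simp only [if_neg c1, if_neg c2, if_neg c3]; fun_prop

private lemma rect_upd' (h : ExpFam μ X r) {p q s : ℕ × ℕ} (hpq : p ≠ q) (hps : p ≠ s)
    (hqs : q ≠ s) (hr : r p + r q = 1) (hs : r s = 1)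
    (S : Finset (ℕ × ℕ)) (B : ℕ × ℕ → Set ℝ) (hB : ∀ c ∈ S, MeasurableSet (B c)) :
    μ {ω | ∀ c ∈ S, upd p q s (fun d => X d ω) c ∈ B c} = μ {ω | ∀ c ∈ S, X c ω ∈ B c} := by
  classical
  have hB' : ∀ c, MeasurableSet ((fun c => if c ∈ S then B c else Set.univ) c) := by
    intro c
    by_cases hc : c ∈ S
    · simpa [hc] using hB c hc
    · simp [hc]
  have key := rect_upd h hpq hps hqs hr hs (S ∪ {p, q, s})
    (fun c => if c ∈ S then B c else Set.univ) hB' (by simp) (by simp) (by simp)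
  have e1 : ∀ Y : ℕ × ℕ → ℝ, (∀ c ∈ S ∪ {p, q, s}, Y c ∈ (fun c => if c ∈ S then B c
      else Set.univ) c) ↔ (∀ c ∈ S, Y c ∈ B c) := by
    intro Y
    constructor
    · intro hh c hc
      have := hh c (Finset.mem_union_left _ hc)
      simpa [hc] using this
    · intro hh c _
      by_cases hc : c ∈ S
      · simpa [hc] using hh c hc
      · simp [hc]
  have s1 : {ω | ∀ c ∈ S ∪ {p, q, s}, upd p q s (fun d => X d ω) c ∈ (fun c => if c ∈ S then B c
      else Set.univ) c} = {ω | ∀ c ∈ S, upd p q s (fun d => X d ω) c ∈ B c} := by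
    ext ω
    exact e1 (upd p q s (fun d => X d ω))
  have s2 : {ω | ∀ c ∈ S ∪ {p, q, s}, X c ω ∈ (fun c => if c ∈ S then B c
      else Set.univ) c} = {ω | ∀ c ∈ S, X c ω ∈ B c} := by
    ext ω
    exact e1 (fun d => X d ω)
  rw [← s1, ← s2]
  exact key

lemma ExpFam.upd (h : ExpFam μ X r) {p q s : ℕ × ℕ} (hpq : p ≠ q) (hps : p ≠ s) (hqs : q ≠ s)
    (hr : r p + r q = 1) (hs : r s = 1) :
    ExpFam μ (fun c ω => FX.upd p q s (fun d => X d ω) c) r := by
  classical
  have hsing : ∀ c (A : Set ℝ), MeasurableSet A →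
      μ ((fun ω => FX.upd p q s (fun d => X d ω) c) ⁻¹' A) = μ (X c ⁻¹' A) := by
    intro c A hA
    have := rect_upd' h hpq hps hqs hr hs {c} (fun _ => A) (fun _ _ => hA)
    simpa [Set.preimage] using this
  refine ⟨fun c => meas_upd h p q s c, ?_, ?_, h.rate⟩
  · rw [iIndepFun_iff_measure_inter_preimage_eq_mul]
    intro S B hB
    have h1 := rect_upd' h hpq hps hqs hr hs S B hB
    have h2 := (iIndepFun_iff_measure_inter_preimage_eq_mul.1 h.indep) S hB
    have e1 : (⋂ i ∈ S, (fun ω => FX.upd p q s (fun d => X d ω) i) ⁻¹' B i) =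
        {ω | ∀ c ∈ S, FX.upd p q s (fun d => X d ω) c ∈ B c} := by
      ext ω; simp
    have e2 : (⋂ i ∈ S, X i ⁻¹' B i) = {ω | ∀ c ∈ S, X c ω ∈ B c} := by
      ext ω; simp
    rw [e1, h1, ← e2, h2]
    exact Finset.prod_congr rfl fun c hc => (hsing c _ (hB c hc)).symm
  · intro c
    rw [← h.law c]
    ext A hA
    rw [Measure.map_apply (meas_upd h p q s c) hA, Measure.map_apply (h.meas c) hA]
    exact hsing c A hA

end Pool.Agent.FX
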